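import Pool.Agent.Lib.MP_9177b7_ag.V.St
import Pool.Agent.Lib.MP_9177b7_ag.U.Frame

/-!
The congruence of frames.
-/

open NumberField Matrix
open scoped nonZeroDivisors

noncomputable section

namespace Pool.Agent.Lib.MP_9177b7_ag.B.U.V

namespace CgA

theorem split (l N : ℕ) (hN : N ≠ 0) : ∃ t k : ℕ, t.Coprime l ∧ N ∣ t * l ^ k := by
  induction N using Nat.strong_induction_on with
  | _ N ih =>
    by_cases h : N.Coprime l
    · exact ⟨N, 0, h, by simp⟩
    obtain ⟨M, hM⟩ := Nat.gcd_dvd_left N l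
    have h1 : 1 < N.gcd l := lt_of_le_of_ne (Nat.gcd_pos_of_pos_left _ (Nat.pos_of_ne_zero hN))
      (Ne.symm h)
    have h0 : M ≠ 0 := by rintro rfl; exact hN (by simpa using hM)
    obtain ⟨t, k, h2, h3⟩ := ih M (by
      have := Nat.pos_of_ne_zero h0
      nlinarith) h0
    refine ⟨t, k + 1, h2, ?_⟩
    rw [hM, pow_succ, ← mul_assoc, mul_comm]
    exact mul_dvd_mul h3 (Nat.gcd_dvd_right N l)

theorem den {M : Type} [Field M] [NumberField M] {l : ℕ} {y : 𝓞 M} (h : One l y) (h0 : y ≠ 0) :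
    ∃ t : ℕ, t.Coprime l ∧ y ∣ t := by
  obtain ⟨t, k, h1, h2⟩ := split l (Ideal.absNorm (Ideal.span {y}))
    (by rwa [Ne, Ideal.absNorm_eq_zero_iff, Ideal.span_singleton_eq_bot])
  obtain ⟨z, hz⟩ := h
  have h3 : IsCoprime y (l : 𝓞 M) := ⟨1, -z, by rw [hz]; ring⟩
  refine ⟨t, h1, (h3.pow_right (n := k)).dvd_of_dvd_mul_right ?_⟩
  refine (Ideal.mem_span_singleton.1 (Ideal.absNorm_mem _)).trans ?_
  exact_mod_cast Nat.cast_dvd_cast (α := 𝓞 M) h2

variable {n p : ℕ} [Fact p.Prime] {c : Ctx p} {l : ℕ}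

theorem int_mem {x : c.K} (h : IsIntegral ℤ x) : x ∈ Rl c l :=
  ⟨1, Nat.coprime_one_left l, by simpa using h⟩

theorem cj_mem {x : c.K} (h : x ∈ Rl c l) : c.cj x ∈ Rl c l := by
  obtain ⟨t, h1, h2⟩ := h
  exact ⟨t, h1, by simpa using map_isIntegral_int c.cj h2⟩

variable [Sg] {D : Dat n c}

theorem J_mem (i k : Fin (n + 3)) : Jm n c.K i k ∈ Rl c l := by
  rw [Jm_apply]
  split_ifs
  exacts [intCast_mem _ _, zero_mem _]

theorem tr_mul (x : c.K) (y : D.L) :
    Algebra.trace c.K D.L (algebraMap c.K D.L x * y) = x * Algebra.trace c.K D.L y := by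
  rw [← Algebra.smul_def, map_smul, smul_eq_mul]

theorem of_tr {a : D.FI} {e e' : Fin (n + 3) → D.L} (he : D.Fr a e)
    (h : ∀ i k, ∃ x ∈ Rl c l, Algebra.trace c.K D.L ((e' k - e k) * D.du e i) = l * x) :
    Cg l D e e' := by
  choose δ h1 h2 using h
  refine ⟨of δ, h1, fun k => ?_⟩
  have h3 := ((frame n p c D).2.2.2.2.2.2.2.2.2.2.2.2.2.2.2.2.2.2 a e he).2.2.1 (e' k - e k)
  rw [← sub_eq_iff_eq_add', h3, Finset.mul_sum]
  refine Finset.sum_congr rfl fun i _ => ?_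
  rw [h2, map_mul, map_natCast, mul_assoc, of_apply]

theorem trans {e e' e'' : Fin (n + 3) → D.L} (h : Cg l D e e') (h' : Cg l D e' e'') :
    Cg l D e e'' := by
  obtain ⟨δ, h1, h2⟩ := h
  obtain ⟨δ', h3, h4⟩ := h'
  refine ⟨of fun i k => δ i k + (δ' i k + l * ∑ j, δ i j * δ' j k), fun i k => add_mem (h1 i k)
    (add_mem (h3 i k) (mul_mem (natCast_mem _ _) (sum_mem fun j _ => mul_mem (h1 _ _) (h3 _ _)))),
    fun k => ?_⟩
  rw [h4 k]
  simp only [h2, of_apply, map_add, map_mul, map_natCast, map_sum, add_mul, mul_add,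
    Finset.sum_add_distrib, Finset.mul_sum, Finset.sum_mul, add_assoc]
  congr 3
  rw [Finset.sum_comm]
  exact Finset.sum_congr rfl fun i _ => Finset.sum_congr rfl fun j _ => by ring

theorem symm {a a' : D.FI} {e e' : Fin (n + 3) → D.L} (he : D.Fr a e) (he' : D.Fr a' e')
    (h : Cg l D e e') : Cg l D e' e := by
  obtain ⟨δ, h1, h2⟩ := h
  have h0 : ∀ j m, Algebra.trace c.K D.L (D.lam * e j * D.bar (e' m)) ∈ Rl c l := fun j m => by
    have e1 : D.lam * e j * D.bar (e' m) = D.lam * e j * D.bar (e m) + ∑ i,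
        algebraMap c.K D.L (l * c.cj (δ i m)) * (D.lam * e j * D.bar (e i)) := by
      rw [h2 m]
      simp only [map_add, map_mul, map_natCast, map_sum, (frame n p c D).1, mul_add,
        Finset.mul_sum]
      congr 1
      exact Finset.sum_congr rfl fun i _ => by ring
    rw [e1, map_add, map_sum, he.1]
    refine add_mem (J_mem _ _) (sum_mem fun i _ => ?_)
    rw [tr_mul, he.1]
    exact mul_mem (mul_mem (natCast_mem _ _) (cj_mem (h1 _ _))) (J_mem _ _)
  refine of_tr he' fun i k => ⟨∑ j, -δ j k * sg c.K i *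
    Algebra.trace c.K D.L (D.lam * e j * D.bar (e' (Equiv.swap 0 1 i))), sum_mem fun j _ =>
      mul_mem (mul_mem (neg_mem (h1 _ _)) (intCast_mem _ _)) (h0 _ _), ?_⟩
  have e2 : (e k - e' k) * D.du e' i = ∑ j, algebraMap c.K D.L (l * (-δ j k * sg c.K i)) *
      (D.lam * e j * D.bar (e' (Equiv.swap 0 1 i))) := by
    rw [h2 k, sub_add_cancel_left, Finset.mul_sum, ← Finset.sum_neg_distrib, Finset.sum_mul]
    refine Finset.sum_congr rfl fun j _ => ?_
    rw [map_mul, map_mul, map_neg, map_natCast, map_sg, Dat.du]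
    ring
  rw [e2, map_sum, Finset.mul_sum]
  exact Finset.sum_congr rfl fun j _ => by rw [tr_mul]; ring

theorem cong_iff {a : D.FI} {e e' : Fin (n + 3) → D.L} (he : D.Fr a e) :
    Cong n l a e e' ↔ Cg l D e e' := by
  constructor
  · rintro ⟨t, h1, h2⟩
    by_cases h0 : t = 0
    · subst h0
      obtain rfl : l = 1 := by simpa using h1
      exact of_tr he fun i k => ⟨_, ⟨0, h1, by simpa using isIntegral_zero⟩, by
        rw [Nat.cast_one, one_mul]⟩
    choose y h3 h4 using h2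
    choose z hz using fun k => (he.2 (y k)).1 (h3 k)
    have t0 : (t : c.K) ≠ 0 := Nat.cast_ne_zero.2 h0
    have t1 : (t : D.L) ≠ 0 := Nat.cast_ne_zero.2 h0
    refine ⟨of fun i k => (z k i : c.K) / t, fun i k => ⟨t, h1, ?_⟩, fun k => ?_⟩
    · rw [of_apply, mul_div_cancel₀ _ t0]
      exact (z k i).isIntegral_coe
    · rw [← sub_eq_iff_eq_add']
      refine mul_left_cancel₀ t1 ?_
      rw [h4, hz, mul_left_comm, Finset.mul_sum (a := (t : D.L))]
      refine congrArg _ (Finset.sum_congr rfl fun i _ => ?_)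
      rw [of_apply, map_div₀, map_natCast]
      field_simp
  · rintro ⟨δ, h1, h2⟩
    choose t h3 h4 using h1
    have h5 : ∀ i k, IsIntegral ℤ (((∏ q : Fin (n + 3) × Fin (n + 3), t q.1 q.2 : ℕ) : c.K) *
        δ i k) := fun i k => by
      obtain ⟨s, hs⟩ := Finset.dvd_prod_of_mem (fun q : Fin (n + 3) × Fin (n + 3) => t q.1 q.2)
        (Finset.mem_univ (i, k))
      rw [hs, Nat.cast_mul, mul_right_comm]
      exact (h4 i k).mul (by simpa using isIntegral_algebraMap (R := ℤ) (A := c.K) (x := (s : ℤ)))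
    refine ⟨∏ q : Fin (n + 3) × Fin (n + 3), t q.1 q.2,
      Nat.Coprime.prod_left fun q _ => h3 _ _, fun k => ⟨_, (he.2 _).2
        ⟨fun i => ⟨_, h5 i k⟩, rfl⟩, ?_⟩⟩
    rw [h2 k, add_sub_cancel_left, mul_left_comm, Finset.mul_sum (a := ((_ : ℕ) : D.L))]
    refine congrArg _ (Finset.sum_congr rfl fun i _ => ?_)
    change _ = algebraMap c.K D.L (((_ : ℕ) : c.K) * δ i k) * e i
    rw [map_mul, map_natCast, mul_assoc]

theorem quo {a : D.FI} {e : Fin (n + 3) → D.L} {x y : 𝓞 D.L} (he : D.Fr a e) (hx : One l x)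
    (hy : One l y) (h0 : y ≠ 0) : Cg l D e fun k => (x : D.L) / y * e k := by
  obtain ⟨t, h1, z, hz⟩ := den hy h0
  obtain ⟨x₀, h2⟩ := hx
  obtain ⟨y₀, h3⟩ := hy
  refine (cong_iff he).1 ⟨t, h1, fun k => ⟨(z * (x₀ - y₀)) • e k, Submodule.smul_mem a.1 _
    (((frame n p c D).2.2.2.2.2.2.2.2.2.2.2.2.2.2.2.2.2.2 a e he).2.1 k), ?_⟩⟩
  have e1 : (t : D.L) = y * z := by simpa using congrArg (algebraMap (𝓞 D.L) D.L) hz
  have e2 : (x : D.L) - y = l * (x₀ - y₀) := by
    have : x - y = l * (x₀ - y₀) := by rw [h2, h3]; ring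
    simpa using congrArg (algebraMap (𝓞 D.L) D.L) this
  have y0 : (y : D.L) ≠ 0 := RingOfIntegers.coe_ne_zero_iff.2 h0
  rw [Algebra.smul_def, map_mul, map_sub, e1]
  calc _ = (z : D.L) * ((x : D.L) - y) * e k := by field_simp
    _ = _ := by rw [e2]; ring

omit [Sg] in
theorem tl_iff (ζ : Units.torsion c.K) : ζ ∈ Tl c l ↔ One l (ζ.1 : 𝓞 c.K) := by
  rw [Tl, MonoidHom.mem_ker, Units.ext_iff]
  change Ideal.Quotient.mk _ (ζ.1 : 𝓞 c.K) = Ideal.Quotient.mk _ 1 ↔ _
  rw [Ideal.Quotient.eq, Ideal.mem_span_singleton]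
  exact exists_congr fun y => sub_eq_iff_eq_add'

theorem rot (e : Fin (n + 3) → D.L) {ζ : Units.torsion c.K} (h : One l (ζ.1 : 𝓞 c.K)) :
    Cg l D e (D.rot e ζ) := by
  obtain ⟨y, hy⟩ := h
  refine ⟨single 2 2 (y : c.K), fun i k => ?_, fun k => ?_⟩
  · rw [single_apply]
    split_ifs
    exacts [int_mem y.isIntegral_coe, zero_mem _]
  · rw [Dat.rot]
    by_cases e2 : k = 2
    · subst e2
      rw [Function.update_self, Finset.sum_eq_single 2 (fun i _ hi => by simp [hi.symm]) (by simp),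
        single_apply_same, hy]
      simp only [map_add, map_mul, map_one, map_natCast]
      ring
    · rw [Function.update_of_ne e2, Finset.sum_eq_zero fun i _ => by simp [Ne.symm e2], mul_zero,
        add_zero]

end CgA

variable [Sg]

theorem cg : CgStmt := fun _ _ _ _ _ _ _ =>
  ⟨fun _ => ⟨0, fun _ _ => zero_mem _, fun _ => by simp⟩, fun _ _ _ => CgA.trans,
    fun _ _ _ _ => CgA.symm, fun u _ _ ⟨δ, h1, h2⟩ => ⟨δ, h1, fun k => by
      simp only [h2 k, mul_add, Finset.mul_sum]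
      congr 1
      exact Finset.sum_congr rfl fun i _ => by ring⟩,
    fun _ _ _ => CgA.cong_iff, fun _ _ _ _ => CgA.quo, CgA.tl_iff,
    fun e ζ h => CgA.rot e ((CgA.tl_iff ζ).1 h)⟩

end Pool.Agent.Lib.MP_9177b7_ag.B.U.V
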