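import Pool.Agent.Lib.MP_9177b7_ag.V.St
import Pool.Agent.Lib.MP_9177b7_ag.U.DensP
import Pool.Agent.Lib.MP_9177b7_ag.U.DensR
import Pool.Agent.Lib.MP_9177b7_ag.U.Eich
import Pool.Agent.Lib.MP_9177b7_ag.U.GenU
import Pool.Agent.Lib.MP_9177b7_ag.U.Disc
import Pool.Agent.Lib.MP_9177b7_ag.B.Gen
import Pool.Agent.Lib.MP_9177b7_ag.B.Pad

/-!
Density of the congruence subgroup at `p` and at the real place.
-/

open NumberField Matrix Filter Topology
open scoped ComplexConjugate

noncomputable section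

namespace Pool.Agent.Lib.MP_9177b7_ag.B.U.V

open B.DensP

variable [Sg]

namespace DensL

variable {n p l : ℕ} [Fact p.Prime] (c : Ctx p) {a b k : Fin (n + 3)}

theorem mem (hL : DiscLStmt) (hl : l.Coprime p) (h : Pos a b k) {x y t : c.K} (hx : x ∈ c.RK)
    (hy : y ∈ c.RK) (ht : t ∈ c.RK) (cx : c.cj x = x) (cy : c.cj y = y) (ct : c.cj t = t) :
    ∃ g ∈ GpL c n l, ∃ γ : Matrix (Fin (n + 3)) (Fin (n + 3)) c.K,
      γ = Ei a b k (2 * (l * x + l * y * c.δ)) (sg c.K k * (2 * (l * x - l * y * c.δ)))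
        (sg c.K k * (-2 * (l * x + l * y * c.δ) * (l * x - l * y * c.δ)) + l * t * c.δ) ∧
      g.1.1 = γ.map c.j ∧ g.2.1.1 = γ.map (algebraMap c.K ℂ) := by
  obtain ⟨-, -, -, d2, -⟩ := U.disc pad n p c
  obtain ⟨-, -, d3, -⟩ := hL n p c l hl
  have hδ : (c.δ : c.K) ∈ c.RK := ⟨0, by simpa using c.δ.isIntegral_coe⟩
  have two : (2 : c.K) ∈ c.RK := ofNat_mem _ 2
  have l1 : (l : c.K) ∈ c.RK := natCast_mem _ l
  have s1 : sg c.K k ∈ c.RK := intCast_mem _ _
  have m1 := add_mem hx (mul_mem hy hδ)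
  have m2 := sub_mem hx (mul_mem hy hδ)
  have m3 := Ei_mem c.RK a b k (mul_mem two m1) (mul_mem s1 (mul_mem two m2))
    (add_mem (mul_mem s1 (mul_mem l1 (mul_mem (mul_mem (neg_mem two) m1) m2))) (mul_mem ht hδ))
  have m4 : ∀ i j : Fin (n + 3), (1 : Matrix _ _ c.K) i j ∈ c.RK := fun i j => by
    rw [one_apply]
    split_ifs
    exacts [one_mem _, zero_mem _]
  set δ := Ei a b k (2 * (x + y * c.δ)) (sg c.K k * (2 * (x - y * c.δ)))
    (sg c.K k * (l * (-2 * (x + y * c.δ) * (x - y * c.δ))) + t * c.δ) - 1 with hd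
  have m5 : ∀ i j, δ i j ∈ c.RK := fun i j => sub_mem (m3 i j) (m4 i j)
  have e0 : Ei a b k (2 * (l * x + l * y * c.δ)) (sg c.K k * (2 * (l * x - l * y * c.δ)))
      (sg c.K k * (-2 * (l * x + l * y * c.δ) * (l * x - l * y * c.δ)) + l * t * c.δ) =
      1 + (l : c.K) • δ := by
    ext i j
    simp only [hd, Ei, Matrix.add_apply, Matrix.sub_apply, Matrix.smul_apply, single_apply,
      smul_eq_mul]
    congr 1
    split_ifs <;> ring
  have e1 : c.cj.toRingHom (2 * (l * x + l * y * c.δ)) = 2 * (l * x - l * y * c.δ) := by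
    change c.cj _ = _
    simp only [map_mul, map_add, cx, cy, c.δ_cj, map_ofNat, map_natCast]
    ring
  obtain ⟨e2, e3, -⟩ := U.eich n c.K c.cj.toRingHom a b k (2 * (l * x + l * y * c.δ))
    (sg c.K k * (-2 * (l * x + l * y * c.δ) * (l * x - l * y * c.δ)) + l * t * c.δ) h
  have e4 := e3 (U.DensP.cj_cj c _) (by
    rw [e1]
    change _ + c.cj _ + _ = 0
    simp only [map_mul, map_add, map_sub, map_neg, cx, cy, ct, c.δ_cj, map_ofNat, map_natCast,
      map_intCast]
    ring)
  rw [e1] at e4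
  obtain ⟨g, -, g1, g2⟩ := d2 _ (fun i j => by
    rw [e0]
    exact add_mem (m4 i j) (mul_mem l1 (m5 i j))) e4 (e2 _)
  exact ⟨g, (d3 g).2 ⟨δ, m5, e0 ▸ g1, e0 ▸ g2⟩, _, rfl, g1, g2⟩

omit [Sg] in
theorem ne (hl : l.Coprime p) : l ≠ 0 := by
  rintro rfl
  exact (Fact.out : p.Prime).ne_one (by simpa using hl)

end DensL

theorem densPL : DiscLStmt → DensPLStmt := by
  intro hL n p _ c l hl h
  set A : Subgroup (HP n p) := (GpL c n l).map (MonoidHom.fst (HP n p) (SU n)) with hA
  set S : Submonoid (Matrix (Fin (n + 3)) (Fin (n + 3)) ℚ_[p]) :=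
    (A.toSubmonoid.map (SpecialLinearGroup.coeMonoidHom)).topologicalClosure with hS
  have hd : c.j c.δ ≠ 0 := (map_ne_zero c.j).2 (by exact_mod_cast c.δ_ne)
  have l0 : (l : ℚ_[p]) ≠ 0 := Nat.cast_ne_zero.2 (DensL.ne hl)
  have key : ∀ a b k : Fin (n + 3), Pos a b k → ∀ u : ℚ_[p] × ℚ_[p],
      Ei a b k (2 * (l * u.1 + l * u.2 * c.j c.δ))
        (sg ℚ_[p] k * (2 * (l * u.1 - l * u.2 * c.j c.δ)))
        (sg ℚ_[p] k * (-2 * (l * u.1 + l * u.2 * c.j c.δ) * (l * u.1 - l * u.2 * c.j c.δ))) ∈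
          S := by
    intro a b k hk u
    refine (dense_zp.prodMap dense_zp).induction_on u ?_ ?_
    · exact (Submonoid.isClosed_topologicalClosure _).preimage
        (Ei_cont a b k (by fun_prop) (by fun_prop) (by fun_prop))
    · rintro ⟨q, q'⟩
      obtain ⟨g, hg, _, rfl, g1, -⟩ := DensL.mem c hL hl hk (U.DensP.mem_RK c q)
        (U.DensP.mem_RK c q') (zero_mem _) (by simp) (by simp) (map_zero _)
      refine Submonoid.le_topologicalClosure _ ⟨g.1, ⟨g, hg, rfl⟩, ?_⟩
      change g.1.1 = _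
      rw [g1, Ei_map]
      simp [map_ofNat]
  have hT := (U.eich n ℚ_[p] (RingHom.id _) 0 1 ⟨2, by omega⟩ 0 0 ⟨Or.inl ⟨rfl, rfl⟩, by
    intro e; exact absurd (congrArg Fin.val e) (by simp), by
    intro e; exact absurd (congrArg Fin.val e) (by simp)⟩).2.2 S fun a b k s hk => by
      have e : ∀ s, l * (s / 4 / c.j c.δ / l) * c.j c.δ = s / 4 := fun s => by field_simp
      have e' : ∀ s : ℚ_[p], l * (s / 4 / l) = s / 4 := fun s => by field_simp
      have sk : sg ℚ_[p] k * sg ℚ_[p] k = 1 := sg_sq k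
      constructor
      · have := key a b k hk (s / 4 / l, s / 4 / c.j c.δ / l)
        dsimp only at this
        rwa [e, e', sub_self, mul_zero, mul_zero, mul_zero, mul_zero,
          show 2 * (s / 4 + s / 4) = s by ring] at this
      · have := key a b k hk (sg ℚ_[p] k * s / 4 / l, -(sg ℚ_[p] k * s / 4 / c.j c.δ / l))
        dsimp only at this
        rwa [mul_neg, neg_mul, e, e', add_neg_cancel, mul_zero, mul_zero, zero_mul, mul_zero,
          show sg ℚ_[p] k * (2 * (sg ℚ_[p] k * s / 4 - -(sg ℚ_[p] k * s / 4))) = s by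
            linear_combination s * sk] at this
  have hTop : A.topologicalClosure = ⊤ := gen _ _ _ fun a b hab s => by
    have := hT a b s hab
    change _ ∈ closure (A : Set (HP n p))
    have hi : IsInducing fun g : HP n p => g.1 := IsInducing.subtypeVal
    rw [hi.closure_eq_preimage_closure_image]
    exact this
  have hO : IsOpen {g : HP n p | Intg (h * g)} :=
    U.Disc.isOpen_intg.preimage (continuous_const_mul h)
  have hmem : h⁻¹ ∈ closure (A : Set (HP n p)) := by
    have : h⁻¹ ∈ A.topologicalClosure := hTop ▸ Subgroup.mem_top _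
    exact this
  obtain ⟨g, hg1, γ, hγ, rfl⟩ := mem_closure_iff.1 hmem _ hO (by
    change Intg (h * h⁻¹)
    rw [mul_inv_cancel]
    exact U.Disc.Intg.one)
  exact ⟨γ, hγ, hg1⟩

theorem densRL : DiscLStmt → DensRLStmt := by
  intro hL n p _ c l hl
  obtain ⟨d, hd⟩ : ∃ d : ℂ, ((c.δ : c.K) : ℂ) = d := ⟨_, rfl⟩
  have l0 : (l : ℝ) ≠ 0 := Nat.cast_ne_zero.2 (DensL.ne hl)
  have d1 : conj d = -d := by rw [← hd, ← c.cj_coe, c.δ_cj]; simp
  have d2 : d.re = 0 := by
    have := congrArg Complex.re d1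
    simp at this
    linarith
  have d3 : d.im ≠ 0 := fun e => c.δ_ne (Subtype.ext (Subtype.ext
    (hd.trans (Complex.ext d2 e))))
  have top := U.genU U.eich n ((GpL c n l).map (MonoidHom.snd _ _)).topologicalClosure
    fun a b k w z g h e hg => by
      let W : ℝ × ℝ × ℝ → ℂ := fun u => 2 * (l * u.1 + l * u.2.1 * d)
      let Z : ℝ × ℝ × ℝ → ℂ := fun u =>
        sg ℂ k * (-2 * (l * u.1 + l * u.2.1 * d) * (l * u.1 - l * u.2.1 * d)) + l * u.2.2 * d
      have e0 : ∀ u, conj (W u) = 2 * (l * u.1 - l * u.2.1 * d) := fun u => by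
        simp only [W, map_add, map_mul, map_ofNat, Complex.conj_ofReal, d1, map_natCast]
        ring
      have e1 : ∀ u, Z u + conj (Z u) + sg ℂ k * (W u * conj (W u)) = 0 := fun u => by
        simp only [W, Z, map_add, map_mul, map_sub, map_neg, map_ofNat, Complex.conj_ofReal, d1,
          map_intCast, map_natCast]
        ring
      choose F hF using fun u => show ∃ g : SU n,
          g.1.1 = Ei a b k (W u) (sg ℂ k * conj (W u)) (Z u) from
        have := U.eich n ℂ (starRingEnd ℂ) a b k (W u) (Z u) h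
        ⟨⟨⟨_, this.1 _⟩, this.2.1 (Complex.conj_conj _) (e1 u)⟩, rfl⟩
      have cF : Continuous F := continuous_induced_rng.2 (continuous_induced_rng.2 (by
        refine (continuous_matrix fun i j => ?_).congr fun u => (hF u).symm
        simp only [Ei, Matrix.add_apply, Matrix.sub_apply, single_apply, W, Z]
        split_ifs <;> fun_prop))
      have eW : W (w.re / 2 / l, w.im / 2 / d.im / l, z.im / d.im / l) = w :=
        Complex.ext (by simp only [W]; simp [d2, -Complex.ofReal_div]; field_simp)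
          (by simp only [W]; simp [-Complex.ofReal_div]; field_simp)
      have eZ : Z (w.re / 2 / l, w.im / 2 / d.im / l, z.im / d.im / l) = z := Complex.ext (by
        have := e1 (w.re / 2 / l, w.im / 2 / d.im / l, z.im / d.im / l)
        rw [eW, ← e, add_left_inj, Complex.add_conj, Complex.add_conj] at this
        simpa using this) (by simp only [Z]; simp [d2, -Complex.ofReal_div]; field_simp; ring)
      rw [show g = F (w.re / 2 / l, w.im / 2 / d.im / l, z.im / d.im / l) from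
        Subtype.ext (Subtype.ext (by rw [hF, eW, eZ, hg]))]
      refine ((U.DensR.dense c).prod ((U.DensR.dense c).prod (U.DensR.dense c))).induction
        (P := fun u => F u ∈ _) ?_ (isClosed_closure.preimage cF) _
      rintro u ⟨⟨x, x1, x2⟩, ⟨y, y1, y2⟩, t, t1, t2⟩
      have cc : ∀ (x : c.K) (r : ℝ), (x : ℂ) = r → c.cj x = x := fun x r e =>
        Subtype.ext (by rw [c.cj_coe, e, Complex.conj_ofReal])
      obtain ⟨γ, h1, _, rfl, -, h2⟩ := DensL.mem c hL hl h x1 y1 t1 (cc _ _ x2) (cc _ _ y2)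
        (cc _ _ t2)
      refine subset_closure ⟨γ, h1, Subtype.ext (Subtype.ext (h2.trans ?_))⟩
      have q0 : ((2 : c.K) : ℂ) = 2 := rfl
      rw [hF, Ei_map, e0]
      simp [W, Z, x2, y2, t2, hd, q0]
  have hd : Dense (((GpL c n l).map (MonoidHom.snd _ _) : Subgroup (SU n)) : Set (SU n)) :=
    fun x => top.ge (Subgroup.mem_top x)
  refine (dense_univ.prod hd).mono ?_
  rintro ⟨h, _⟩ ⟨-, γ, hγ, rfl⟩
  exact ⟨h * γ.1⁻¹, γ, hγ, Prod.ext (by simp) (by simp)⟩

end Pool.Agent.Lib.MP_9177b7_ag.B.U.V
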