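import Pool.Agent.Lib.MP_9177b7_ag.V.St
import Pool.Agent.Lib.MP_9177b7_ag.U.Disc
import Pool.Agent.Lib.MP_9177b7_ag.B.Pad

/-! Level `l`: discreteness, finite index and the integral points. -/

open NumberField Matrix Topology

noncomputable section

namespace Pool.Agent.Lib.MP_9177b7_ag.B.U.V

namespace DiscL

theorem mem_ker {N R : Type} [Fintype N] [DecidableEq N] [CommRing R] (a : R)
    (s : SpecialLinearGroup N R) :
    s ∈ (SpecialLinearGroup.map (Ideal.Quotient.mk (Ideal.span {a}))).ker ↔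
      ∃ d : Matrix N N R, s.1 = 1 + a • d := by
  have e : s ∈ (SpecialLinearGroup.map (Ideal.Quotient.mk (Ideal.span {a}))).ker ↔
      ∀ i j, a ∣ s.1 i j - (1 : Matrix N N R) i j := by
    refine (MonoidHom.mem_ker.trans (Matrix.SpecialLinearGroup.ext_iff _ _)).trans
      (forall_congr' fun i => forall_congr' fun j => ?_)
    rw [← Ideal.mem_span_singleton, ← Ideal.Quotient.eq]
    change Ideal.Quotient.mk _ (s.1 i j) = (1 : Matrix N N _) i j ↔ _
    rw [one_apply, one_apply, apply_ite (Ideal.Quotient.mk _), map_one, map_zero]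
  rw [e]
  constructor
  · intro h
    choose d hd using h
    exact ⟨Matrix.of d, Matrix.ext fun i j => eq_add_of_sub_eq' (hd i j)⟩
  · rintro ⟨d, hd⟩ i j
    exact ⟨d i j, by rw [hd]; exact add_sub_cancel_left _ _⟩

theorem map_one_add {N R S : Type} [DecidableEq N] [CommRing R] [CommRing S] (f : R →+* S)
    (l : ℕ) (d : Matrix N N R) : (1 + (l : R) • d).map f = 1 + (l : S) • d.map f := by
  ext i j
  simp [one_apply, apply_ite f]

theorem int_int {M : Type} [CommRing M] (m : ℤ) : IsIntegral ℤ (m : M) := by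
  simpa using isIntegral_algebraMap (R := ℤ) (A := M) (x := m)

theorem bez {M : Type} [CommRing M] {t l : ℕ} (h : t.Coprime l) {x : M}
    (h1 : IsIntegral ℤ ((t : M) * x)) (h2 : IsIntegral ℤ ((l : M) * x)) : IsIntegral ℤ x := by
  obtain ⟨a, b, e⟩ := Nat.isCoprime_iff_coprime.2 h
  have e' : (a : M) * t + b * l = 1 := by exact_mod_cast congrArg (Int.cast : ℤ → M) e
  rw [show x = a * (t * x) + b * (l * x) by linear_combination (-x) * e']
  exact ((int_int a).mul h1).add ((int_int b).mul h2)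

variable {p : ℕ} [Fact p.Prime] (c : Ctx p) {l : ℕ}

theorem finite (hl : l.Coprime p) : Finite (c.RK ⧸ Ideal.span {(l : c.RK)}) := by
  have h0 : l ≠ 0 := by
    rintro rfl
    exact (Fact.out : p.Prime).ne_one (Nat.coprime_zero_left p |>.1 hl)
  have : Finite (𝓞 c.K ⧸ Ideal.span {(l : 𝓞 c.K)}) :=
    Ideal.finiteQuotientOfFreeOfNeBot _ (by simpa using h0)
  let φ : 𝓞 c.K →+* c.RK :=
    (algebraMap (𝓞 c.K) c.K).codRestrict _ fun x => ⟨0, by
      rw [pow_zero, one_mul]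
      exact x.isIntegral_coe⟩
  refine Finite.of_surjective (Ideal.quotientMap (Ideal.span {(l : c.RK)}) φ
    (I := Ideal.span {(l : 𝓞 c.K)}) (by
      rw [Ideal.span_singleton_le_iff_mem, Ideal.mem_comap, map_natCast]
      exact Ideal.mem_span_singleton_self _)) fun y => ?_
  obtain ⟨x, rfl⟩ := Ideal.Quotient.mk_surjective y
  obtain ⟨k, hk⟩ := x.2
  obtain ⟨a, b, e⟩ := Nat.isCoprime_iff_coprime.2 (Nat.Coprime.pow_right k hl)
  have e' : (a : c.RK) * l + b * p ^ k = 1 := by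
    exact_mod_cast congrArg (Int.cast : ℤ → c.RK) e
  have e2 : φ ⟨_, hk⟩ = p ^ k * x := Subtype.ext (by simp [φ])
  refine ⟨Ideal.Quotient.mk _ (b * ⟨_, hk⟩), ?_⟩
  rw [Ideal.quotientMap_mk, Ideal.Quotient.eq, Ideal.mem_span_singleton, map_mul, e2, map_intCast]
  exact ⟨-(a * x), by linear_combination x * e'⟩

variable [Sg] {n : ℕ}

theorem mem_GpL (g : GG n p) : g ∈ GpL c n l ↔
    ∃ δ : Matrix (Fin (n + 3)) (Fin (n + 3)) c.K, (∀ i j, δ i j ∈ c.RK) ∧
      g.1.1 = (1 + (l : c.K) • δ).map c.j ∧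
        g.2.1.1 = (1 + (l : c.K) • δ).map (algebraMap c.K ℂ) := by
  constructor
  · rintro ⟨s, hs, e⟩
    obtain ⟨d, hd⟩ := (mem_ker _ s).1 hs
    refine ⟨d.map c.RK.subtype, fun i j => (d i j).2, ?_, ?_⟩
    · rw [← map_one_add, ← hd]
      exact (congrArg (fun x => x.1.1) e).symm
    · rw [← map_one_add, ← hd]
      exact (congrArg (fun x => x.2.1) e).symm
  · rintro ⟨δ, h, e1, e2⟩
    let d : Matrix (Fin (n + 3)) (Fin (n + 3)) c.RK := Matrix.of fun i j => ⟨δ i j, h i j⟩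
    have e0 : (1 + (l : c.RK) • d).map c.RK.subtype = 1 + (l : c.K) • δ := map_one_add _ l d
    rw [← e0] at e1 e2
    obtain ⟨s, e, e3⟩ := Disc.mem_range (c.j.comp c.RK.subtype)
      (c.j.injective.comp Subtype.val_injective) g.1 (1 + (l : c.RK) • d) e1
    refine ⟨s, (mem_ker _ s).2 ⟨d, e⟩, Prod.ext e3 (Subtype.ext ?_)⟩
    show s.1.map _ = g.2.1.1
    rw [e, e2]
    rfl

theorem mem_G1l (K : IntermediateField ℚ ℂ) (g : SU n) : g ∈ G1l n K l ↔ Gam n K l g.1.1 := by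
  constructor
  · rintro ⟨s, hs, e⟩
    obtain ⟨d, hd⟩ := (mem_ker _ s).1 hs
    refine ⟨g.2, d.map (OK K).subtype, fun i j => (d i j).2, ?_⟩
    rw [← map_one_add, ← hd]
    exact (congrArg (fun x => x.1) e).symm
  · rintro ⟨-, z, h, e1⟩
    let d : Matrix (Fin (n + 3)) (Fin (n + 3)) (OK K) := Matrix.of fun i j => ⟨z i j, h i j⟩
    have e0 : (1 + (l : OK K) • d).map (OK K).subtype = 1 + (l : ℂ) • z := map_one_add _ l d
    rw [← e0] at e1
    obtain ⟨s, e, e3⟩ := Disc.mem_range (OK K).subtype Subtype.val_injective g.1 _ e1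
    exact ⟨s, (mem_ker _ s).2 ⟨d, e⟩, e3⟩

theorem index (hl : l.Coprime p) :
    ∃ s : Finset (GG n p), ∀ g ∈ c.Gp n, ∃ r ∈ s, r⁻¹ * g ∈ GpL c n l := by
  classical
  have := finite c hl
  have hσ : ∀ g : c.Gp n, ∃ s, _ := fun g => g.2
  choose σ hσ using hσ
  let F : c.Gp n → SpecialLinearGroup (Fin (n + 3)) (c.RK ⧸ Ideal.span {(l : c.RK)}) :=
    fun g => SpecialLinearGroup.map (Ideal.Quotient.mk _) (σ g)
  have hF : (Set.range fun g => (Function.invFun F (F g)).1).Finite :=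
    (Set.finite_range fun y => (Function.invFun F y).1).subset
      (Set.range_comp_subset_range F fun y => (Function.invFun F y).1)
  refine ⟨hF.toFinset, fun g hg => ⟨_, hF.mem_toFinset.2 ⟨⟨g, hg⟩, rfl⟩,
    (σ (Function.invFun F (F ⟨g, hg⟩)))⁻¹ * σ ⟨g, hg⟩, ?_, ?_⟩⟩
  · have e : F (Function.invFun F (F ⟨g, hg⟩)) = F ⟨g, hg⟩ := Function.invFun_eq ⟨_, rfl⟩
    rw [SetLike.mem_coe, MonoidHom.mem_ker, map_mul, map_inv, inv_mul_eq_one]
    exact e
  · rw [map_mul, map_inv, hσ, hσ, map_mul, map_inv]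

end DiscL

variable [Sg]

open DiscL in
theorem discL : DiscLStmt := by
  intro n p _ c l hl
  obtain ⟨-, -, -, -, h5, h6, -, h8, h9⟩ := disc pad n p c
  have h4 : GpL c n l ≤ c.Gp n := Subgroup.comap_mono (Subgroup.map_le_range _ _)
  have h7 : G1l n c.K l ≤ G1 n c.K := Subgroup.comap_mono (Subgroup.map_le_range _ _)
  refine ⟨?_, ?_, mem_GpL c, h4, index c hl, mem_G1l _, fun g hg hi => ?_,
    DiscreteTopology.of_subset h8 h4, DiscreteTopology.of_subset h9 h7⟩
  · rintro x ⟨t, ht, h⟩ ⟨k, hk⟩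
    refine ⟨k, bez ht ?_ (by rwa [mul_left_comm])⟩
    rw [mul_left_comm]
    exact (((by simpa using int_int (M := c.K) p) : IsIntegral ℤ (p : c.K)).pow k).mul h
  · rintro x ⟨t, ht, h⟩ h'
    exact bez ht h h'
  · obtain ⟨δ, h, -, e⟩ := (mem_GpL c g).1 hg
    have h1 := (h5 _).1 (h6 g (h4 hg) hi)
    rw [map_one_add] at e
    refine (mem_G1l _ _).2 ⟨g.2.2, _, fun i j => ⟨(δ i j).2,
      (isIntegral_algebraMap_iff (algebraMap c.K ℂ).injective).2 ?_⟩, e⟩
    obtain ⟨k, hk⟩ := h i j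
    refine bez (Nat.Coprime.pow_left k hl.symm) (by rwa [Nat.cast_pow]) ?_
    have h2 := sub_mem (h1 i j) ((h5 _).1 (one_mem _) i j)
    have e2 : g.2.1 i j - (1 : SU n).1 i j = algebraMap c.K ℂ (l * δ i j) := by
      rw [show g.2.1 i j = _ from congrFun (congrFun e i) j, map_mul, map_natCast]
      exact add_sub_cancel_left _ _
    rw [e2] at h2
    exact (isIntegral_algebraMap_iff (algebraMap c.K ℂ).injective).1 h2.2

end Pool.Agent.Lib.MP_9177b7_ag.B.U.V
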