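import Pool.Agent.Lib.MP_9177b7_ag.V.St
import Pool.Agent.Lib.MP_9177b7_ag.U.Fin

/-!
From unbundled to bundled data, and from orbits to finite unions of orbits.
-/

open NumberField Filter Topology MeasureTheory
open scoped ComplexConjugate nonZeroDivisors

noncomputable section

namespace Pool.Agent.Lib.MP_9177b7_ag.B.U.V

namespace FinL

theorem mean_sub {X : Type} (t : Finset X) (ht : t.Nonempty) (f : X → ℝ) (a : ℝ) :
    ∑ x ∈ t, (f x - a) = (mean (t : Set X) f - a) * t.card := by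
  have : (t.card : ℝ) ≠ 0 := Nat.cast_ne_zero.2 ht.card_pos.ne'
  rw [mean, finsum_mem_coe_finset, Set.ncard_coe_finset, Finset.sum_sub_distrib, Finset.sum_const,
    nsmul_eq_mul]
  field_simp

theorem mean_union {X ι : Type} [Finite ι] [Nonempty ι] (O : ι → Set X) (hf : ∀ i, (O i).Finite)
    (hn : ∀ i, (O i).Nonempty) (hd : ∀ i k, (O i ∩ O k).Nonempty → O i = O k) (f : X → ℝ)
    (a r : ℝ) (hr : ∀ i, |mean (O i) f - a| ≤ r) : |mean (⋃ i, O i) f - a| ≤ r := by
  classical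
  have := Fintype.ofFinite ι
  lift O to ι → Finset X using hf
  let T := Finset.univ.image O
  have hT : ∀ t ∈ T, ∃ i, O i = t := fun t ht => by simpa [T] using ht
  have e : (⋃ i, (O i : Set X)) = (T.biUnion id : Finset X) := by
    ext x
    simp [T]
  have dj : (T : Set (Finset X)).PairwiseDisjoint id := fun s hs t ht hst => by
    obtain ⟨i, rfl⟩ := hT s hs
    obtain ⟨k, rfl⟩ := hT t ht
    refine Finset.disjoint_left.2 fun x h h' => hst (Finset.coe_injective (hd i k ⟨x, h, h'⟩))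
  have ne : (T.biUnion id).Nonempty := by
    rw [← Finset.coe_nonempty, ← e]
    exact Set.nonempty_iUnion.2 ⟨Classical.arbitrary ι, hn _⟩
  have pos : (0 : ℝ) < (T.biUnion id).card := Nat.cast_pos.2 ne.card_pos
  rw [e]
  refine le_of_mul_le_mul_right ?_ pos
  rw [← abs_of_pos pos, ← abs_mul, ← mean_sub _ ne, abs_of_pos pos, Finset.sum_biUnion dj,
    Finset.card_biUnion dj, Nat.cast_sum, Finset.mul_sum]
  refine (Finset.abs_sum_le_sum_abs _ _).trans (Finset.sum_le_sum fun t ht => ?_)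
  obtain ⟨i, rfl⟩ := hT t ht
  rw [id, mean_sub _ (Finset.coe_nonempty.1 (hn i)), abs_mul, Nat.abs_cast]
  exact mul_le_mul_of_nonneg_right (hr i) (Nat.cast_nonneg _)

theorem lim_union {X : Type} {ι : ℕ → Type} [∀ m, Finite (ι m)] [∀ m, Nonempty (ι m)]
    (O : ∀ m, ι m → Set X) (hf : ∀ m i, (O m i).Finite) (hn : ∀ m i, (O m i).Nonempty)
    (hd : ∀ m i k, (O m i ∩ O m k).Nonempty → O m i = O m k) (f : X → ℝ) (a : ℝ)
    (h : ∀ s : ∀ m, ι m, Tendsto (fun m => mean (O m (s m)) f) atTop (𝓝 a)) :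
    Tendsto (fun m => mean (⋃ i, O m i) f) atTop (𝓝 a) := by
  choose s hs using fun m => Finite.exists_max fun i => |mean (O m i) f - a|
  have := h s
  rw [tendsto_iff_dist_tendsto_zero] at this ⊢
  exact squeeze_zero (fun _ => dist_nonneg)
    (fun m => mean_union _ (hf m) (hn m) (hd m) f a _ (hs m)) this

variable [Sg]

theorem exists_num {n p : ℕ} [Fact p.Prime] (c : Ctx p) (L : Type) [Field L] [NumberField L]
    [IsCMField L] [Algebra c.K L] (lam : L) (a : FractionalIdeal (𝓞 L)⁰ L)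
    (sp : Special n c.K p lam a) :
    ∃ (ψ : Fin (n + 3) → (L →+* ℚ_[p])) (Φ : Fin (n + 3) ≃ (L →ₐ[c.K] ℂ)), Function.Injective ψ ∧
      (∀ i x, ψ i (algebraMap c.K L x) = c.j x) ∧ ∀ i, (Φ i lam).re < 0 ↔ Ng i := by
  classical
  obtain ⟨ψ, hψ, hψ'⟩ := FinA.exists_over (Nat.succ_pos _) c.dim sp.dim sp.split c.j
  obtain ⟨Φ, hΦ⟩ := FinU.exists_equiv (α := Fin (n + 3)) Ng
    (fun φ : L →ₐ[c.K] ℂ => (φ lam).re < 0) (by rw [Fintype.card_fin, AlgHom.card, sp.dim])
    (by rw [sp.sign, nb, Nat.card_eq_fintype_card, Fintype.card_subtype])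
  exact ⟨ψ, Φ, hψ, hψ', hΦ⟩

end FinL

variable [Sg]

theorem finL (hP : PartStmt) (hM : MainLStmt) : FinalLStmt := by
  intro n p l _ K _ hc hl hK hz L _ _ _ _ ι _ _ lam a e sp he hlim
  obtain ⟨cj, δ, h1, h2, h3⟩ := FinA.exists_cj K hK hz
  obtain ⟨ψ₀⟩ : Nonempty (L 0 →+* ℚ_[p]) :=
    (Nat.card_ne_zero.1 (by rw [(sp 0 (Classical.arbitrary _)).split]; omega)).1
  let c : Ctx p := ⟨K, hK, cj, h1, δ, h2, h3, ψ₀.comp (algebraMap K (L 0))⟩
  choose ψ Φ hψ hψ' hΦ using fun m i => FinL.exists_num c (L m) (lam m i) (a m i) (sp m i)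
  let D : ∀ m, ι m → Dat n c := fun m i => ⟨L m, lam m i, a m i, sp m i, ψ m i, hψ m i, hψ' m i,
    Φ m i, hΦ m i, ⊤,
    by
      rw [Subgroup.index_top]
      exact Nat.mul_pos (classNumber_pos _) (Nat.factorial_pos _),
    fun _ _ => Subgroup.mem_top _, fun _ _ _ _ _ _ => Subgroup.mem_top _⟩
  have M := fun s : ∀ m, ι m => hM n p c l (fun m => D m (s m)) (fun m => e m (s m)) hl hc
    (fun _ => rfl) (fun m => he m (s m)) (by
      refine (tendsto_natCast_atTop_atTop.comp hlim).congr fun m => ?_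
      simp [Nat.cast_natAbs, D])
  have P := fun m i => hP n p c l (D m i) (e m i) hl hc (he m i)
  have fin : ∀ m i, (orbitL n K l (lam m i) (a m i) (e m i)).Finite := fun m i => by
    classical
    have := (M (Function.update (fun _ => Classical.arbitrary _) m i)).1 m
    rwa [Function.update_self] at this
  obtain ⟨-, μ, hμ, -⟩ := M fun _ => Classical.arbitrary _
  refine ⟨fun m => Set.finite_iUnion (fin m), μ, hμ, fun f => FinL.lim_union _ fin
    (fun m i => (P m i).1) (fun m i k => (P m i).2 _ _ _ (sp m k) (he m k)) f _ fun s => ?_⟩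
  obtain ⟨-, μ', hμ', h⟩ := M s
  obtain rfl : μ' = μ := (hμ μ').1 ((hμ' μ').2 rfl)
  exact h f

end Pool.Agent.Lib.MP_9177b7_ag.B.U.V
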