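import Pool.Agent.Lib.MP_9177b7_ag.V.St
import Pool.Agent.Lib.MP_9177b7_ag.U.Frame
import Pool.Agent.Lib.MP_9177b7_ag.B.Iso
import Pool.Agent.Lib.MP_9177b7_ag.B.Pad

/-! Admissible classes at level `l`. -/

open NumberField
open scoped nonZeroDivisors

namespace Pool.Agent.Lib.MP_9177b7_ag.B.U.V

namespace IsoL

section ring

variable {R S : Type} [CommRing R] [CommRing S] {l : ℕ}

theorem one_mul' {x y : R} (hx : One l x) (hy : One l y) : One l (x * y) := by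
  obtain ⟨s, rfl⟩ := hx
  obtain ⟨t, rfl⟩ := hy
  exact ⟨s + t + l * s * t, by ring⟩

theorem one_map {F : Type} [FunLike F R S] [RingHomClass F R S] (f : F) {x : R} (hx : One l x) :
    One l (f x) := by
  obtain ⟨s, rfl⟩ := hx
  exact ⟨f s, by rw [map_add, map_one, map_mul, map_natCast]⟩

theorem cop_mul {b b' : Ideal R} (h : Cop l b) (h' : Cop l b') : Cop l (b * b') := by
  obtain ⟨x, hx, h⟩ := h
  obtain ⟨y, hy, h'⟩ := h'
  exact ⟨x * y, Ideal.mul_mem_mul hx hy, one_mul' h h'⟩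

theorem cop_pow {b : Ideal R} (h : Cop l b) (k : ℕ) : Cop l (b ^ k) := by
  induction k with
  | zero => exact ⟨1, by simp, 0, by simp⟩
  | succ k ih => rw [pow_succ]; exact cop_mul ih h

end ring

theorem ray (hN : NrmStmt) {K L : Type} [Field K] [NumberField K] [Field L] [NumberField L]
    [Algebra K L] {l h : ℕ} {b b' : Ideal (𝓞 L)} {z : 𝓞 L} (h0 : b' ≠ ⊥) (hz : One l z)
    (e : b' ^ (h + 1) = Ideal.span {z})
    (hr : RayEq l (Ideal.relNorm (𝓞 K) b) (Ideal.relNorm (𝓞 K) b')) :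
    RayEq l (Ideal.relNorm (𝓞 K) (b * b' ^ h)) ⊤ := by
  obtain ⟨x, y, hx, hy, x0, y0, hr⟩ := hr
  have e' := congrArg (Ideal.relNorm (𝓞 K)) e
  rw [Ideal.relNorm_singleton] at e'
  refine ⟨x, y * Algebra.intNorm (𝓞 K) (𝓞 L) z, hx, one_mul' hy (hN K L l z hz), x0,
    mul_ne_zero y0 fun z0 => ?_, ?_⟩
  · rw [z0, Ideal.span_singleton_zero, Ideal.relNorm_eq_bot_iff] at e'
    exact pow_ne_zero _ h0 e'
  · rw [map_mul, ← mul_assoc, hr, mul_assoc, ← map_mul, ← pow_succ', e', Ideal.mul_top,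
      Ideal.span_singleton_mul_span_singleton]

variable [Sg] {n p : ℕ} [Fact p.Prime] {c : Ctx p} (l : ℕ) (D : Dat n c)

/-- Type norms of ideals prime to `l`. -/
def TN (b : Ideal (𝓞 D.L)) : Prop :=
  ∃ B : Ideal (𝓞 (MM c.K D.L)), B ≠ ⊥ ∧ Cop l B ∧ TypeNorm c.K D.lam B b

theorem tw_mul (b b' : Ideal (𝓞 D.L)) :
    D.tw (b * b') = b * ((D.cI b : Ideal (𝓞 D.L)) : D.FI)⁻¹ * D.tw b' := by
  simp only [Dat.tw, Dat.cI, Ideal.map_mul, FractionalIdeal.coeIdeal_mul, mul_inv]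
  ring

theorem nrm_Pp (i k : Fin (n + 3)) :
    Ideal.relNorm (𝓞 c.K) (Pp (D.ψ i)) = Ideal.relNorm (𝓞 c.K) (Pp (D.ψ k)) := by
  rw [B.Iso.norm_eq c.K (Pad.Pp_ne _) (Pad.Pp_eq (D.ψ i) ▸ Pad.cyc_Ir _ 1),
    B.Iso.norm_eq c.K (Pad.Pp_ne _) (Pad.Pp_eq (D.ψ k) ▸ Pad.cyc_Ir _ 1)]
  ext x
  change ‖D.ψ i (algebraMap c.K D.L x)‖ < 1 ↔ ‖D.ψ k (algebraMap c.K D.L x)‖ < 1
  rw [D.ψ_j, D.ψ_j]

end IsoL

variable [Sg]

open IsoL in
theorem isoL (hR : RayStmt) (hN : NrmStmt) (hT : TypLStmt) (hC : CgStmt) (hK : KerStmt) :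
    IsoLStmt := by
  intro n p _ c l hl hnb
  have l0 : l ≠ 0 := by
    rintro rfl
    exact (Fact.out : p.Prime).one_lt.ne' ((Nat.coprime_zero_left p).1 hl)
  obtain ⟨-, ⟨Γ, _, ι, hι⟩, -⟩ := hR c.K l l0
  refine ⟨classNumber c.K * (n + 3).factorial * Nat.card Γ, fun D e he => ?_⟩
  obtain ⟨⟨h, hh⟩, -⟩ := hR D.L l l0
  obtain ⟨T1, T2, T3, ⟨H, Hi, T4⟩, T5⟩ := hT (n + 3) c.K D.L D.lam l D.sp.dim D.sp.gal (by omega)
    (D.sp.sign ▸ hnb) l0
  obtain ⟨-, C2, -, -, -, C6, -⟩ := hC n p c l D l0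
  have : NumberField (MM c.K D.L) := NumberField.of_module_finite c.K _
  have mul : ∀ b b', TN l D b → TN l D b' → TN l D (b * b') := by
    rintro b b' ⟨B, h1, h2, h3⟩ ⟨B', h4, h5, h6⟩
    exact ⟨B * B', mul_ne_zero h1 h4, cop_mul h2 h5, T2 _ _ _ _ h3 h6⟩
  have pow : ∀ b, TN l D b → ∀ k : ℕ, TN l D (b ^ k) := fun b hb k => by
    induction k with
    | zero =>
      rw [pow_zero, Ideal.one_eq_top]
      exact ⟨⊤, top_ne_bot, ⟨1, trivial, 0, by simp⟩, T1⟩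
    | succ k ih => rw [pow_succ]; exact mul _ _ ih hb
  have nz : ∀ b, TN l D b → b ≠ ⊥ ∧ Cop l b := by
    rintro b ⟨B, h1, h2, h3⟩
    exact ⟨(T3 B b h3).1 h1, (T3 B b h3).2 h2⟩
  refine ⟨?_, fun b e' hb => (nz b hb.1).1, ?_⟩
  · have ex : ∀ x : H, ∃ b : (Ideal (𝓞 D.L))⁰, TN l D b.1 ∧ ClassGroup.mk0 b = x := fun x => by
      obtain ⟨B, b, h1, h2, h3, h4⟩ := T4 x.1 x.2
      exact ⟨b, ⟨B, h1, h2, h3⟩, h4⟩
    choose b hb hx using ex
    let f : H → Γ := fun x => ι (Ideal.relNorm (𝓞 c.K) (b x).1)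
    let r : Γ → H := Function.invFun f
    have hr : ∀ x, f (r (f x)) = f x := fun x => Function.invFun_eq ⟨x, rfl⟩
    have cn : ∀ x, Ideal.relNorm (𝓞 c.K) (b x).1 ≠ ⊥ ∧ Cop l (Ideal.relNorm (𝓞 c.K) (b x).1) :=
      fun x => by
        obtain ⟨h1, β, h2, h3⟩ := nz _ (hb x)
        exact ⟨mt Ideal.relNorm_eq_bot_iff.1 h1, _, Ideal.intNorm_mem_spanNorm _ h2,
          hN _ _ l β h3⟩
    have adm : ∀ x : H, ∃ (b' : (Ideal (𝓞 D.L))⁰) (e' : Fin (n + 3) → D.L),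
        Adm l D e b'.1 e' ∧ ClassGroup.mk0 b' = x.1 * (r (f x)).1 ^ h := fun x => by
      obtain ⟨h1, h2⟩ := nz _ (hb (r (f x)))
      obtain ⟨z, hz, e1⟩ := hh _ h1 h2
      have t := mul _ _ (hb x) (pow _ (hb (r (f x))) h)
      obtain ⟨e', h3, h4⟩ := hK n p c l D D.a e _ l0 he (nz _ t).1 (nz _ t).2
        (ray hN h1 hz e1 (hι _ _ (cn x).1 (cn _).1 (cn x).2 (cn _).2 (hr x).symm))
      exact ⟨b x * b (r (f x)) ^ h, e', ⟨t, h3, h4⟩, by rw [map_mul, map_pow, hx, hx]⟩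
    have h1 := Nat.card_le_card_of_injective
      (fun x : H => ((f x, ⟨x.1 * (r (f x)).1 ^ h, adm x⟩) : Γ × {x : ClassGroup (𝓞 D.L) //
        ∃ (b : (Ideal (𝓞 D.L))⁰) (e' : Fin (n + 3) → D.L),
          Adm l D e b.1 e' ∧ ClassGroup.mk0 b = x})) fun x y e => by
        have e1 : f x = f y := congrArg Prod.fst e
        have e2 : x.1 * (r (f x)).1 ^ h = y.1 * (r (f y)).1 ^ h :=
          congrArg (fun w => w.2.1) e
        rw [e1] at e2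
        exact Subtype.ext (mul_right_cancel e2)
    rw [Nat.card_prod] at h1
    rw [classNumber, ← Nat.card_eq_fintype_card, ← H.index_mul_card, mul_assoc]
    exact Nat.mul_le_mul Hi h1
  · rintro i k b e' ⟨hb, h1, h2⟩
    obtain ⟨B, B', c₁, c₂, b1, b2, b3, b4, b5, b6, ee⟩ := T5 p c.j D.ψ hl D.ψ_inj D.ψ_j i k
    have t1 : TN l D c₁ := ⟨B, b1, b3, b5⟩
    have t2 : TN l D c₂ := ⟨B', b2, b4, b6⟩
    obtain ⟨z, hz, e1⟩ := hh _ (nz _ t2).1 (nz _ t2).2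
    have t := mul _ _ t1 (pow _ t2 h)
    have en : Ideal.relNorm (𝓞 c.K) c₁ = Ideal.relNorm (𝓞 c.K) c₂ := by
      have := congrArg (Ideal.relNorm (𝓞 c.K)) ee
      rw [map_mul, map_mul, nrm_Pp D i k] at this
      exact mul_left_cancel₀ (mt Ideal.relNorm_eq_bot_iff.1 (Pad.Pp_ne _)) this
    obtain ⟨e₁, h3, h4⟩ := hK n p c l D _ e' _ l0 h1 (nz _ t).1 (nz _ t).2
      (ray hN (nz _ t2).1 hz e1 ⟨1, 1, ⟨0, by simp⟩, ⟨0, by simp⟩, one_ne_zero, one_ne_zero,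
        by rw [en]⟩)
    have z0 : z ≠ 0 := fun z0 => by
      rw [z0, Ideal.span_singleton_zero] at e1
      exact pow_ne_zero _ (nz _ t2).1 e1
    have z1 : (z : D.L) ≠ 0 := RingOfIntegers.coe_ne_zero_iff.2 z0
    have z2 : D.bar z ≠ 0 := (map_ne_zero _).2 z1
    obtain ⟨-, -, -, -, -, -, -, -, -, -, -, F1, F2, -⟩ := frame n p c D
    refine ⟨c₁ * c₂ ^ h * b, e₁, ⟨mul _ _ t hb, by rwa [tw_mul], C2 _ _ _ h2 h4⟩,
      z / D.bar z, ?_, ?_, ?_⟩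
    · rw [Dat.bar, Dat.bar, map_div₀, IsCMField.complexConj_apply_apply]
      field_simp
    · have n1 : ((Pp (D.ψ i) : Ideal (𝓞 D.L)) : D.FI) ≠ 0 :=
        FractionalIdeal.coeIdeal_ne_zero.2 (Pad.Pp_ne _)
      have q : ((c₁ * c₂ ^ h : Ideal (𝓞 D.L)) : D.FI) =
          FractionalIdeal.spanSingleton _ (z : D.L) * D.quo k i := by
        refine mul_left_cancel₀ n1 ?_
        rw [← FractionalIdeal.coeIdeal_mul, ← mul_assoc, ee, mul_assoc, ← pow_succ', e1,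
          FractionalIdeal.coeIdeal_mul, FractionalIdeal.coeIdeal_span_singleton, Dat.quo]
        field_simp
      rw [tw_mul, ← F1, q, map_mul, F2, div_eq_mul_inv,
        ← FractionalIdeal.spanSingleton_mul_spanSingleton, ← FractionalIdeal.spanSingleton_inv,
        mul_inv]
      ring
    · exact C6 D.a e z (IsCMField.ringOfIntegersComplexConj D.L z) he hz (one_map _ hz)
        ((map_ne_zero_iff _ (IsCMField.ringOfIntegersComplexConj D.L).injective).2 z0)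

end Pool.Agent.Lib.MP_9177b7_ag.B.U.V
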