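import Pool.Agent.Lib.MP_9177b7_ag.V.St
import Pool.Agent.Lib.MP_9177b7_ag.U.Frame
import Pool.Agent.Lib.MP_9177b7_ag.B.Iso

/-! Twists by ideals whose norm lies in the principal ray class. -/

open NumberField
open scoped nonZeroDivisors

namespace Pool.Agent.Lib.MP_9177b7_ag.B.U.V

namespace Ker

variable {R S : Type} [CommRing R] [CommRing S] {l : ℕ}

theorem mul {x y : R} (hx : One l x) (hy : One l y) : One l (x * y) := by
  obtain ⟨a, rfl⟩ := hx
  obtain ⟨b, rfl⟩ := hy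
  exact ⟨a + b + l * a * b, by ring⟩

theorem pow {x : R} (hx : One l x) (k : ℕ) : One l (x ^ k) := by
  induction k with
  | zero => exact ⟨0, by simp⟩
  | succ k ih => rw [pow_succ]; exact mul ih hx

theorem map {F : Type} [FunLike F R S] [RingHomClass F R S] (f : F) {x : R} (hx : One l x) :
    One l (f x) := by
  obtain ⟨a, rfl⟩ := hx
  exact ⟨f a, by simp⟩

theorem cancel {x w : R} (hx : One l x) (h : One l (x * w)) : One l w := by
  obtain ⟨a, rfl⟩ := hx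
  obtain ⟨b, hb⟩ := h
  exact ⟨b - a * w, by linear_combination hb⟩

theorem gen [IsDomain R] {x y : R} {c : Ideal R} (h0 : x ≠ 0) (hx : One l x) (hy : One l y)
    (h : Ideal.span {x} * c = Ideal.span {y}) : ∃ w, One l w ∧ c = Ideal.span {w} := by
  obtain ⟨w, hw⟩ : x ∣ y := by
    rw [← Ideal.span_singleton_le_span_singleton, ← h]
    exact Ideal.mul_le_left
  refine ⟨w, cancel hx (by rwa [← hw]), ?_⟩
  rw [hw, ← Ideal.span_singleton_mul_span_singleton] at h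
  exact (Ideal.span_singleton_mul_right_inj h0).1 h

variable [Sg] {n p : ℕ} [Fact p.Prime] {c : Ctx p} (D : Dat n c)

theorem tw {b d : Ideal (𝓞 D.L)} {z α : 𝓞 D.L} (α0 : (α : D.L) ≠ 0)
    (e1 : Ideal.span {α} * b = Ideal.span {z} * d) :
    (b : D.FI) = FractionalIdeal.spanSingleton _ ((z : D.L) / α) * (d : D.FI) := by
  have e3 : ((Ideal.span {α} * b : Ideal (𝓞 D.L)) : D.FI) = (Ideal.span {z} * d : Ideal (𝓞 D.L)) := by
    rw [e1]
  rw [FractionalIdeal.coeIdeal_mul, FractionalIdeal.coeIdeal_mul,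
    FractionalIdeal.coeIdeal_span_singleton, FractionalIdeal.coeIdeal_span_singleton] at e3
  refine mul_left_cancel₀ (FractionalIdeal.spanSingleton_ne_zero_iff.2 α0) (e3.trans ?_)
  rw [← mul_assoc, FractionalIdeal.spanSingleton_mul_spanSingleton, mul_div_cancel₀ _ α0]

theorem tw' {b d : Ideal (𝓞 D.L)} {v : D.L}
    (h : (b : D.FI) = FractionalIdeal.spanSingleton _ v * (d : D.FI)) (a : D.FI) :
    (b : D.FI) * ((D.cI b : Ideal (𝓞 D.L)) : D.FI)⁻¹ * a =
      FractionalIdeal.spanSingleton _ (v * (D.bar v)⁻¹) *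
        ((d : D.FI) * ((D.cI d : Ideal (𝓞 D.L)) : D.FI)⁻¹ * a) := by
  rw [← Frame.fr12, ← Frame.fr12, h, map_mul, Frame.fr13, mul_inv,
    FractionalIdeal.spanSingleton_inv, ← FractionalIdeal.spanSingleton_mul_spanSingleton]
  ring

theorem quo {z α : 𝓞 D.L} :
    ((z * IsCMField.ringOfIntegersComplexConj D.L α : 𝓞 D.L) : D.L) /
      (α * IsCMField.ringOfIntegersComplexConj D.L z : 𝓞 D.L) =
      (z : D.L) / α * (D.bar ((z : D.L) / α))⁻¹ := by
  have e : D.bar ((z : D.L) / α) = D.bar z / D.bar α := map_div₀ _ _ _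
  rw [e, inv_div, div_mul_div_comm]
  rfl

theorem uni {v : D.L} (h : v ≠ 0) : v * (D.bar v)⁻¹ * D.bar (v * (D.bar v)⁻¹) = 1 := by
  have hb : D.bar v ≠ 0 := (map_ne_zero _).2 h
  have e : D.bar (v * (D.bar v)⁻¹) = D.bar v * v⁻¹ := by
    rw [← congrArg (D.bar v * ·⁻¹) (Frame.bar_bar D v)]
    exact (map_mul _ _ _).trans (congrArg _ (map_inv₀ _ _))
  rw [e, mul_assoc, inv_mul_cancel_left₀ hb, mul_inv_cancel₀ h]

end Ker

variable [Sg]

open Ker in
theorem ker (hR : RayStmt) (hC : RCycStmt) (hM : NrmStmt) (hG : CgStmt) (hN : NbrLStmt) :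
    KerStmt := by
  intro n p _ c l D a e b hl he hb ⟨β, hβ, hβ1⟩ ⟨x, y, hx, hy, x0, y0, hxy⟩
  have hm : c.m0 ≠ 0 := by
    rw [Ctx.m0, Ne, Ideal.absNorm_eq_zero_iff, Ideal.span_singleton_eq_bot]
    exact mul_ne_zero two_ne_zero c.δ_ne
  obtain ⟨h, hh⟩ := (hR D.L l hl).1
  obtain ⟨z, hz, ez⟩ := hh b hb ⟨β, hβ, hβ1⟩
  obtain ⟨α, d, hα, d0, eα, hd, hc⟩ := hC D.L l (c.m0 * l) (b ^ h) hl (mul_ne_zero hm hl)
    (pow_ne_zero _ hb) ⟨β ^ h, Ideal.pow_mem_pow hβ h, pow hβ1 h⟩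
  have z0 : z ≠ 0 := fun h0 => pow_ne_zero (h + 1) hb (by
    rw [ez, h0, Ideal.span_singleton_zero]; rfl)
  have α0 : α ≠ 0 := fun h0 => mul_ne_zero (pow_ne_zero h hb) d0 (by
    rw [← eα, h0, Ideal.span_singleton_zero]; rfl)
  have e1 : Ideal.span {α} * b = Ideal.span {z} * d := by rw [eα, ← ez]; ring
  have e2 := congrArg (Ideal.relNorm (𝓞 c.K)) e1
  rw [map_mul, map_mul, Ideal.relNorm_singleton, Ideal.relNorm_singleton] at e2
  have n0 : Algebra.intNorm (𝓞 c.K) (𝓞 D.L) z ≠ 0 := by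
    rwa [Ne, Algebra.intNorm_eq_zero]
  obtain ⟨w, hw, ew⟩ := gen (c := Ideal.relNorm (𝓞 c.K) d) (mul_ne_zero x0 n0)
    (mul hx (hM _ _ l z hz)) (mul (hM c.K _ l α hα) hy) (by
      rw [← Ideal.span_singleton_mul_span_singleton, ← Ideal.span_singleton_mul_span_singleton,
        mul_assoc, ← e2, mul_left_comm, hxy, Ideal.mul_top])
  rw [B.Iso.norm_eq c.K d0 hc] at ew
  obtain ⟨e', he', hg⟩ := hN n p c l D a e d w hl he d0 hc hd ew hw
  have zL : (z : D.L) ≠ 0 := RingOfIntegers.coe_ne_zero_iff.2 z0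
  have αL : (α : D.L) ≠ 0 := RingOfIntegers.coe_ne_zero_iff.2 α0
  obtain ⟨-, tr, -, -, -, sc, -⟩ := hG n p c l D hl
  have h6 := sc _ e' (z * IsCMField.ringOfIntegersComplexConj D.L α)
    (α * IsCMField.ringOfIntegersComplexConj D.L z) he' (mul hz (map _ hα)) (mul hα (map _ hz))
    (mul_ne_zero α0 ((map_ne_zero_iff _ (AlgEquiv.injective _)).2 z0))
  rw [quo] at h6
  refine ⟨_, ?_, tr _ _ _ hg h6⟩
  rw [tw' D (tw D αL e1)]
  exact Frame.fr_unit he' _ (uni D (div_ne_zero zL αL))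

end Pool.Agent.Lib.MP_9177b7_ag.B.U.V
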