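import Pool.Agent.Lib.MP_9177b7_ag.V.St
import Pool.Agent.Lib.MP_9177b7_ag.U.Main

/-!
Assembly at level `l`.
-/

open NumberField MeasureTheory Filter Topology Set
open scoped ENNReal BoundedContinuousFunction

noncomputable section

namespace Pool.Agent.Lib.MP_9177b7_ag.B.U.V

variable [Sg]

theorem WL_mono {n p : ℕ} [Fact p.Prime] (c : Ctx p) (l : ℕ) (I : Finset (Fin (n + 3)))
    (c₀ : ℚ_[p]) (k : ℕ) {R R' : ℝ} (h : R ≤ R') : WL c l I c₀ k R ⊆ WL c l I c₀ k R' :=
  image_mono fun _ ⟨v, h1, h2, h3, h4, h5, h6⟩ => ⟨v, h1, h2, h3, h4, h5.trans_le h, h6⟩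

open U.Main in
theorem mainL (hD : DiscLStmt) (hR : DensRLStmt) (hU : UnimodStmt) (hP : ProjLStmt)
    (hT : TubeLStmt) (hM : MeasLStmt) (hC : CountStmt) (hy : DynStmt) : MainLStmt := by
  intro n p _ c l D e hl hb hH he hlim
  have hp : (1 : ℝ) < p := by exact_mod_cast (Fact.out : p.Prime).one_lt
  have hp0 : (0 : ℝ) < p := by linarith
  obtain ⟨-, -, -, -, -, -, -, d1, d2⟩ := hD n p c l hl
  have : PolishSpace (XL c n l) := J.pol _ _
  have : PolishSpace (YYl n c.K l) := J.pol _ _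
  obtain ⟨⟨π, hπ, hπ1, hπ2⟩, hpr, -⟩ := hP n p c l hl
  obtain ⟨T1, ⟨R, O, hO, T2⟩, T3⟩ := hT n p c l hl
  obtain ⟨U1, U2, U3⟩ := hU n p
  have S : ∀ m, (D m).Sys := fun m => (sys (D m)).some
  obtain ⟨C₁, hC₁, hM'⟩ := hM n p c l π hl hb hπ hπ1
  choose ν₀ hν₀ hA hfin hmean hW using fun m => hM' (D m) (S m) (e m) (hH m) (he m)
  let ν : ℕ → ProbabilityMeasure (XL c n l) := fun m => ⟨ν₀ m, hν₀ m⟩
  have cnt : ∀ R : ℝ, ∃ C : ℝ, 0 < C ∧ ∀ s : ℝ, 0 < s → s ≤ R → ∀ k : ℕ, 2 ≤ k → ∀ᶠ m in atTop,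
      ∀ (I : Finset (Fin (n + 3))) (c₀ : ℚ_[p]), I.Nonempty → I ≠ Finset.univ →
        (ν m : Measure (XL c n l)) (WL c l I c₀ k s) ≤
          ENNReal.ofReal (C * s * (p : ℝ) ^ (-(k : ℝ) / 2)) := fun R => by
    obtain ⟨C, hC0, h⟩ := hC n p c R
    refine ⟨C₁ * C, mul_pos hC₁ hC0, fun s hs hsR k hk => ?_⟩
    obtain ⟨D₀, h⟩ := h s hs hsR k hk
    filter_upwards [hlim.eventually_ge_atTop D₀] with m hm I c₀ h1 h2
    refine (hW m I c₀ k s).trans (ENNReal.ofReal_le_ofReal ?_)
    rw [mul_assoc, mul_assoc, ← mul_assoc C]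
    exact mul_le_mul_of_nonneg_left (h _ hm (S m) I c₀ h1 h2) hC₁.le
  have := U1 Measure.haar
  have := U2 Measure.haar
  have := U3 Measure.haar
  have uq := (J.uniq (GG n p) (HP n p) (SU n) (ContinuousMulEquiv.refl _) (GpL c n l) Measure.haar
    Measure.haar (hR n p c l hl)).2
  have uq' := (J.uniq (SU n) (SU n) Unit (eU _) (G1l n c.K l) Measure.haar Measure.haar
    (fun g => subset_closure ⟨g, 1, one_mem _, (mul_one g).symm⟩)).2
  refine (lim_of_unique ν
    (fun μ => ∀ h : HP n p, (μ : Measure (XL c n l)).map (((h, 1) : GG n p) • ·) = μ) ?_ ?_ ?_).elim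
      fun μ ⟨hμ, hlim'⟩ => ?_
  rotate_right
  · have hG := (uq μ μ inferInstance inferInstance hμ hμ).2
    have hπm : Measurable π := hπ.measurable
    have : IsProbabilityMeasure ((μ : Measure (XL c n l)).map π) :=
      Measure.isProbabilityMeasure_map hπm.aemeasurable
    have inv : ∀ g : SU n, ((μ : Measure (XL c n l)).map π).map (g • ·) =
        (μ : Measure (XL c n l)).map π := fun g => by
      conv_rhs => rw [← hG (1, g)]
      rw [Measure.map_map (continuous_const_smul g).measurable hπm,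
        Measure.map_map hπm (continuous_const_smul _).measurable]
      congr 1
      exact funext fun x => (hπ2 g x).symm
    refine ⟨hfin, ?_⟩
    rw [← BorelSpace.measurable_eq (α := YYl n c.K l)]
    refine ⟨(μ : Measure (XL c n l)).map π, fun lam => ⟨fun ⟨h1, h2⟩ => ?_, ?_⟩, fun f => ?_⟩
    · have : IsProbabilityMeasure lam := ⟨h1⟩
      rw [(uq' _ lam inferInstance inferInstance inv h2).1, h1, one_smul]
    · rintro rfl
      exact ⟨measure_univ, inv⟩
    · rw [integral_map (f := fun y => f (projL n c.K l y)) hπm.aemeasurable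
        (f.continuous.comp hpr).aestronglyMeasurable]
      simp only [hmean]
      exact ProbabilityMeasure.tendsto_iff_forall_integral_tendsto.1 hlim'
        (f.compContinuous ⟨fun x => projL n c.K l (π x), hpr.comp hπ⟩)
  · intro ε hε
    obtain ⟨C, hC0, h⟩ := cnt 1
    set s : ℝ := min 1 (ε / (C * p)) with hs
    have hs0 : 0 < s := lt_min one_pos (by positivity)
    obtain ⟨Q, hQ, hQ'⟩ := T3 s hs0
    refine ⟨Q, hQ, ?_⟩
    filter_upwards [h s hs0 (min_le_left _ _) 2 le_rfl] with m hm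
    have hne : ({0} : Finset (Fin (n + 3))) ≠ Finset.univ := fun e => by
      have : (1 : Fin (n + 3)) ∈ ({0} : Finset (Fin (n + 3))) := e ▸ Finset.mem_univ _
      simp at this
    calc (ν m : Measure (XL c n l)) Qᶜ
        ≤ (ν m : Measure (XL c n l)) (⋃ c₀ ∈ Finset.range (p ^ 2), WL c l {0} (c₀ : ℚ_[p]) 2 s) :=
          measure_mono fun x hx => by
            obtain ⟨c₀, h1, h2⟩ := (hQ' {0} x).resolve_left hx
            exact mem_biUnion (Finset.mem_coe.2 h1) h2
      _ ≤ ∑ c₀ ∈ Finset.range (p ^ 2), (ν m : Measure (XL c n l)) (WL c l {0} (c₀ : ℚ_[p]) 2 s) :=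
          measure_biUnion_finset_le _ _
      _ ≤ ∑ _c₀ ∈ Finset.range (p ^ 2), ENNReal.ofReal (C * s * (p : ℝ) ^ (-((2 : ℕ) : ℝ) / 2)) :=
          Finset.sum_le_sum fun c₀ _ => hm _ _ (Finset.singleton_nonempty _) hne
      _ ≤ _ := by
          rw [← ENNReal.ofReal_sum_of_nonneg fun _ _ => by positivity]
          refine ENNReal.ofReal_le_ofReal ?_
          have e : (p : ℝ) ^ (-((2 : ℕ) : ℝ) / 2) = (p : ℝ)⁻¹ := by
            rw [← Real.rpow_neg_one]; norm_num
          have h2 : s * (C * p) ≤ ε := (le_div_iff₀ (by positivity)).1 (min_le_right _ _)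
          rw [Finset.sum_const, Finset.card_range, nsmul_eq_mul, e]
          push_cast
          calc _ = s * (C * p) := by field_simp
            _ ≤ _ := h2
  · intro ms μ hms hμ
    obtain ⟨C, hC0, h⟩ := cnt (max R 1)
    have hs0 : 0 < max R 1 := lt_max_of_lt_right one_pos
    refine @hy n p _ (spL c n l) (μ : Measure (XL c n l)) μ.2 (fun k hk => ?_)
      ⟨O, hO, C * max R 1 + p, 1 / 2, by norm_num, fun I h1 h2 k x => ?_⟩
    · exact lim_inv hμ (continuous_const_smul ((dgp p k hk, 1) : GG n p)) fun m => hA (ms m) k hk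
    · rcases lt_or_ge k 2 with hk | hk
      · refine prob_le_one.trans (ENNReal.one_le_ofReal.2 ?_)
        have e : (p : ℝ) ^ (-1 : ℝ) ≤ (p : ℝ) ^ (-(1 / 2 * k) : ℝ) := by
          refine Real.rpow_le_rpow_of_exponent_le hp.le ?_
          have : (k : ℝ) ≤ 2 := by exact_mod_cast hk.le
          linarith
        rw [Real.rpow_neg_one] at e
        calc (1 : ℝ) = p * (p : ℝ)⁻¹ := by field_simp
          _ ≤ _ := by gcongr; nlinarith [mul_pos hC0 hs0]
      · obtain ⟨c₀, hc₀⟩ := T2 I k x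
        refine (measure_mono (hc₀.trans (WL_mono c l I c₀ k (le_max_left R 1)))).trans
          ((lim_open hμ (T1 I c₀ k _).1 (hms.eventually
            ((h _ hs0 le_rfl k hk).mono fun m hm => hm I c₀ h1 h2))).trans
            (ENNReal.ofReal_le_ofReal ?_))
        rw [show (-(k : ℝ) / 2) = -(1 / 2 * k) by ring]
        gcongr
        linarith
  · intro μ μ' h h'
    refine Subtype.ext ?_
    have := (uq μ' μ inferInstance inferInstance h' h).1
    rwa [measure_univ, one_smul] at this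

end Pool.Agent.Lib.MP_9177b7_ag.B.U.V
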