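import Pool.Agent.Lib.MP_9177b7_ag.V.St
import Pool.Agent.Lib.MP_9177b7_ag.B.Meas

/-!
The measure attached to a CM datum with level structure.
-/

open NumberField Matrix MeasureTheory Filter Topology
open scoped nonZeroDivisors ComplexConjugate ENNReal BoundedContinuousFunction

noncomputable section

namespace Pool.Agent.Lib.MP_9177b7_ag.B.U.V

variable [Sg]

namespace MeasL

variable {n p : ℕ} [Fact p.Prime] {c : Ctx p} {l : ℕ} (D : Dat n c)

theorem ev_mul {a : D.FI} {u : D.L} (hu : u * D.bar u = 1) {I : Finset (Fin (n + 3))} {c₀ : ℚ_[p]}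
    {k : ℕ} {s : ℝ} (h : D.Ev a I c₀ k s) :
    D.Ev (FractionalIdeal.spanSingleton _ u * a) I c₀ k s := by
  obtain ⟨ξ, h1, h2, h3, h4⟩ := h
  have e : D.lam * (u * ξ) * D.bar (u * ξ) = D.lam * ξ * D.bar ξ := by
    rw [Dat.bar, map_mul]
    linear_combination (D.lam * ξ * D.bar ξ) * hu
  refine ⟨u * ξ, FractionalIdeal.mul_mem_mul (FractionalIdeal.mem_spanSingleton_self _ _) h1,
    mul_ne_zero (left_ne_zero_of_mul_eq_one hu) h2, ?_, ?_⟩
  · rwa [e]
  · rwa [e]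

theorem mem_orb (hC : CgStmt) (hl : l ≠ 0) {e : Fin (n + 3) → D.L} (he : D.Fr D.a e)
    (x : SSl n c.K l) : x ∈ orbitL n c.K l D.lam D.a e ↔ ∃ (b : Ideal (𝓞 D.L))
      (e' : Fin (n + 3) → D.L) (v : Cone n), Adm l D e b e' ∧ v.1 = maj n c.K D.lam e' ∧
        x = Quot.mk _ v := by
  have h := (hC n p c l D hl).2.2.2.2.1 D.a e
  constructor
  · rintro ⟨B, b, e', v, h1, h2, h3, h4, h5, h6, h7⟩
    exact ⟨b, e', v, ⟨⟨B, h1, h2, h3⟩, h4, (h e' he).1 h5⟩, h6, h7⟩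
  · rintro ⟨b, e', v, ⟨⟨B, h1, h2, h3⟩, h4, h5⟩, h6, h7⟩
    exact ⟨B, b, e', v, h1, h2, h3, h4, (h e' he).2 h5, h6, h7⟩

omit [Sg] in
theorem mean_eq {X : Type} {O : Set X} [Fintype O] (f : X → ℝ) :
    mean O f = (∑ x : O, f x) / Fintype.card O := by
  rw [mean, ← finsum_set_coe_eq_finsum_mem, finsum_eq_sum_of_fintype, ← Nat.card_eq_fintype_card]
  rfl

omit [Sg] in
theorem arith {E A Z C₀ C₁ O cl : ℝ} (h1 : E * A ≤ C₀ * Z) (h2 : cl ≤ C₁ * (O * A))
    (hO : 0 < O) (hcl : 0 < cl) (hZ : 0 ≤ Z) (hE : 0 ≤ E) (hC₁ : 0 ≤ C₁) :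
    E / O ≤ (C₀ * C₁ + 1) * (Z / cl) := by
  rw [← mul_div_assoc, div_le_div_iff₀ hO hcl]
  calc E * cl ≤ E * (C₁ * (O * A)) := by gcongr
    _ = C₁ * O * (E * A) := by ring
    _ ≤ C₁ * O * (C₀ * Z) := by gcongr
    _ = C₀ * C₁ * Z * O := by ring
    _ ≤ _ := by gcongr; linarith

end MeasL

open MeasL B.Meas in
theorem measL (hF : FrameStmt) (hA : AmbStmt) (hL : LiftStmt) (hM0 : MoveStmt) (hC : CgStmt)
    (hR : RelLStmt) (hI : IsoLStmt) (hM : MoveLStmt) (hJ : ProjLStmt) (hT : TubeLStmt) :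
    MeasLStmt := by
  intro n p _ c l _ π hl hb hπ hπ1
  classical
  have l0 : l ≠ 0 := fun h => by
    rw [h, Nat.coprime_zero_left] at hl
    exact (Fact.out : p.Prime).ne_one hl
  obtain ⟨R1, R2, R3, C₀, R4⟩ := hR n p c l hl
  obtain ⟨C₁, hI'⟩ := hI n p c l hl hb
  obtain ⟨CA, hA'⟩ := hA n p c
  refine ⟨C₀ * C₁ + 1, by positivity, fun D S e hH he => ?_⟩
  obtain ⟨I1, I2, I3⟩ := hI' D e he
  obtain ⟨G1, G2, G3, G4, -, -, -, G8⟩ := hC n p c l D l0
  have A1 := (hA' D).1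
  have FL := (hF n p c D).2.2.2.2.2.2.2.2.2.2.2.2.2.2.2.2.2.2
  have l1 : D.lam ≠ 0 := (hF n p c D).2.2.2.2.2.2.2.2.2.2.2.2.2.2.2.1
  have sc : ∀ a e', D.Fr a e' → ∀ u, u * D.bar u = 1 →
      D.Fr (FractionalIdeal.spanSingleton _ u * a) fun k => u * e' k :=
    fun a e' h => (FL a e' h).2.2.2.2.2.2.2.2.1
  set O := orbitL n c.K l D.lam D.a e with hO
  choose b ee v hb' hv hx using fun x : O => (mem_orb D hC l0 he x.1).1 x.2
  let b0 : O → (Ideal (𝓞 D.L))⁰ := fun x =>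
    ⟨b x, mem_nonZeroDivisors_of_ne_zero (I2 _ _ (hb' x))⟩
  choose s hs hs' using R4 D
  have key : ∀ (x : O) (b' : (Ideal (𝓞 D.L))⁰),
      (ClassGroup.mk0 (b0 x))⁻¹ * ClassGroup.mk0 b' ∈ D.Amb → (∃ e', D.Fr (D.tw b') e') ∧
        x.1 ∈ s (D.tw b') ∧ ∀ I c₀ k R, D.Ev (D.tw (b x)) I c₀ k R → D.Ev (D.tw b') I c₀ k R := by
    intro x b' h
    obtain ⟨u, hu, e1⟩ := (A1 (b0 x) b').2 h
    have f := sc _ _ (hb' x).2.1 u hu
    rw [e1]
    refine ⟨⟨_, f⟩, ?_, fun I c₀ k R => ev_mul D hu⟩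
    rw [hx x]
    exact hs' _ _ _ f ((hv x).trans (R1 D u _ hu).symm)
  have cls : ∀ (x : O) (t : D.Amb), ∃ z : D.Cl, z.1 = ClassGroup.mk0 (b0 x) * t.1 := fun x t => by
    obtain ⟨b', hb⟩ := ClassGroup.mk0_surjective (ClassGroup.mk0 (b0 x) * t.1)
    exact ⟨⟨_, hH ▸ Subgroup.mem_top _, b', hb,
      (key x b' (by rw [hb, inv_mul_cancel_left]; exact t.2)).1⟩, rfl⟩
  choose z hz using cls
  have hz' : ∀ x t, (ClassGroup.mk0 (b0 x))⁻¹ * ClassGroup.mk0 (S.b (z x t)) ∈ D.Amb :=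
    fun x t => by rw [S.hb, hz, inv_mul_cancel_left]; exact t.2
  have fin : O.Finite := (Finset.univ.biUnion fun w : D.Cl => s (D.tw (S.b w))).finite_toSet.subset
    fun x hx => Finset.mem_biUnion.2 ⟨z ⟨x, hx⟩ 1, Finset.mem_univ _, (key ⟨x, hx⟩ _ (hz' _ _)).2.1⟩
  have := fin.fintype
  have pt : ∀ b₁ e₁, Adm l D e b₁ e₁ → ∃ (y : O) (u : D.L), u * D.bar u = 1 ∧
      D.tw (b y) = FractionalIdeal.spanSingleton _ u * D.tw b₁ ∧
      Cg l D (fun k => u * e₁ k) (ee y) := by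
    intro b₁ e₁ h
    obtain ⟨w, hw⟩ := (FL _ _ h.2.1).2.2.2.2.2.2.2.1
    let y : O := ⟨Quot.mk _ w, (mem_orb D hC l0 he _).2 ⟨b₁, e₁, w, h, hw, rfl⟩⟩
    obtain ⟨u, h1, h2, h3⟩ := R3 D D.lam _ _ e₁ (ee y) w (v y) D.sp.real h.2.1 (hb' y).2.1 hw
      (hv y) (hx y)
    exact ⟨y, u, (mul_eq_left₀ l1).1 h1.symm, h2, h3⟩
  have c2 : classNumber D.L ≤ C₁ * (Fintype.card O * Nat.card D.Amb) := by
    refine I1.trans (Nat.mul_le_mul_left _ ?_)
    rw [← Nat.card_eq_fintype_card, ← Nat.card_prod]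
    have : ∀ w : {x : ClassGroup (𝓞 D.L) // ∃ (b : (Ideal (𝓞 D.L))⁰)
        (e' : Fin (n + 3) → D.L), Adm l D e b.1 e' ∧ ClassGroup.mk0 b = x},
        ∃ q : O × D.Amb, w.1 * q.2.1 = ClassGroup.mk0 (b0 q.1) := by
      rintro ⟨_, b₁, e₁, h, rfl⟩
      obtain ⟨y, u, h1, h2, -⟩ := pt _ _ h
      exact ⟨(y, ⟨_, (A1 b₁ (b0 y)).1 ⟨u, h1, h2⟩⟩), mul_inv_cancel_left _ _⟩
    choose q hq using this
    refine Nat.card_le_card_of_injective q fun w w' h => Subtype.ext ?_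
    have := hq w
    rw [h, ← hq w'] at this
    exact mul_right_cancel this
  have hO0 : 0 < Fintype.card O := by
    refine Nat.pos_of_ne_zero fun h => ?_
    rw [h, zero_mul, mul_zero] at c2
    exact (classNumber_pos D.L).not_ge c2
  have : Nonempty O := Fintype.card_pos_iff.1 hO0
  have : Fintype (Tl c l) := Fintype.ofFinite _
  obtain ⟨⟨M, hM0', hMc, hMd⟩, L2⟩ := hL n p
  obtain ⟨μ, hμ, h1, h2⟩ := Cond.exists_haar M (hM0' ▸ hMc)
  have hmem : ∀ g, g ∈ M ↔ g ∈ M0 n p := fun g => by rw [← hM0']; rfl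
  simp only [hmem] at h1 h2
  have fr : ∀ y : O × Tl c l, D.Fr (D.tw (b y.1)) (D.rot (ee y.1) y.2.1) :=
    fun y => (hM0 n p c D).1 _ _ _ (hb' _).2.1
  choose g hg using fun y => (L2 c D _ _ (fr y)).1
  have tz : (Fintype.card (Tl c l) : ℝ) ≠ 0 := Nat.cast_ne_zero.2 Fintype.card_ne_zero
  refine ⟨avg (GpL c n l) μ g, avg_prob _ _ _, ainv (spL c n l) _ fun i r hk hil => ?_, fin,
    fun f => ?_, fun I c₀ k R => ?_⟩
  · have st : ∀ x : O, ∃ (y : O) (u : D.L), u * D.bar u = 1 ∧ D.tw (b y) =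
        FractionalIdeal.spanSingleton _ u * D.quo r i * (D.cF (D.quo r i))⁻¹ * D.tw (b x) ∧
        Cg l D (ee y) fun k => u * ee x k := fun x => by
      obtain ⟨b₁, e₁, a1, u, hu, a2, a3⟩ := I3 i r _ _ (hb' x)
      obtain ⟨y, u', hu', a4, a5⟩ := pt _ _ a1
      refine ⟨y, u' * u, ?_, ?_, ?_⟩
      · rw [Dat.bar, map_mul]
        linear_combination (u * D.bar u) * hu' + hu
      · rw [a4, a2, ← FractionalIdeal.spanSingleton_mul_spanSingleton]
        simp only [mul_assoc]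
      · refine G2 _ _ _ (G3 _ _ _ _ (sc _ _ a1.2.1 u' hu') (hb' y).2.1 a5) ?_
        simp only [mul_assoc]
        exact G4 u' _ _ (G2 _ _ _ (G3 _ _ _ _ he a1.2.1 a1.2.2)
          (G2 _ _ _ a3 (G4 u _ _ (hb' x).2.2)))
    choose σ u hu eu cu using st
    have fu : ∀ x, D.Fr (FractionalIdeal.spanSingleton _ (u x) * D.quo r i *
        (D.cF (D.quo r i))⁻¹ * D.tw (b x)) (ee (σ x)) := fun x => eu x ▸ (hb' (σ x)).2.1
    have hσ : Function.Injective σ := fun x y h => by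
      have q0 : D.quo r i * (D.cF (D.quo r i))⁻¹ ≠ 0 := fun h0 => (FL _ _ (fu x)).1 (by
        rw [mul_assoc _ (D.quo r i), h0, mul_zero, zero_mul])
      have e1 : FractionalIdeal.spanSingleton _ (u x) * D.tw (b x) =
          FractionalIdeal.spanSingleton _ (u y) * D.tw (b y) := by
        refine mul_left_cancel₀ q0 ?_
        have := (eu x).symm.trans (h ▸ eu y)
        calc _ = FractionalIdeal.spanSingleton _ (u x) * D.quo r i * (D.cF (D.quo r i))⁻¹ *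
              D.tw (b x) := by ring
          _ = _ := by rw [this]; ring
      have f1 := sc _ _ (hb' x).2.1 _ (hu x)
      have f2 := sc _ _ (hb' y).2.1 _ (hu y)
      refine Subtype.ext ?_
      rw [hx x, hx y]
      exact R2 D _ _ _ _ _ f1 (e1 ▸ f2) (G2 _ _ _ (G3 _ _ _ _ (fu x) f1 (cu x)) (h ▸ cu y))
        ((hv x).trans (R1 D _ _ (hu x)).symm) ((hv y).trans (R1 D _ _ (hu y)).symm)
    choose η hη0 hη using fun x => hM n p c l D i r _ (ee x) (ee (σ x)) (u x) _ hk hl hil rfl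
      (hu x) (hb' x).2.1 (fu x) (cu x)
    refine avg_move (d := ((dgp p _ hk, 1) : GG n p))
      (fun y => (σ y.1, y.2 * ⟨η y.1, hη0 y.1⟩)) ?_ fun y => ?_
    · rintro ⟨x, ζ⟩ ⟨x', ζ'⟩ e
      obtain ⟨e1, e2⟩ := Prod.mk.inj e
      obtain rfl := hσ e1
      exact Prod.ext rfl (mul_right_cancel e2)
    · have t2 := hg (σ y.1, y.2 * ⟨η y.1, hη0 y.1⟩)
      dsimp only at t2
      rw [Subgroup.coe_mul] at t2
      obtain ⟨m, hm, γ, hγ, e⟩ := hη y.1 y.2.1 y.2.2 (g y) _ (hg y) t2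
      exact orb_move h1 h2 (fun m hm => hMd m hm _ hk) hm hγ e
  · obtain ⟨-, hpr, J3⟩ := hJ n p c l hl
    have := avg_int h1 g (f.compContinuous ⟨fun x => projL n c.K l (π x), hpr.comp hπ⟩)
      (fun y => f y.1.1) fun y m hm => by
        have li := ((L2 c D _ _ (fr y)).2 _ (hg y)).1 m hm
        obtain ⟨w, hw⟩ := (FL _ _ (fr y)).2.2.2.2.2.2.2.1
        change f (projL n c.K l (π _)) = _
        rw [hπ1 _ li.1, J3 _ w (hw.trans ((L2 c D _ _ (fr y)).2 _ li).2.1), hx y.1,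
          R2 D _ _ _ _ _ (hb' y.1).2.1 (fr y) (G8 _ _ y.2.2) (hv _) hw]
    refine Eq.trans ?_ this.symm
    have cz : (Fintype.card O : ℝ) ≠ 0 := Nat.cast_ne_zero.2 hO0.ne'
    rw [mean_eq, Fintype.sum_prod_type_right]
    simp only [Finset.sum_const, Finset.card_univ, nsmul_eq_mul, Fintype.card_prod, Nat.cast_mul]
    field_simp
  · obtain ⟨T1, T2⟩ := (hT n p c l hl).1 I c₀ k R
    set E := Finset.univ.filter fun x : O => D.Ev (D.tw (b x)) I c₀ k R with hE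
    set Z := Finset.univ.filter fun w : D.Cl => D.Ev (D.tw (S.b w)) I c₀ k R with hZ
    have : Fintype D.Amb := Fintype.ofFinite _
    have c1 : E.card * Nat.card D.Amb ≤ C₀ * Z.card := by
      rw [Nat.card_eq_fintype_card, ← Finset.card_univ, ← Finset.card_product]
      refine Finset.card_le_mul_card_image_of_maps_to (f := fun q : O × D.Amb => z q.1 q.2)
        (fun q hq => Finset.mem_filter.2 ⟨Finset.mem_univ _, (key _ _ (hz' _ _)).2.2 _ _ _ _
          (Finset.mem_filter.1 (Finset.mem_product.1 hq).1).2⟩) _ fun w _ => ?_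
      refine (Finset.card_le_card_of_injOn (fun q => q.1.1) (fun q hq => ?_) fun q hq q' hq' h => ?_).trans
        (hs (D.tw (S.b w)))
      · rw [← (Finset.mem_filter.1 hq).2]
        exact (key _ _ (hz' _ _)).2.1
      · have e1 : q.1 = q'.1 := Subtype.ext h
        have e2 := congrArg Subtype.val
          ((Finset.mem_filter.1 hq).2.trans (Finset.mem_filter.1 hq').2.symm)
        rw [hz, hz, e1] at e2
        exact Prod.ext e1 (Subtype.ext (mul_left_cancel e2))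
    have c3 : Fintype.card D.Cl ≤ classNumber D.L := Fintype.card_subtype_le _
    have : Nonempty D.Cl := ⟨z (Classical.arbitrary _) 1⟩
    refine (avg_le h1 g T1 (E ×ˢ Finset.univ) fun y m hm hy => ?_).trans ?_
    · have li := ((L2 c D _ _ (fr y)).2 _ (hg y)).1 m hm
      simpa [hE] using ((L2 c D _ _ (fr y)).2 _ li).2.2 I c₀ k R ((T2 _).1 hy)
    · rw [Finset.card_product, Finset.card_univ, Fintype.card_prod, Nat.cast_mul, Nat.cast_mul,
        mul_comm, ← div_eq_mul_inv, ENNReal.mul_div_mul_right _ _ (by simp) (by simp),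
        ← ENNReal.ofReal_natCast, ← ENNReal.ofReal_natCast,
        ← ENNReal.ofReal_div_of_pos (Nat.cast_pos.2 hO0)]
      refine ENNReal.ofReal_le_ofReal (arith (A := Nat.card D.Amb) (by exact_mod_cast c1)
        (by exact_mod_cast c3.trans c2) (Nat.cast_pos.2 hO0)
        (Nat.cast_pos.2 Fintype.card_pos) (Nat.cast_nonneg _) (Nat.cast_nonneg _)
        (Nat.cast_nonneg _))

end Pool.Agent.Lib.MP_9177b7_ag.B.U.V
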