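import Pool.Agent.Lib.MP_9177b7_ag.V.St
import Pool.Agent.Lib.MP_9177b7_ag.U.Move
import Pool.Agent.Lib.MP_9177b7_ag.U.Frame
import Pool.Agent.Lib.MP_9177b7_ag.U.Disc
import Pool.Agent.Lib.MP_9177b7_ag.B.Pad

/-!
Moving a frame by a quotient of two primes above `p`, with level structure.
-/

open NumberField Matrix Topology
open scoped nonZeroDivisors ComplexConjugate

noncomputable section

namespace Pool.Agent.Lib.MP_9177b7_ag.B.U.V

namespace MoveL

open Move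

variable [Sg] {n p : ℕ} [Fact p.Prime] {c : Ctx p} {D : Dat n c} {l : ℕ}

theorem gm_cg {a' : D.FI} {e e' : Fin (n + 3) → D.L} {u : D.L} (h' : D.Fr a' e')
    (hc : Cg l D e' fun s => u * e s) :
    ∃ δ : Matrix (Fin (n + 3)) (Fin (n + 3)) c.K, (∀ i k, δ i k ∈ Rl c l) ∧
      gm D u e e' = 1 + (l : c.K) • δ := by
  obtain ⟨-, -, -, f, -⟩ := (frame n p c D).2.2.2.2.2.2.2.2.2.2.2.2.2.2.2.2.2.2 a' e' h'
  obtain ⟨δ, h1, h2⟩ := hc
  refine ⟨δ, h1, ?_⟩
  refine Matrix.ext fun r k => ?_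
  have e2 : ∀ i, Algebra.trace c.K D.L (algebraMap c.K D.L (δ i k) * e' i * D.du e' r) =
      if r = i then δ i k else 0 := fun i => by
    rw [mul_assoc, ← Algebra.smul_def, map_smul, f, smul_eq_mul]
    split_ifs <;> simp
  have e3 : (l : D.L) * (∑ i, algebraMap c.K D.L (δ i k) * e' i) * D.du e' r =
      (l : c.K) • ∑ i, algebraMap c.K D.L (δ i k) * e' i * D.du e' r := by
    rw [Algebra.smul_def, map_natCast, mul_assoc, Finset.sum_mul]
  have e4 : u * e k = e' k + l * ∑ i, algebraMap c.K D.L (δ i k) * e' i := h2 k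
  rw [gm, of_apply, e4, add_mul, map_add, e3, map_smul, map_sum,
    Finset.sum_congr rfl fun i _ => e2 i, Finset.sum_ite_eq, if_pos (Finset.mem_univ _), f,
    Matrix.add_apply, Matrix.one_apply, Matrix.smul_apply]

omit [Sg] in
theorem det_cg {m : ℕ} {δ : Matrix (Fin m) (Fin m) c.K} (h : ∀ i k, δ i k ∈ Rl c l) :
    ∃ y ∈ Rl c l, (1 + (l : c.K) • δ).det = 1 + l * y := by
  let δ' : Matrix (Fin m) (Fin m) (Rl c l) := Matrix.of fun i k => ⟨δ i k, h i k⟩
  have e1 : 1 + (l : c.K) • δ = (Rl c l).subtype.mapMatrix (1 + (l : Rl c l) • δ') := by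
    refine Matrix.ext fun i k => ?_
    rw [map_add, map_one, Matrix.add_apply, Matrix.add_apply, RingHom.mapMatrix_apply,
      Matrix.map_apply, Matrix.smul_apply, Matrix.smul_apply, smul_eq_mul, smul_eq_mul, map_mul, map_natCast]
    rfl
  have e2 : Ideal.Quotient.mk (Ideal.span {(l : Rl c l)}) (1 + (l : Rl c l) • δ').det =
      Ideal.Quotient.mk (Ideal.span {(l : Rl c l)}) 1 := by
    have z : Ideal.Quotient.mk (Ideal.span {(l : Rl c l)}) (l : Rl c l) = 0 :=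
      Ideal.Quotient.eq_zero_iff_mem.2 (Ideal.mem_span_singleton_self _)
    have e3 : (Ideal.Quotient.mk (Ideal.span {(l : Rl c l)})).mapMatrix
        (1 + (l : Rl c l) • δ') = 1 := by
      refine Matrix.ext fun i k => ?_
      rw [map_add, map_one, Matrix.add_apply, RingHom.mapMatrix_apply, Matrix.map_apply,
        Matrix.smul_apply, smul_eq_mul, map_mul, z, zero_mul, add_zero]
    rw [RingHom.map_det, e3, det_one, map_one]
  obtain ⟨y, hy⟩ := Ideal.mem_span_singleton'.1 (Ideal.Quotient.eq.1 e2)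
  refine ⟨y, y.2, ?_⟩
  rw [e1, ← RingHom.map_det, ← add_sub_cancel 1 (det _), ← hy, map_add, map_one, map_mul,
    map_natCast, mul_comm]
  rfl

end MoveL

open Move Lift MoveL in
theorem moveL [Sg] : CgStmt → DiscLStmt → MoveLStmt := by
  intro hC hDL n p _ c L D i l a e e' u k hk hLp _ hk' hu h h' hc
  have hP := pad
  have hD := disc pad
  have hF := frame
  have hL := lift hP hD hF
  have L0 : L ≠ 0 := by
    rintro rfl
    exact (Fact.out : p.Prime).ne_one (Nat.coprime_zero_left p |>.1 hLp)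
  obtain ⟨-, c2, c3, c4, -, -, c7, c8⟩ := hC n p c L D L0
  obtain ⟨l1, l2, l3, -⟩ := hDL n p c L hLp
  have f := (hF n p c D).2.2.2.2.2.2.2.2.2.2.2.2.2.2.2.2.2.2
  obtain ⟨g0, hg0⟩ := ((hL n p).2 c D _ e h).1
  obtain ⟨g0', hg0'⟩ := ((hL n p).2 c D _ e' h').1
  obtain ⟨s0, hs0, e0⟩ := p_part hP hF hk hk' hu h h' hg0 hg0'
  have R0 := gm_RK hF h' fun k => mem_tw hP hF (u := u) (i := i) (l := l) ((f a e h).2.1 k)
  have d0 := gm_det hF hu h h'
  have dR : (gm D u e e').det ∈ c.RK := by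
    rw [det_apply']
    exact sum_mem fun σ _ => mul_mem (intCast_mem _ _) (prod_mem fun r _ => R0 _ _)
  have n1 : ‖c.j (gm D u e e').det‖ = 1 := by
    have v := congrArg (fun A => ‖det A‖) e0
    simp only [det_mul, (dgp p k hk).2, g0.1.2, g0'.1.2, one_mul, norm_one, det_diagonal, norm_mul,
      norm_prod, hs0, Finset.prod_const_one] at v
    rw [RingHom.map_det]
    exact v.symm
  have n2 : ‖c.j (c.cj (gm D u e e').det)‖ = 1 := by
    have v := congrArg (fun x => ‖c.j x‖) d0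
    simpa only [map_mul, norm_mul, n1, mul_one, map_one, norm_one] using v
  obtain ⟨η, hη⟩ := tors D hF ((hD n p c).1 _ dR n1.le n2.le) d0
  have ηT : η ∈ Tl c L := by
    obtain ⟨δ, h1, h2⟩ := gm_cg h' hc
    obtain ⟨y, hy, h3⟩ := det_cg h1
    rw [← h2, ← hη] at h3
    have hi : IsIntegral ℤ y := l2 y hy (by
      rw [← add_sub_cancel_left 1 ((L : c.K) * y), ← h3]
      exact (RingOfIntegers.isIntegral_coe _).sub isIntegral_one)
    obtain ⟨z, rfl⟩ : ∃ z : 𝓞 c.K, (z : c.K) = y := ⟨⟨y, hi⟩, rfl⟩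
    refine (c7 η).2 ⟨z, RingOfIntegers.ext ?_⟩
    rw [h3, RingOfIntegers.coe_eq_algebraMap (1 + (L : 𝓞 c.K) * z), map_add, map_one, map_mul,
      map_natCast]
  refine ⟨η, ηT, fun ζ hζ g g' hg hg' => ?_⟩
  have r := rot_fr hF ζ h
  have r' := rot_fr hF (ζ * η) h'
  have R1 := gm_RK hF r' fun k => mem_tw hP hF (u := u) (i := i) (l := l) ((f a _ r).2.1 k)
  have d1 : (gm D u (D.rot e ζ) (D.rot e' (ζ * η))).det = 1 := by
    have v0 := congrArg det (gm_Φ (u := u) (e := e) hF h')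
    have v1 := congrArg det (gm_Φ (u := u) (e := D.rot e ζ) hF r')
    rw [det_mul, det_mul, ← RingHom.mapMatrix_apply, ← RingHom.map_det, ← hη] at v0
    rw [det_mul, det_mul, ← RingHom.mapMatrix_apply, ← RingHom.map_det, det_rot, det_rot,
      ← mul_assoc, ← v0] at v1
    have y0 : (D.Φm e').det ≠ 0 := right_ne_zero_of_mul_eq_one (a := (D.Φm (D.du e'))ᵀ.det)
      (by rw [← det_mul, (f _ e' h').2.2.2.2.2.2.1, det_one])
    have z0 : algebraMap c.K ℂ (((ζ * η).1 : 𝓞 c.K) : c.K) ≠ 0 :=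
      (map_ne_zero _).2 (right_ne_zero_of_mul_eq_one (tors_norm (ζ * η)))
    have e1 : algebraMap c.K ℂ (((ζ * η).1 : 𝓞 c.K) : c.K) =
        algebraMap c.K ℂ ((η.1 : 𝓞 c.K) : c.K) * algebraMap c.K ℂ ((ζ.1 : 𝓞 c.K) : c.K) := by
      rw [← map_mul, mul_comm]
      rfl
    rw [mul_assoc _ (algebraMap c.K ℂ ((η.1 : 𝓞 c.K) : c.K)), ← e1,
      mul_eq_left₀ (mul_ne_zero y0 z0)] at v1
    exact (algebraMap c.K ℂ).injective (v1.trans (map_one _).symm)
  obtain ⟨G, -, G1, G2⟩ := (hD n p c).2.2.2.1 _ R1 (gm_uni hF hu r r') d1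
  have hG : G ∈ GpL c n L := by
    have k1 := c3 _ _ _ _ h' r' (c8 e' _ (mul_mem hζ ηT))
    obtain ⟨δ, h1, h2⟩ := gm_cg r' (c2 _ _ _ (c2 _ _ _ k1 hc) (c4 u _ _ (c8 e ζ hζ)))
    refine (l3 G).2 ⟨δ, fun s t => l1 _ (h1 s t) ?_, h2 ▸ G1, h2 ▸ G2⟩
    have v := R1 s t
    rw [h2, Matrix.add_apply, Matrix.smul_apply, smul_eq_mul] at v
    have o : (1 : Matrix (Fin (n + 3)) (Fin (n + 3)) c.K) s t ∈ c.RK := by
      rw [Matrix.one_apply]
      split_ifs
      · exact one_mem _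
      · exact zero_mem _
    exact (add_mem_cancel_left o).1 v
  obtain ⟨s, hs, e1⟩ := p_part hP hF hk hk' hu r r' hg hg'
  obtain ⟨d, e2⟩ := r_part hF hu r' hg hg'
  refine ⟨(dgp p k hk, 1) * g * (g' * G)⁻¹, mem_M0 (s := s) (d := d) ?_ (fun r => (hs r).le) ?_,
    G, hG, by group⟩
  · have i1 : g'.1.1 * G.1.1 * (g' * G)⁻¹.1.1 = 1 :=
      congrArg (fun x : GG n p => x.1.1) (mul_inv_cancel (g' * G))
    change (dgp p k hk).1 * g.1.1 * (g' * G)⁻¹.1.1 = _
    rw [e1, ← G1, mul_assoc, i1, mul_one]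
  · have i2 : g'.2.1.1 * G.2.1.1 * (g' * G)⁻¹.2.1.1 = 1 :=
      congrArg (fun x : GG n p => x.2.1.1) (mul_inv_cancel (g' * G))
    change 1 * g.2.1.1 * (g' * G)⁻¹.2.1.1 = _
    rw [one_mul, e2, ← G2, mul_assoc, i2, mul_one]

end Pool.Agent.Lib.MP_9177b7_ag.B.U.V
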