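import Pool.Agent.Lib.MP_9177b7_ag.V.St
import Pool.Agent.Lib.MP_9177b7_ag.U.Trans
import Pool.Agent.Lib.MP_9177b7_ag.U.Eich
import Pool.Agent.Lib.MP_9177b7_ag.U.Frame
import Pool.Agent.Lib.MP_9177b7_ag.U.Nbr

/-!
Neighbouring lattices with level structure.
-/

open NumberField Matrix
open scoped nonZeroDivisors ComplexConjugate

noncomputable section

namespace Pool.Agent.Lib.MP_9177b7_ag.B.U.V

variable [Sg]

namespace NbrL

open B.Trans

omit [Sg] in
/-- The monoid of matrices congruent to one. -/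
def CL (n : ℕ) {R : Type} [CommRing R] (q : R) :
    Submonoid (Matrix (Fin (n + 3)) (Fin (n + 3)) R) where
  carrier := {g | ∃ δ, g = 1 + q • δ}
  one_mem' := ⟨0, by simp⟩
  mul_mem' := by
    rintro _ _ ⟨δ, rfl⟩ ⟨δ', rfl⟩
    refine ⟨δ + δ' + q • (δ * δ'), ?_⟩
    simp only [add_mul, mul_add, one_mul, mul_one, smul_add, smul_mul_smul_comm, smul_smul]
    abel

omit [Sg] in
theorem Ei_mem {n : ℕ} {R : Type} [CommRing R] {q w w' z : R} (a b k : Fin (n + 3)) (h1 : q ∣ w)
    (h2 : q ∣ w') (h3 : q ∣ z) : Ei a b k w w' z ∈ CL n q := by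
  obtain ⟨x, rfl⟩ := h1
  obtain ⟨x', rfl⟩ := h2
  obtain ⟨y, rfl⟩ := h3
  refine ⟨single k b x - single a k x' + single a b y, ?_⟩
  simp only [Ei, smul_add, smul_sub, smul_single, smul_eq_mul]
  abel

theorem ring (n : ℕ) {R : Type} [CommRing R] (σ : R →+* R)
    (hσ : ∀ x, σ (σ x) = x) (q : ℕ) (m : Ideal R) (l : Fin (n + 3) → R) (hc : Cyc m)
    (h1 : m ⊔ m.map σ = ⊤) (h2 : m ⊔ Ideal.span {2} = ⊤) (h3 : m ⊔ Ideal.span {(q : R)} = ⊤) :
    ∃ γ ∈ Trans.UU n σ ⊓ CL n (q : R), ∀ k, k ≠ 0 → ∑ i, l i * γ i k ∈ m := by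
  have hE := eich
  obtain ⟨e1, he1, e0, he2, he⟩ := Submodule.mem_sup.1 ((Ideal.eq_top_iff_one _).1 h1)
  obtain ⟨u', hu', v', hv', huv'⟩ := Submodule.mem_sup.1 ((Ideal.eq_top_iff_one _).1 h3)
  have hq : (q : R) ∣ v' := Ideal.mem_span_singleton.1 hv'
  obtain ⟨u, hu, v, hv, huv⟩ := Submodule.mem_sup.1 ((Ideal.eq_top_iff_one _).1 h2)
  obtain ⟨h, rfl⟩ := Ideal.mem_span_singleton'.1 hv
  have hle : m.map σ ≤ m.comap σ :=
    Ideal.map_le_iff_le_comap.2 fun x hx => by simpa [Ideal.mem_comap, hσ] using hx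
  obtain ⟨e2, z1, z2, d1⟩ : ∃ e2 : R, Ideal.Quotient.mk m (σ e2) = 0 ∧
      Ideal.Quotient.mk m e2 = 1 ∧ (q : R) ∣ e2 := by
    refine ⟨e0 * v', ?_, ?_, hq.mul_left _⟩
    · have y0 : Ideal.Quotient.mk m (σ e0) = 0 := Ideal.Quotient.eq_zero_iff_mem.2 (hle he2)
      rw [map_mul, map_mul, y0, zero_mul]
    · have y1 := congrArg (Ideal.Quotient.mk m) he
      have y2 := congrArg (Ideal.Quotient.mk m) huv'
      rw [map_add, Ideal.Quotient.eq_zero_iff_mem.2 he1, zero_add, map_one] at y1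
      rw [map_add, Ideal.Quotient.eq_zero_iff_mem.2 hu', zero_add, map_one] at y2
      rw [map_mul, y1, y2, one_mul]
  have d2 : (q : R) ∣ σ e2 := by simpa using map_dvd σ d1
  have z3 : Ideal.Quotient.mk m (h * 2) = 1 := by
    rw [← map_one (Ideal.Quotient.mk m), ← huv, map_add, Ideal.Quotient.eq_zero_iff_mem.2 hu,
      zero_add]
  have hS : ∀ i j s, i ≠ j →
      transvection i j s ∈ (Trans.UU n σ ⊓ CL n (q : R)).map (Ideal.Quotient.mk m).mapMatrix.toMonoidHom := by
    refine (hE n (R ⧸ m) (RingHom.id _) 0 1 ⟨2, by omega⟩ 0 0 ⟨Or.inl ⟨rfl, rfl⟩, ?_, ?_⟩).2.2 _ ?_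
    · exact fun e => absurd (congrArg Fin.val e) (by simp)
    · exact fun e => absurd (congrArg Fin.val e) (by simp)
    intro a b k s hp
    obtain ⟨t, rfl⟩ := Ideal.Quotient.mk_surjective s
    have sk : sg R k * sg R k = 1 := sg_sq k
    have a1 : Ideal.Quotient.mk m (2 * (t * h * e2)) = Ideal.Quotient.mk m t := by
      rw [show 2 * (t * h * e2) = t * (h * 2) * e2 by ring, map_mul, map_mul, z2, z3, mul_one,
        mul_one]
    have a2 : Ideal.Quotient.mk m (σ (2 * (t * h * e2))) = 0 := by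
      simp only [map_mul, z1, mul_zero]
    have a3 : Ideal.Quotient.mk m (-2 * (t * h * e2) * σ (t * h * e2)) = 0 := by
      simp only [map_mul, z1, mul_zero]
    have b1 : (q : R) ∣ 2 * (t * h * e2) := (d1.mul_left _).mul_left _
    have b2 : (q : R) ∣ sg R k * σ (2 * (t * h * e2)) := by
      rw [map_mul, map_mul]
      exact ((d2.mul_left _).mul_left _).mul_left _
    have b3 : (q : R) ∣ sg R k * (-2 * (t * h * e2) * σ (t * h * e2)) :=
      (((d1.mul_left _).mul_left _).mul_right _).mul_left _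
    have b4 : (q : R) ∣ sg R k * σ (sg R k * σ (2 * (t * h * e2))) := by
      rw [map_mul σ, hσ]
      exact (b1.mul_left _).mul_left _
    refine ⟨⟨_, ⟨(hE n R σ a b k (2 * (t * h * e2))
      (sg R k * (-2 * (t * h * e2) * σ (t * h * e2))) hp).2.1
      (hσ _) ?_, Ei_mem a b k b1 b2 b3⟩, ?_⟩, ⟨_, ⟨(hE n R σ a b k (sg R k * σ (2 * (t * h * e2)))
        (sg R k * (-2 * (t * h * e2) * σ (t * h * e2))) hp).2.1 (hσ _) ?_,
        Ei_mem a b k b2 b4 b3⟩, ?_⟩⟩
    · simp only [map_mul, map_neg, map_ofNat, map_intCast, hσ]; ring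
    · exact (Ei_map _ _ _ _ _ _ _).trans (by
        rw [a1, map_mul _ (sg R k), map_mul _ (sg R k), a2, a3, mul_zero])
    · simp only [map_mul, map_neg, map_ofNat, map_intCast, hσ]
      linear_combination (4 * sg R k * (t * h * e2) * (σ t * σ h * σ e2)) * sk
    · exact (Ei_map _ _ _ _ _ _ _).trans (by
        rw [map_mul σ (sg R k), map_intCast, hσ, ← mul_assoc (sg R k), sk, one_mul, a1,
          map_mul _ (sg R k), map_mul _ (sg R k), a2, a3, mul_zero])
  choose z hz using fun i => hc (l i)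
  obtain ⟨_, ⟨γ, hγ, rfl⟩, hg⟩ := move 0 _ hS z
  refine ⟨γ, hγ, fun k hk => Ideal.Quotient.eq_zero_iff_mem.1 ?_⟩
  rw [← hg k hk, map_sum]
  refine Finset.sum_congr rfl fun i _ => ?_
  rw [map_mul, Ideal.Quotient.eq.2 (hz i), map_intCast]
  rfl

end NbrL

theorem transL : TransLStmt := by
  intro n p _ c q m l hc h1 h2 h3
  have hσ : ∀ x : 𝓞 c.K, c.cjO (c.cjO x) = x := fun x => by
    apply RingOfIntegers.ext
    apply Subtype.ext
    change ((c.cj (c.cj x) : c.K) : ℂ) = _
    rw [c.cj_coe, c.cj_coe, Complex.conj_conj]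
  obtain ⟨γ, ⟨hγ, δ, hδ⟩, h⟩ := NbrL.ring n (c.cjO : 𝓞 c.K →+* 𝓞 c.K) hσ q m l hc h1 h2 h3
  refine ⟨γ, δ, ?_, hδ, h⟩
  have e := congrArg (fun A => A.map (algebraMap (𝓞 c.K) c.K))
    (show (γ.map (c.cjO : 𝓞 c.K →+* 𝓞 c.K))ᵀ * Jm n _ * γ = Jm n _ from hγ)
  simp only [Matrix.map_mul, Jm_map] at e
  exact e

open NbrAux in
theorem nbrL : CgStmt → TransLStmt → NbrLStmt := by
  intro hC hT n p _ c l D a e b y hl he hb hc hm hpr hone
  obtain ⟨fr1, fr2, -, -, -, -, -, -, -, -, -, fr12, -, fr14, -, -, -, crit, blk⟩ := frame n p c D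
  obtain ⟨hm1, hm2, hm3⟩ := below D hc (Nat.Coprime.coprime_mul_right_right hm)
  have hml : (Ideal.absNorm b).Coprime l := Nat.Coprime.coprime_mul_left_right hm
  set m := b.comap (algebraMap (𝓞 c.K) (𝓞 D.L)) with hmd
  have hN : ((Ideal.absNorm b : ℕ) : 𝓞 c.K) ∈ m := by
    rw [hmd, Ideal.mem_comap, map_natCast]
    exact Ideal.absNorm_mem b
  have hm4 : m ⊔ Ideal.span {(l : 𝓞 c.K)} = ⊤ := by
    obtain ⟨u, v, huv⟩ := (Nat.isCoprime_iff_coprime.2 hml).map (Int.castRingHom (𝓞 c.K))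
    rw [Ideal.eq_top_iff_one, ← huv]
    simp only [eq_intCast, Int.cast_natCast]
    exact Ideal.add_mem _ (Ideal.mem_sup_left (m.mul_mem_left _ hN))
      (Ideal.mem_sup_right (Ideal.mul_mem_left _ _ (Ideal.mem_span_singleton_self _)))
  obtain ⟨ha, hea, -, -, -, -, -, -, -, hγ, -⟩ := blk a e he
  obtain ⟨a0, ha0, hgen⟩ := exists_gen ha hb hc
  choose z hz using fun i => hgen (e i) (hea i)
  obtain ⟨γ, δ, hγu, hγδ, hγm⟩ := hT n p c l m (fun i => (z i : 𝓞 c.K)) hm1 hm2 hm3 hm4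
  set f : Fin (n + 3) → D.L := fun k =>
    ∑ i, algebraMap c.K D.L ((γ.map (algebraMap _ c.K)) i k) * e i with hfd
  have hf : D.Fr a f := hγ _ hγu fun i k => (γ i k).isIntegral_coe
  have hfb : ∀ k, k ≠ 0 → f k ∈ (b : D.FI) * a := by
    intro k hk
    have h1 : f k = ∑ i, algebraMap c.K D.L (γ i k) * (e i - z i * a0) +
        ((algebraMap (𝓞 c.K) (𝓞 D.L) (∑ i, (z i : 𝓞 c.K) * γ i k) : 𝓞 D.L) : D.L) * a0 := by
      rw [coe_alg, RingOfIntegers.coe_eq_algebraMap, map_sum, map_sum, Finset.sum_mul,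
        ← Finset.sum_add_distrib]
      refine Finset.sum_congr rfl fun i _ => ?_
      rw [map_mul, map_mul, map_intCast, map_intCast, Matrix.map_apply,
        RingOfIntegers.coe_eq_algebraMap]
      ring
    rw [h1]
    exact add_mem' (sum_mem' _ _ fun i _ => K_mul_mem D _ (hz i))
      (mem_ba (Ideal.mem_comap.1 (hγm k hk)) ha0)
  obtain ⟨-, hfa, hexp, hdu, hAd, -⟩ := blk a f hf
  have hy' : m = Ideal.span {y} := hpr
  have hym : y ∈ m := by rw [hy']; exact Ideal.mem_span_singleton_self y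
  have hyb : algebraMap (𝓞 c.K) (𝓞 D.L) y ∈ b := hym
  have hy0 : (y : c.K) ≠ 0 := by
    intro h
    have h0 : y = 0 := RingOfIntegers.ext h
    rw [hy', h0, Ideal.span_singleton_eq_bot.2 rfl, Ideal.mem_bot, Nat.cast_eq_zero,
      Ideal.absNorm_eq_zero_iff] at hN
    exact hb hN
  have hyc0 : c.cj y ≠ 0 := by rwa [Ne, map_eq_zero]
  obtain ⟨α, β', hαβ⟩ : ∃ α β' : 𝓞 c.K, α * y + β' * c.cjO y = 1 := by
    rw [hy', Ideal.map_span, Set.image_singleton, ← Ideal.span_insert, Ideal.eq_top_iff_one,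
      Ideal.mem_span_pair] at hm2
    exact hm2
  have hαβ' : algebraMap c.K D.L α * algebraMap c.K D.L y +
      algebraMap c.K D.L β' * algebraMap c.K D.L (c.cj y) = 1 := by
    have h := congrArg (fun x : 𝓞 c.K => algebraMap c.K D.L (algebraMap (𝓞 c.K) c.K x)) hαβ
    simp only [map_add, map_mul, map_one] at h
    exact h
  have hb0 : (b : D.FI) ≠ 0 := FractionalIdeal.coeIdeal_ne_zero.2 hb
  have hbc0 : ((D.cI b : Ideal (𝓞 D.L)) : D.FI) ≠ 0 := by
    rw [← fr12]
    rwa [Ne, map_eq_zero]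
  have h01 : (1 : Fin (n + 3)) ≠ 0 := by simp
  set s : Fin (n + 3) → c.K := fun k => if k = 0 then y else if k = 1 then (c.cj y)⁻¹ else 1
    with hs
  have hle : (b : D.FI) * a ≤ b * ((D.cI b : Ideal (𝓞 D.L)) : D.FI)⁻¹ * a := by
    calc (b : D.FI) * a = b * (((D.cI b : Ideal (𝓞 D.L)) : D.FI) *
          ((D.cI b : Ideal (𝓞 D.L)) : D.FI)⁻¹) * a := by rw [mul_inv_cancel₀ hbc0, mul_one]
      _ ≤ b * (1 * ((D.cI b : Ideal (𝓞 D.L)) : D.FI)⁻¹) * a := by
          gcongr
          exact FractionalIdeal.coeIdeal_le_one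
      _ = _ := by rw [one_mul]
  have hmem1 : algebraMap c.K D.L (c.cj y)⁻¹ * f 1 ∈
      b * ((D.cI b : Ideal (𝓞 D.L)) : D.FI)⁻¹ * a := by
    have h1 : FractionalIdeal.spanSingleton _ (algebraMap c.K D.L (c.cj y)⁻¹ * f 1) *
        ((D.cI b : Ideal (𝓞 D.L)) : D.FI) ≤ (b : D.FI) * a := by
      rw [FractionalIdeal.spanSingleton_mul_le_iff]
      intro w hw
      obtain ⟨w', hw', rfl⟩ := (FractionalIdeal.mem_coeIdeal _).1 hw
      obtain ⟨β, hβ, rfl⟩ := (Ideal.mem_map_of_equiv _ _).1 hw'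
      set t : D.L := algebraMap c.K D.L (c.cj y)⁻¹ * f 1 * D.bar β with ht
      change t ∈ _
      have hta : t ∈ a := by
        rw [hexp t]
        refine sum_mem' _ _ fun k _ => ?_
        obtain ⟨c0, hc0, hc1⟩ := key D hf ha hdu hfb (mem_ba hβ (hfa (Equiv.swap 0 1 k)))
        rw [← hmd, hy', Ideal.mem_span_singleton'] at hc0
        obtain ⟨c1, rfl⟩ := hc0
        have h2 : D.bar (t * D.du f k) = algebraMap c.K D.L (sg c.K k * (y : c.K)⁻¹) *
            ((β : D.L) * f (Equiv.swap 0 1 k) * D.du f 0) := by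
          rw [ht, Dat.du, Dat.du, Equiv.swap_apply_left, sg_zero]
          simp only [Dat.bar, map_mul, IsCMField.complexConj_apply_apply, D.sp.real, map_sg]
          rw [show IsCMField.complexConj D.L (algebraMap c.K D.L (c.cj y)⁻¹) =
            algebraMap c.K D.L (y : c.K)⁻¹ by
              have := fr1 (c.cj y)⁻¹
              rw [map_inv₀ c.cj, cj_cj] at this
              exact this]
          ring
        have h3 : Algebra.trace c.K D.L (t * D.du f k) =
            (c.cjO (sg (𝓞 c.K) k * c1) : 𝓞 c.K) := by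
          rw [← cj_cj (Algebra.trace c.K D.L (t * D.du f k)), ← fr2, h2, ← Algebra.smul_def,
            map_smul, hc1, cjO_coe, smul_eq_mul]
          congr 1
          rw [RingOfIntegers.coe_eq_algebraMap (sg (𝓞 c.K) k * c1), map_mul, map_sg]
          push_cast
          field_simp
        rw [h3]
        exact K_mul_mem D _ (hfa k)
      have h4 : algebraMap c.K D.L (c.cj y) * t =
          ((IsCMField.ringOfIntegersComplexConj D.L β : 𝓞 D.L) : D.L) * f 1 := by
        rw [ht, map_inv₀, IsCMField.coe_ringOfIntegersComplexConj]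
        have : algebraMap c.K D.L (c.cj y) ≠ 0 := by rwa [Ne, map_eq_zero]
        field_simp
      have h5 : t = algebraMap c.K D.L α * (algebraMap c.K D.L y * t) +
          algebraMap c.K D.L β' * (algebraMap c.K D.L (c.cj y) * t) := by
        linear_combination (-t) * hαβ'
      rw [h5, h4]
      refine add_mem' (K_mul_mem D _ ?_) (K_mul_mem D _ (int_mul_mem _ (hfb 1 h01)))
      rw [← coe_alg]
      exact mem_ba hyb hta
    rw [← FractionalIdeal.spanSingleton_le_iff_mem]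
    calc FractionalIdeal.spanSingleton _ (algebraMap c.K D.L (c.cj y)⁻¹ * f 1)
        = FractionalIdeal.spanSingleton _ (algebraMap c.K D.L (c.cj y)⁻¹ * f 1) *
          ((D.cI b : Ideal (𝓞 D.L)) : D.FI) * ((D.cI b : Ideal (𝓞 D.L)) : D.FI)⁻¹ := by
            rw [mul_assoc, mul_inv_cancel₀ hbc0, mul_one]
      _ ≤ (b : D.FI) * a * ((D.cI b : Ideal (𝓞 D.L)) : D.FI)⁻¹ := by gcongr
      _ = _ := by ring
  have hcg : Cg l D e fun k => algebraMap c.K D.L (s k) * f k := by
    refine (hC n p c l D hl).2.1 e f _ ⟨δ.map (algebraMap _ c.K), fun i k => ?_, fun k => ?_⟩ ?_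
    · exact ⟨1, Nat.coprime_one_left l, by simpa using (δ i k).isIntegral_coe⟩
    · simp only [hfd, hγδ, Matrix.map_apply, Matrix.add_apply, Matrix.smul_apply, smul_eq_mul,
        map_add, map_mul, map_natCast, add_mul, Finset.sum_add_distrib, Finset.mul_sum, mul_assoc]
      congr 1
      rw [Finset.sum_eq_single k (fun i _ hi => by rw [Matrix.one_apply_ne hi]; simp) (by simp)]
      simp
    · obtain ⟨y0, hy1⟩ := hone
      have hy2 : (y : c.K) = 1 + l * y0 := by rw [hy1]; push_cast; rfl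
      obtain ⟨c1, hc1⟩ := Ideal.mem_span_singleton'.1 (hy' ▸ hN)
      have hc2 : ((Ideal.absNorm b : ℕ) : c.K) = c.cj c1 * c.cj y := by
        rw [← map_mul, ← map_natCast c.cj]
        congr 1
        exact_mod_cast hc1.symm
      refine ⟨Matrix.diagonal fun k =>
        if k = 0 then (y0 : c.K) else if k = 1 then -(c.cj y0) * (c.cj y)⁻¹ else 0,
        fun i k => ?_, fun k => ?_⟩
      · rw [Matrix.diagonal_apply]
        split_ifs
        · exact ⟨1, Nat.coprime_one_left l, by simpa using y0.isIntegral_coe⟩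
        · refine ⟨_, hml, ?_⟩
          rw [hc2, show c.cj c1 * c.cj y * (-(c.cj y0) * (c.cj y)⁻¹) = -(c.cj c1 * c.cj y0) by
            field_simp]
          exact ((c.cjO c1).isIntegral_coe.mul (c.cjO y0).isIntegral_coe).neg
        · exact zero_mem _
        · exact zero_mem _
      · rw [Finset.sum_eq_single k (fun i _ hi => by rw [Matrix.diagonal_apply_ne _ hi]; simp)
          (by simp), Matrix.diagonal_apply_eq, ← mul_assoc, ← map_natCast (algebraMap c.K D.L),
          ← map_mul, ← one_add_mul, ← map_one (algebraMap c.K D.L), ← map_add]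
        refine congrArg (fun x => algebraMap c.K D.L x * f k) ?_
        simp only [hs]
        split_ifs
        · exact hy2
        · have h3 : c.cj y = 1 + l * c.cj y0 := by rw [hy2, map_add, map_mul, map_one, map_natCast]
          have h4 := mul_inv_cancel₀ hyc0
          linear_combination h4 - (c.cj y)⁻¹ * h3
        · simp
  refine ⟨fun k => algebraMap c.K D.L (s k) * f k, crit _ _ (fun i j => ?_) (fun k => ?_) ?_, hcg⟩
  · have h1 : D.lam * (algebraMap c.K D.L (s i) * f i) * D.bar (algebraMap c.K D.L (s j) * f j) =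
        (s i * c.cj (s j)) • (D.lam * f i * D.bar (f j)) := by
      rw [Algebra.smul_def, map_mul, ← fr1]
      simp only [Dat.bar, map_mul]
      ring
    rw [h1, map_smul, hf.1 i j, smul_eq_mul, Jm, Matrix.of_apply]
    split_ifs with hj
    · refine mul_left_eq_self₀.2 (Or.inl ?_)
      rw [hj]
      by_cases hi0 : i = 0
      · subst hi0
        simp only [hs, Equiv.swap_apply_left, if_true, if_neg h01, map_inv₀, cj_cj]
        exact mul_inv_cancel₀ hy0
      · by_cases hi1 : i = 1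
        · subst hi1
          simp only [hs, Equiv.swap_apply_right, if_true, if_neg h01]
          exact inv_mul_cancel₀ hyc0
        · rw [Equiv.swap_apply_of_ne_of_ne hi0 hi1]
          simp only [hs, if_neg hi0, if_neg hi1, map_one, mul_one]
    · rw [mul_zero]
  · by_cases hk0 : k = 0
    · subst hk0
      simp only [hs, if_true]
      rw [← coe_alg]
      exact hle (mem_ba hyb (hfa 0))
    · by_cases hk1 : k = 1
      · subst hk1
        simp only [hs, if_true, if_neg h01]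
        exact hmem1
      · simp only [hs, if_neg hk0, if_neg hk1, map_one, one_mul]
        exact hle (hfb k hk0)
  · rw [← hAd, map_mul, map_mul, map_inv₀, fr12, ← fr12 b, fr14]
    have h1 : D.cF (b : D.FI) ≠ 0 := by rwa [Ne, map_eq_zero]
    apply le_of_eq
    field_simp

end Pool.Agent.Lib.MP_9177b7_ag.B.U.V
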