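import Pool.Agent.Lib.MP_9177b7_ag.V.St
import Pool.Agent.Lib.MP_9177b7_ag.B.Proj

/-! Level `l`: the projections to the real quotient and to the arithmetic quotient. -/

open NumberField Matrix Filter Topology

noncomputable section

namespace Pool.Agent.Lib.MP_9177b7_ag.B.U.V

variable [Sg]

namespace ProjL

theorem proj_mk (n : ℕ) (K : IntermediateField ℚ ℂ) (l : ℕ)
    (h5 : ∀ g : SU n, g ∈ G1l n K l → Gam n K l g.1.1) (g : SU n) (v : Cone n)
    (hv : v.1 = g.1.1ᴴ * g.1.1) : projL n K l (QuotientGroup.mk g) = Quot.mk _ v := by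
  obtain ⟨γ, hγ⟩ := QuotientGroup.mk_out_eq_mul (G1l n K l) g
  refine (Quot.sound ⟨γ.1.1.1, h5 γ.1 γ.2, ?_⟩).symm
  change (QuotientGroup.mk g : YYl n K l).out.1.1ᴴ * (QuotientGroup.mk g : YYl n K l).out.1.1 = _
  rw [hγ, hv]
  change (g.1.1 * γ.1.1.1)ᴴ * (g.1.1 * γ.1.1.1) = _
  simp only [conjTranspose_mul, mul_assoc]

end ProjL

open ProjL B.Proj in
theorem projL_stmt : DiscLStmt → DensPLStmt → ProjLStmt := by
  intro hD hP n p _ c l hl
  obtain ⟨-, -, -, -, -, h5, h6, -⟩ := hD n p c l hl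
  have h3 := proj_mk n c.K l fun g hg => (h5 g).1 hg
  refine ⟨?_, ?_, h3⟩
  · have hr : ∀ x : XL c n l, ∃ r : GG n p, Intg r.1 ∧ QuotientGroup.mk r = x := fun x => by
      obtain ⟨γ, hγ, h⟩ := hP n p c l hl x.out.1
      exact ⟨x.out * γ, h, (QuotientGroup.mk_mul_of_mem _ hγ).trans x.out_eq⟩
    choose r rK rx using hr
    have hj : ∀ g : GG n p, Intg g.1 →
        (QuotientGroup.mk (r (QuotientGroup.mk g)).2 : YYl n c.K l) = QuotientGroup.mk g.2 :=
      fun g hg => QuotientGroup.eq.2 (h6 _ (QuotientGroup.eq.1 (rx (QuotientGroup.mk g)))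
        (intg_mul (intg_inv (rK _)) hg))
    refine ⟨fun x => QuotientGroup.mk (r x).2, ?_, hj, fun g x => ?_⟩
    · refine (QuotientGroup.isQuotientMap_mk _).continuous_iff.2
        (continuous_iff_continuousAt.2 fun g => ?_)
      obtain ⟨γ, hγ, h⟩ := hP n p c l hl g.1
      have c1 : Continuous fun g' : GG n p => g' * γ := continuous_mul_const γ
      refine (QuotientGroup.continuous_mk.comp (continuous_snd.comp c1)).continuousAt.congr ?_
      filter_upwards [(isOpen_intg.preimage (continuous_fst.comp c1)).mem_nhds h] with g' hg'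
      refine (hj (g' * γ) hg').symm.trans ?_
      rw [QuotientGroup.mk_mul_of_mem _ hγ]
      rfl
    · have e : ((1, g) : GG n p) • x = QuotientGroup.mk (((1, g) : GG n p) * r x) := by
        conv_lhs => rw [← rx x]
        rfl
      rw [e]
      exact hj _ (intg_mul intg_one (rK x))
  · refine (QuotientGroup.isQuotientMap_mk _).continuous_iff.2 ?_
    have e : projL n c.K l ∘ QuotientGroup.mk = fun g : SU n =>
        Quot.mk _ (⟨g.1.1ᴴ * g.1.1, maj_mem n g⟩ : Cone n) :=
      funext fun g => h3 g _ rfl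
    rw [e]
    have c1 : Continuous fun g : SU n => (g.1 : SpecialLinearGroup (Fin (n + 3)) ℂ) :=
      continuous_subtype_val
    have c2 : Continuous fun g : SpecialLinearGroup (Fin (n + 3)) ℂ => g.1 :=
      continuous_subtype_val
    have c3 : Continuous fun g : SU n => g.1.1ᴴ * g.1.1 :=
      (c2.comp c1).matrix_conjTranspose.matrix_mul (c2.comp c1)
    exact continuous_quot_mk.comp (c3.subtype_mk _)

end Pool.Agent.Lib.MP_9177b7_ag.B.U.V
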