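import Pool.Agent.Lib.MP_9177b7_ag.V.St
import Pool.Agent.Lib.MP_9177b7_ag.B.Cyc

/-!
Every ray class contains an ideal with cyclic quotient and norm prime to a given integer.
-/

open NumberField Polynomial IntermediateField
open scoped nonZeroDivisors

noncomputable section

namespace Pool.Agent.Lib.MP_9177b7_ag.B.U.V

namespace RCyc

lemma split (l : ℕ) (f : ℕ) (hf : f ≠ 0) :
    ∃ f' k : ℕ, f' ≠ 0 ∧ f'.Coprime l ∧ f ∣ f' * l ^ k := by
  induction f using Nat.strong_induction_on with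
  | _ f ih =>
    by_cases h : f.Coprime l
    · exact ⟨f, 0, hf, h, by simp⟩
    obtain ⟨g, hg⟩ := Nat.gcd_dvd_left f l
    have hg0 : g ≠ 0 := by
      rintro rfl
      exact hf (by simpa using hg)
    have h1 : 1 < f.gcd l := by
      have := Nat.gcd_pos_of_pos_left l (Nat.pos_of_ne_zero hf)
      have h' : f.gcd l ≠ 1 := h
      omega
    obtain ⟨f', k, h2, h3, h4⟩ := ih g
      (by rw [hg]; exact lt_mul_of_one_lt_left (Nat.pos_of_ne_zero hg0) (hg ▸ h1)) hg0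
    refine ⟨f', k + 1, h2, h3, ?_⟩
    rw [hg, pow_succ, ← mul_assoc, mul_comm (f' * l ^ k)]
    exact mul_dvd_mul (Nat.gcd_dvd_right f l) h4

/-- A generator of `b₀` modulo `b₀ f` that is congruent to one modulo `l`. -/
lemma gen {M : Type} [Field M] [NumberField M] (l f : ℕ) (b₀ : Ideal (𝓞 M)) (hf : f ≠ 0)
    (hb : b₀ ≠ 0) (hc : Cop l b₀) :
    ∃ β, One l β ∧ b₀ * Ideal.span {(f : 𝓞 M)} ⊔ Ideal.span {β} = b₀ := by
  obtain ⟨f', k, h0, hco, hd⟩ := split l f hf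
  have hsp : Ideal.span {(f' : 𝓞 M)} ≠ 0 := by
    rw [Ne, Ideal.zero_eq_bot, Ideal.span_singleton_eq_bot]
    exact_mod_cast h0
  obtain ⟨γ, hγ⟩ := IsDedekindDomain.exists_sup_span_eq
    (I := b₀ * Ideal.span {(f' : 𝓞 M)}) (J := b₀) Ideal.mul_le_left (mul_ne_zero hb hsp)
  have hγb : γ ∈ b₀ := (le_sup_right.trans hγ.le) (Ideal.mem_span_singleton_self γ)
  obtain ⟨e, he, y, rfl⟩ := hc
  obtain ⟨u, v, huv⟩ := (Nat.isCoprime_iff_coprime.2 hco).map (Int.castRingHom (𝓞 M))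
  simp only [eq_intCast, Int.cast_natCast] at huv
  obtain ⟨β, hβ⟩ : ∃ β, β = u * f' * (1 + l * y) + v * l * γ := ⟨_, rfl⟩
  have h1 : β = 1 + l * (u * f' * y + v * γ - v) := by rw [hβ]; linear_combination huv
  have hβs := Ideal.mem_span_singleton_self β
  have key : ∀ k : ℕ, b₀ ≤ b₀ * Ideal.span {((f' * l ^ k : ℕ) : 𝓞 M)} ⊔ Ideal.span {β} := by
    intro k
    induction k with
    | zero =>
      rw [pow_zero, mul_one]
      refine hγ.ge.trans (sup_le le_sup_left ?_)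
      rw [Ideal.span_singleton_le_iff_mem,
        show γ = (u * γ - u * (1 + l * y)) * f' + β by rw [hβ]; linear_combination (-γ) * huv]
      exact add_mem (Ideal.mem_sup_left (Ideal.mul_mem_mul
        (sub_mem (Ideal.mul_mem_left _ _ hγb) (Ideal.mul_mem_left _ _ he))
        (Ideal.mem_span_singleton_self _))) (Ideal.mem_sup_right hβs)
    | succ k ih =>
      refine ih.trans (sup_le ?_ le_sup_right)
      rw [Ideal.mul_le]
      intro r hr s hs
      obtain ⟨w, rfl⟩ := Ideal.mem_span_singleton'.1 hs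
      rw [show r * (w * ((f' * l ^ k : ℕ) : 𝓞 M)) =
        -(w * (u * f' * y + v * γ - v)) * r * ((f' * l ^ (k + 1) : ℕ) : 𝓞 M) +
          r * (w * ((f' * l ^ k : ℕ) : 𝓞 M)) * β by rw [h1]; push_cast; ring]
      exact add_mem (Ideal.mem_sup_left (Ideal.mul_mem_mul (Ideal.mul_mem_left _ _ hr)
        (Ideal.mem_span_singleton_self _))) (Ideal.mem_sup_right (Ideal.mul_mem_left _ _ hβs))
  refine ⟨β, ⟨_, h1⟩, le_antisymm (sup_le Ideal.mul_le_left ?_) ((key k).trans ?_)⟩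
  · rw [Ideal.span_singleton_le_iff_mem, hβ]
    exact add_mem (Ideal.mul_mem_left _ _ he) (Ideal.mul_mem_left _ _ hγb)
  · refine sup_le_sup_right (Ideal.mul_mono_right ?_) _
    exact Ideal.span_singleton_le_span_singleton.2 (Nat.cast_dvd_cast hd)

end RCyc

open Cyc in
theorem rcyc : RCycStmt := by
  classical
  intro M _ _ l f b₀ hl hf hb0 hcl
  replace hb0 : b₀ ≠ 0 := hb0
  set d := Module.finrank ℤ (𝓞 M) with hd
  set N := Ideal.absNorm b₀ with hN
  have hN0 : N ≠ 0 := by rwa [hN, Ne, Ideal.absNorm_eq_zero_iff]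
  set f₁ : ℕ := 2 * (f * (N * d.factorial * l)) with hf₁
  have hf0 : f₁ ≠ 0 := by
    have := d.factorial_ne_zero
    positivity
  obtain ⟨β₀, hone, hβ₀⟩ := RCyc.gen l f₁ b₀ hf0 hb0 hcl
  have hmo : ((N * f₁ : ℕ) : 𝓞 M) ∈ b₀ * Ideal.span {(f₁ : 𝓞 M)} := by
    rw [Nat.cast_mul N f₁]
    exact Ideal.mul_mem_mul (Ideal.absNorm_mem b₀) (Ideal.mem_span_singleton_self _)
  obtain ⟨y, hy⟩ := prim β₀ (N * f₁) (mul_ne_zero hN0 hf0)
  set β : 𝓞 M := β₀ + (N * f₁ : ℕ) * y with hβ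
  obtain ⟨I, hI0, hI⟩ := cond β hy
  have hβi : IsIntegral ℤ β := Algebra.IsIntegral.isIntegral _
  obtain ⟨t, ht⟩ := nonroot' (minpoly ℤ β) (minpoly.monic hβi) (N * f₁)
    (I.natAbs.primeFactors.filter fun q => ¬ q ∣ f₁) (fun q hq => by
      obtain ⟨h1, h2⟩ := Finset.mem_filter.1 hq
      have hp := Nat.prime_of_mem_primeFactors h1
      refine ⟨hp, lt_of_le_of_lt (minpoly.natDegree_le (A := ℤ) (x := β)) ?_, fun h => ?_⟩
      · by_contra! h
        exact h2 ((((hp.dvd_factorial.2 h).mul_left _).mul_right _).mul_left _ |>.mul_left _)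
      · rcases (Nat.Prime.dvd_mul hp).1 h with h | h
        · exact h2 ((((h.mul_right _).mul_right _).mul_left _).mul_left _)
        · exact h2 h)
  set α : 𝓞 M := β + t * (N * f₁ : ℕ) with hα
  have hsup : b₀ * Ideal.span {(f₁ : 𝓞 M)} ⊔ Ideal.span {α} = b₀ := by
    have hdiff : α - β₀ ∈ b₀ * Ideal.span {(f₁ : 𝓞 M)} := by
      rw [show α - β₀ = (y + t) * (N * f₁ : ℕ) by rw [hα, hβ]; ring]
      exact Ideal.mul_mem_left _ _ hmo
    refine Eq.trans (le_antisymm (sup_le le_sup_left ?_) (sup_le le_sup_left ?_)) hβ₀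
    · rw [Ideal.span_singleton_le_iff_mem, show α = (α - β₀) + β₀ by ring]
      exact add_mem (Ideal.mem_sup_left hdiff)
        (Ideal.mem_sup_right (Ideal.mem_span_singleton_self _))
    · rw [Ideal.span_singleton_le_iff_mem, show β₀ = α - (α - β₀) by ring]
      exact sub_mem (Ideal.mem_sup_right (Ideal.mem_span_singleton_self _))
        (Ideal.mem_sup_left hdiff)
  obtain ⟨b, hb⟩ : b₀ ∣ Ideal.span {α} := Ideal.dvd_iff_le.2 (le_sup_right.trans hsup.le)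
  have hcop : Ideal.span {(f₁ : 𝓞 M)} ⊔ b = ⊤ := by
    apply mul_left_cancel₀ hb0
    rw [Ideal.mul_sup, ← hb, hsup, Ideal.mul_top]
  have hαb : α ∈ b := by
    have : Ideal.span {α} ≤ b := hb ▸ Ideal.mul_le_right
    exact this (Ideal.mem_span_singleton_self _)
  have hf₁b : ∀ q : ℕ, q.Prime → q ∣ Ideal.absNorm b → ¬ q ∣ f₁ := fun q hq h1 h2 => by
    obtain ⟨P, hP, h3, h4⟩ := max_of_dvd b q hq h1
    refine hP (top_le_iff.1 (hcop.ge.trans (sup_le ?_ h3)))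
    obtain ⟨k, hk⟩ := h2
    rw [Ideal.span_singleton_le_iff_mem, hk, Nat.cast_mul]
    exact Ideal.mul_mem_right _ _ h4
  have hbne : b ≠ 0 := by
    rintro rfl
    exact hf₁b 2 Nat.prime_two (by simp) (dvd_mul_right _ _)
  have hev : ∀ g : ℤ[X], aeval β g - (g.eval (-(t * (N * f₁ : ℕ) : ℤ)) : ℤ) ∈ b := fun g => by
    have h1 := aeval_algebraMap_apply_eq_algebraMap_eval (A := 𝓞 M) (-(t * (N * f₁ : ℕ) : ℤ)) g
    have h2 := sub_dvd_eval_sub β (algebraMap ℤ (𝓞 M) (-(t * (N * f₁ : ℕ) : ℤ)))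
      (g.map (algebraMap ℤ (𝓞 M)))
    rw [eval_map_algebraMap, eval_map_algebraMap, h1] at h2
    have h3 : β - algebraMap ℤ (𝓞 M) (-(t * (N * f₁ : ℕ) : ℤ)) = α := by
      rw [hα]
      simp
    rw [h3] at h2
    exact Ideal.mem_of_dvd _ h2 hαb
  have hIb : (Ideal.absNorm b).Coprime I.natAbs := by
    refine Nat.coprime_of_dvd fun q hq h1 h2 => ?_
    obtain ⟨P, hP, h3, h4⟩ := max_of_dvd b q hq h1
    have h5 := ht q (Finset.mem_filter.2 ⟨Nat.mem_primeFactors.2 ⟨hq, h2, by simpa using hI0⟩,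
      hf₁b q hq h1⟩)
    have h6 := h3 (hev (minpoly ℤ β))
    rw [minpoly.aeval, zero_sub, neg_mem_iff] at h6
    obtain ⟨u, v, huv⟩ := ((Nat.prime_iff_prime_int.1 hq).coprime_iff_not_dvd).2 h5
    refine hP ((Ideal.eq_top_iff_one _).2 ?_)
    have h7 := congrArg (Int.cast : ℤ → 𝓞 M) huv
    push_cast at h7 h6
    rw [← h7]
    exact add_mem (Ideal.mul_mem_left _ _ h4) (Ideal.mul_mem_left _ _ h6)
  refine ⟨α, b, ?_, hbne, hb, ?_, fun x => ?_⟩
  · obtain ⟨z, hz⟩ := hone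
    refine ⟨z + N * (2 * (f * (N * d.factorial))) * (y + t), ?_⟩
    rw [hα, hβ, hz, hf₁]
    push_cast
    ring
  · exact Nat.coprime_of_dvd fun q hq h1 h2 => hf₁b q hq h1 ((h2.mul_right _).mul_left _)
  · obtain ⟨u, v, huv⟩ : IsCoprime (Ideal.absNorm b : ℤ) I := by
      rw [Int.isCoprime_iff_gcd_eq_one]
      simpa [Int.gcd] using hIb
    obtain ⟨g, hg⟩ := hI x
    refine ⟨v * g.eval (-(t * (N * f₁ : ℕ) : ℤ)), ?_⟩
    have h7 := congrArg (Int.cast : ℤ → 𝓞 M) huv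
    rw [Int.cast_add, Int.cast_mul, Int.cast_mul, Int.cast_one, Int.cast_natCast] at h7
    have h8 : x - ((v * g.eval (-(t * (N * f₁ : ℕ) : ℤ)) : ℤ) : 𝓞 M) =
        u * x * (Ideal.absNorm b : 𝓞 M) +
          v * (aeval β g - (g.eval (-(t * (N * f₁ : ℕ) : ℤ)) : ℤ)) := by
      rw [← hg, Int.cast_mul]
      linear_combination (-x) * h7
    change _ ∈ b
    rw [h8]
    exact add_mem (Ideal.mul_mem_left _ _ (Ideal.absNorm_mem b)) (Ideal.mul_mem_left _ _ (hev g))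

end Pool.Agent.Lib.MP_9177b7_ag.B.U.V
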