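import Pool.Agent.Lib.MP_9177b7_ag.V.St
import Pool.Agent.Lib.MP_9177b7_ag.B.Cyc

/-!
Finiteness of the ray class group; norms preserve the congruence.
-/

open NumberField
open scoped nonZeroDivisors

noncomputable section

namespace Pool.Agent.Lib.MP_9177b7_ag.B.U.V

namespace Ray

section ring

variable {R : Type} [CommRing R] {l : ℕ}

lemma one_iff {x : R} : One l x ↔ Ideal.Quotient.mk (Ideal.span {(l : R)}) x = 1 := by
  rw [← map_one (Ideal.Quotient.mk (Ideal.span {(l : R)})), Ideal.Quotient.eq,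
    Ideal.mem_span_singleton]
  exact ⟨fun ⟨y, h⟩ => ⟨y, by rw [h]; ring⟩, fun ⟨y, h⟩ => ⟨y, by rw [← h]; ring⟩⟩

lemma one_one : One l (1 : R) := ⟨0, by simp⟩

lemma one_mul' {x y : R} (h : One l x) (h' : One l y) : One l (x * y) := by
  rw [one_iff] at *; rw [map_mul, h, h', one_mul]

lemma one_prod {ι : Type} (s : Finset ι) {f : ι → R} (h : ∀ i ∈ s, One l (f i)) :
    One l (∏ i ∈ s, f i) :=
  Finset.prod_induction f (One l) (fun _ _ => one_mul') one_one h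

lemma cop_top : Cop l (⊤ : Ideal R) := ⟨1, trivial, one_one⟩

lemma cop_mul {b b' : Ideal R} (h : Cop l b) (h' : Cop l b') : Cop l (b * b') := by
  obtain ⟨x, hx, h⟩ := h
  obtain ⟨y, hy, h'⟩ := h'
  exact ⟨x * y, Ideal.mul_mem_mul hx hy, one_mul' h h'⟩

lemma cop_pow {b : Ideal R} (h : Cop l b) (k : ℕ) : Cop l (b ^ k) := by
  induction k with
  | zero => rw [pow_zero, Ideal.one_eq_top]; exact cop_top
  | succ k ih => rw [pow_succ]; exact cop_mul ih h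

lemma unit_of_cop {w : R} (h : Cop l (Ideal.span {w})) :
    IsUnit (Ideal.Quotient.mk (Ideal.span {(l : R)}) w) := by
  obtain ⟨x, hx, h⟩ := h
  obtain ⟨t, rfl⟩ := Ideal.mem_span_singleton.1 hx
  rw [one_iff, map_mul] at h
  exact IsUnit.of_mul_eq_one _ h

end ring

variable {M : Type} [Field M] [NumberField M] {l : ℕ}

lemma fin (hl : l ≠ 0) : Finite (𝓞 M ⧸ Ideal.span {(l : 𝓞 M)}) :=
  Ideal.finiteQuotientOfFreeOfNeBot _ (by simpa using hl)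

lemma pow (hl : l ≠ 0) : ∃ m : ℕ, ∀ w : 𝓞 M, Cop l (Ideal.span {w}) → One l (w ^ (m + 1)) := by
  have := fin (M := M) hl
  obtain ⟨m, hm⟩ := Nat.exists_eq_succ_of_ne_zero
    (Nat.card_pos (α := (𝓞 M ⧸ Ideal.span {(l : 𝓞 M)})ˣ)).ne'
  refine ⟨m, fun w hw => ?_⟩
  obtain ⟨u, hu⟩ := unit_of_cop hw
  rw [one_iff, map_pow, ← hu, ← Units.val_pow_eq_pow_val, ← Nat.succ_eq_add_one, ← hm,
    pow_card_eq_one', Units.val_one]

lemma cop_iff (b : Ideal (𝓞 M)) : Cop l b ↔ (Ideal.absNorm b).Coprime l := by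
  constructor
  · rintro ⟨x, hx, y, rfl⟩
    refine Nat.coprime_of_dvd fun q hq h1 h2 => ?_
    obtain ⟨P, hP, hb, hq'⟩ := Cyc.max_of_dvd b q hq h1
    obtain ⟨t, rfl⟩ := h2
    refine hP ((Ideal.eq_top_iff_one _).2 ?_)
    have := P.sub_mem (hb hx) (P.mul_mem_right (t * y) hq')
    convert this using 1
    push_cast; ring
  · intro h
    obtain ⟨u, v, e⟩ := Nat.isCoprime_iff_coprime.2 h
    refine ⟨u * (Ideal.absNorm b : ℕ), b.mul_mem_left _ (Ideal.absNorm_mem b), -v, ?_⟩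
    have := congrArg (Int.cast : ℤ → 𝓞 M) e
    push_cast at this
    linear_combination this

lemma rep (hl : l ≠ 0) (x : ClassGroup (𝓞 M)) :
    ∃ b : (Ideal (𝓞 M))⁰, ClassGroup.mk0 b = x ∧ Cop l b.1 := by
  obtain ⟨b, h1, h2, -⟩ := B.cyc M l x hl
  exact ⟨b, h1, (cop_iff _).2 h2⟩

lemma expo (hl : l ≠ 0) : ∃ h : ℕ, ∀ b : Ideal (𝓞 M), b ≠ ⊥ → Cop l b →
    ∃ z, One l z ∧ b ^ (h + 1) = Ideal.span {z} := by
  obtain ⟨m, hm⟩ := pow (M := M) hl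
  obtain ⟨k, hk⟩ := Nat.exists_eq_succ_of_ne_zero (Nat.card_pos (α := ClassGroup (𝓞 M))).ne'
  refine ⟨k * (m + 1) + m, fun b hb hc => ?_⟩
  have h0 : b ∈ (Ideal (𝓞 M))⁰ := mem_nonZeroDivisors_of_ne_zero hb
  have h1 : ClassGroup.mk0 ⟨b ^ (k + 1), pow_mem h0 _⟩ = 1 := by
    have : (⟨b ^ (k + 1), pow_mem h0 _⟩ : (Ideal (𝓞 M))⁰) = ⟨b, h0⟩ ^ (k + 1) := rfl
    rw [this, map_pow, ← Nat.succ_eq_add_one, ← hk, pow_card_eq_one']
  obtain ⟨w, hw⟩ := (ClassGroup.mk0_eq_one_iff _).1 h1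
  have hw' : b ^ (k + 1) = Ideal.span {w} := hw
  refine ⟨w ^ (m + 1), hm w (hw' ▸ cop_pow hc _), ?_⟩
  rw [← Ideal.span_singleton_pow, ← hw', ← pow_mul]
  congr 1; ring

lemma cls (hl : l ≠ 0) : ∃ (Γ : Type) (_ : Finite Γ) (ι : Ideal (𝓞 M) → Γ),
    ∀ b b' : Ideal (𝓞 M), b ≠ ⊥ → b' ≠ ⊥ → Cop l b → Cop l b' → ι b = ι b' → RayEq l b b' := by
  classical
  have := fin (M := M) hl
  obtain ⟨m, hm⟩ := pow (M := M) hl
  choose r hr hr' using fun x : ClassGroup (𝓞 M) => rep hl x⁻¹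
  have h1 : ∀ b : (Ideal (𝓞 M))⁰, ∃ g ≠ (0 : 𝓞 M),
      b.1 * (r (ClassGroup.mk0 b)).1 = Ideal.span {g} := fun b =>
    ClassGroup.mk0_eq_mk0_inv_iff.1 (by rw [hr, inv_inv])
  choose g hg hg' using h1
  refine ⟨Option (ClassGroup (𝓞 M) × (𝓞 M ⧸ Ideal.span {(l : 𝓞 M)})), inferInstance,
    fun b => if h : b ∈ (Ideal (𝓞 M))⁰ then
      some (ClassGroup.mk0 ⟨b, h⟩, Ideal.Quotient.mk _ (g ⟨b, h⟩)) else none,
    fun b b' hb hb' hc _ e => ?_⟩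
  have h0 : b ∈ (Ideal (𝓞 M))⁰ := mem_nonZeroDivisors_of_ne_zero hb
  have h0' : b' ∈ (Ideal (𝓞 M))⁰ := mem_nonZeroDivisors_of_ne_zero hb'
  simp only [dif_pos h0, dif_pos h0', Option.some.injEq, Prod.mk.injEq] at e
  have e1 := hg' ⟨b, h0⟩
  have e2 := hg' ⟨b', h0'⟩
  have n1 := hg ⟨b, h0⟩
  have n2 := hg ⟨b', h0'⟩
  rw [← e.1] at e2
  have c1 := hm _ (e1 ▸ cop_mul hc (hr' _))
  have nr := nonZeroDivisors.coe_ne_zero (r (ClassGroup.mk0 ⟨b, h0⟩))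
  obtain ⟨-, e3⟩ := e
  generalize g ⟨b, h0⟩ = x at *
  generalize g ⟨b', h0'⟩ = y at *
  refine ⟨x ^ m * y, x ^ (m + 1), ?_, c1, mul_ne_zero (pow_ne_zero _ n1) n2, pow_ne_zero _ n1, ?_⟩
  · rw [one_iff] at c1 ⊢
    rwa [map_mul, ← e3, ← map_mul, ← pow_succ]
  · refine mul_right_cancel₀ nr ?_
    rw [mul_assoc, mul_assoc, e1, e2, Ideal.span_singleton_mul_span_singleton,
      Ideal.span_singleton_mul_span_singleton]
    congr 2; ring

end Ray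

theorem ray : RayStmt := fun _ _ _ _ hl => ⟨Ray.expo hl, Ray.cls hl, Ray.rep hl, Ray.cop_iff⟩

theorem nrm : NrmStmt := by
  intro K L _ _ _ _ _ l x hx
  obtain ⟨y, rfl⟩ := hx
  rcases eq_or_ne l 0 with rfl | hl
  · simpa using Ray.one_one
  let E := AlgebraicClosure K
  have h1 : One l (∏ σ : L →ₐ[K] E, (1 + l * ⟨σ y, y.isIntegral_coe.map (σ.restrictScalars ℤ)⟩ :
      integralClosure ℤ E)) := Ray.one_prod _ fun σ _ => ⟨_, rfl⟩
  obtain ⟨w, hw⟩ := h1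
  set N := Algebra.intNorm (𝓞 K) (𝓞 L) (1 + l * y) with hN
  have h2 : algebraMap K E (N : K) = 1 + l * (w : E) := by
    have e : (N : K) = Algebra.norm K ((1 + l * y : 𝓞 L) : L) :=
      Algebra.algebraMap_intNorm (K := K) (L := L) _
    have e' := congrArg (integralClosure ℤ E).val hw
    rw [e, Algebra.norm_eq_prod_embeddings K E]
    simpa [map_prod] using e'
  have hl' : (l : K) ≠ 0 := Nat.cast_ne_zero.2 hl
  have hE : (l : E) ≠ 0 := Nat.cast_ne_zero.2 hl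
  have h3 : IsIntegral ℤ (((N : K) - 1) / l) := by
    rw [← isIntegral_algebraMap_iff (algebraMap K E).injective, map_div₀, map_sub, h2, map_one,
      map_natCast, add_sub_cancel_left, mul_div_cancel_left₀ _ hE]
    exact w.2
  obtain ⟨z, hz⟩ : ∃ z : 𝓞 K, (z : K) = ((N : K) - 1) / l := ⟨⟨_, h3⟩, rfl⟩
  refine ⟨z, RingOfIntegers.ext ?_⟩
  have e : ((1 + l * z : 𝓞 K) : K) = 1 + l * (z : K) := by simp
  rw [e, hz]
  field_simp
  ring

end Pool.Agent.Lib.MP_9177b7_ag.B.U.V
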