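import Pool.Agent.Lib.MP_9177b7_ag.V.St
import Pool.Agent.Lib.MP_9177b7_ag.U.Orb
import Pool.Agent.Lib.MP_9177b7_ag.U.Frame

/-!
Equality of points at level `l`.
-/

open NumberField Matrix
open scoped nonZeroDivisors ComplexConjugate

noncomputable section

namespace Pool.Agent.Lib.MP_9177b7_ag.B.U.V

namespace RelL

open OrbU

/-- A matrix that transports a diagonal form and its majorant respects the signs. -/
theorem entry_zero {ι : Type} [Fintype ι] [DecidableEq ι] (A A' B : Matrix ι ι ℂ) (d d' : ι → ℝ)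
    (s : ℝ) (hB : B * A = 1)
    (h1 : A'ᴴ * diagonal (fun i => (d' i : ℂ)) * A' = Aᴴ * diagonal (fun i => (d i : ℂ)) * A)
    (h2 : A'ᴴ * diagonal (fun i => ((|d' i| : ℝ) : ℂ)) * A' =
      Aᴴ * diagonal (fun i => ((|d i| : ℝ) : ℂ)) * A) (hs : |s| = 1) {i j : ι}
    (hi : 0 < s * d' i) (hj : s * d j < 0) : (A' * B) i j = 0 := by
  have hB' : A * B = 1 := mul_eq_one_comm.1 hB
  have key : ∀ E E' : Matrix ι ι ℂ, A'ᴴ * E' * A' = Aᴴ * E * A →
      (A' * B)ᴴ * E' * (A' * B) = E := fun E E' h => by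
    calc _ = Bᴴ * (A'ᴴ * E' * A') * B := by simp only [conjTranspose_mul, mul_assoc]
      _ = (A * B)ᴴ * E * (A * B) := by rw [h]; simp only [conjTranspose_mul, mul_assoc]
      _ = E := by rw [hB', conjTranspose_one, one_mul, mul_one]
  have ent : ∀ f : ι → ℝ, ((A' * B)ᴴ * diagonal (fun i => (f i : ℂ)) * (A' * B)) j j =
      ((∑ l, f l * ‖(A' * B) l j‖ ^ 2 : ℝ) : ℂ) := fun f => by
    generalize A' * B = T
    rw [mul_apply]
    push_cast
    refine Finset.sum_congr rfl fun l _ => ?_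
    rw [mul_diagonal, conjTranspose_apply, ← Complex.conj_mul', Complex.star_def]
    ring
  have a1 := congrFun (congrFun (key _ _ h1) j) j
  have a2 := congrFun (congrFun (key _ _ h2) j) j
  rw [ent, diagonal_apply_eq] at a1
  rw [ent fun i => |d' i|, diagonal_apply_eq] at a2
  have b1 := Complex.ofReal_injective a1
  have b2 := Complex.ofReal_injective a2
  have ab : ∀ x : ℝ, |s * x| = |x| := fun x => by rw [abs_mul, hs, one_mul]
  have z : ∑ l, (s * d' l + |d' l|) * ‖(A' * B) l j‖ ^ 2 = 0 := by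
    simp only [add_mul, Finset.sum_add_distrib, mul_assoc, ← Finset.mul_sum, b1, b2]
    rw [← ab, abs_of_neg hj, add_neg_cancel]
  have z := (Finset.sum_eq_zero_iff_of_nonneg fun l _ =>
    mul_nonneg (by linarith [neg_abs_le (s * d' l), ab (d' l)]) (sq_nonneg _)).1 z i
    (Finset.mem_univ _)
  have : 0 < s * d' i + |d' i| := by positivity
  simpa [this.ne'] using z

variable [Sg] {n p : ℕ} [Fact p.Prime] (c : Ctx p) (l : ℕ)

theorem rel_equiv :
    Equivalence fun Q Q' : Cone n => ∃ g, Gam n c.K l g ∧ Q'.1 = gᴴ * Q.1 * g where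
  refl v := ⟨1, ⟨by simp, 0, fun _ _ => zero_mem _, by simp⟩, by simp⟩
  symm := by
    rintro v w ⟨g, ⟨h, z, hz, hg⟩, e⟩
    refine ⟨adj g, ⟨?_, adj z, adj_OK c hz, ?_⟩, by rw [e, adj_conj h]⟩
    · have := adj_conj h (Jm n ℂ)
      rwa [h] at this
    · simp [hg, adj, mul_add, add_mul, Jm_mul_Jm]
  trans := by
    rintro u v w ⟨g, ⟨h, z, hz, hg⟩, e⟩ ⟨g', ⟨h', z', hz', hg'⟩, e'⟩
    refine ⟨g * g', ⟨?_, z + z' + (l : ℂ) • (z * z'), fun i j => ?_, ?_⟩, ?_⟩
    · calc _ = g'ᴴ * (gᴴ * Jm n ℂ * g) * g' := by simp only [conjTranspose_mul, mul_assoc]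
        _ = _ := by rw [h, h']
    · refine add_mem (add_mem (hz i j) (hz' i j)) (mul_mem (natCast_mem _ l) ?_)
      rw [mul_apply]
      exact sum_mem fun k _ => mul_mem (hz _ _) (hz' _ _)
    · simp only [hg, hg', mul_add, add_mul, one_mul, mul_one, smul_add, smul_mul_assoc,
        mul_smul_comm]
      abel
    · rw [e', e]
      simp only [conjTranspose_mul, mul_assoc]

variable {c l} (D : Dat n c)

theorem sum_one (δ : Matrix (Fin (n + 3)) (Fin (n + 3)) c.K) (e : Fin (n + 3) → D.L) (k) :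
    ∑ i, algebraMap c.K D.L ((1 + (l : c.K) • δ) i k) * e i =
      e k + l * ∑ i, algebraMap c.K D.L (δ i k) * e i := by
  simp [one_apply, add_mul, Finset.sum_add_distrib, Finset.mul_sum, mul_assoc, apply_ite]

theorem two (hI : ∀ x ∈ Rl c l, IsIntegral ℤ ((l : c.K) * x) → IsIntegral ℤ x) {a : D.FI}
    {e e' : Fin (n + 3) → D.L} {v w : Cone n} (h : D.Fr a e) (h' : D.Fr a e') (hc : Cg l D e e')
    (hv : v.1 = maj n c.K D.lam e) (hw : w.1 = maj n c.K D.lam e') :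
    (Quot.mk _ v : SSl n c.K l) = Quot.mk _ w := by
  have H := (frame n p c D).2.2.2.2.2.2.2.2.2.2.2.2.2.2.2.2.2.2
  obtain ⟨-, -, -, hd, -, -, -, -, -, -, hU⟩ := H _ _ h
  obtain ⟨δ, h1, h2⟩ := hc
  have co : ∀ (y : Fin (n + 3) → c.K) i,
      Algebra.trace c.K D.L ((∑ j, algebraMap c.K D.L (y j) * e j) * D.du e i) = y i := by
    intro y i
    simp only [Finset.sum_mul, map_sum, ← Algebra.smul_def, smul_mul_assoc, map_smul, smul_eq_mul]
    simp [hd]
  have h3 : (Matrix.of fun i k => Algebra.trace c.K D.L (e' k * D.du e i)) = 1 + (l : c.K) • δ := by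
    ext i k
    rw [of_apply, h2, ← sum_one, co]
  refine Quot.sound ⟨(1 + (l : c.K) • δ).map (algebraMap c.K ℂ), ⟨(uni_iff c _).1 (h3 ▸ hU _ _ h'),
    δ.map (algebraMap c.K ℂ), fun i k => (mem_OK c _).2 (hI _ (h1 i k) ?_), ?_⟩, ?_⟩
  · obtain ⟨y, hy⟩ := (h.2 _).1 ((H _ _ h').2.1 k)
    have h4 := congrFun (congrFun h3 i) k
    rw [of_apply, hy, co fun j => (y j : c.K), Matrix.add_apply, Matrix.smul_apply,
      smul_eq_mul, ← sub_eq_iff_eq_add'] at h4
    rw [← h4, one_apply]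
    refine (y i).isIntegral_coe.sub ?_
    split_ifs
    exacts [isIntegral_one, isIntegral_zero]
  · ext i k
    simp [one_apply, apply_ite]
  · rw [hv, hw, ← maj_mat]
    congr 1
    funext k
    rw [sum_one, h2]

theorem prop {lam' : D.L} {a a' : D.FI} {e e' : Fin (n + 3) → D.L} (hl : D.bar lam' = lam')
    (h : D.Fr a e) (h' : Frame n c.K lam' a' e') (hm : maj n c.K lam' e' = maj n c.K D.lam e) :
    ∃ u : D.L, e' = fun k => u * e k := by
  obtain ⟨-, -, -, ht, -, -, -, -, -, -, -, -, -, -, -, -, hs, -, H⟩ := frame n p c D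
  have g1 : (D.Φm e')ᴴ * diagonal (fun i => D.Φ i lam') * D.Φm e' = (Jm n ℂ)ᵀ := by
    ext k l
    have e1 := ht (lam' * e' l * D.bar (e' k))
    rw [h'.1] at e1
    rw [sand, transpose_apply, ← Jm_map (algebraMap c.K ℂ), map_apply]
    refine Eq.trans (Finset.sum_congr rfl fun i _ => ?_) e1.symm
    rw [map_mul, map_mul, phi_bar]
    ring
  have g2 : maj n c.K lam' e' = (D.Φm e')ᴴ * diagonal (fun i => (‖D.Φ i lam'‖ : ℂ)) * D.Φm e' := by
    ext k l
    rw [sand, maj, of_apply, ← D.Φ.sum_comp]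
  have hd := (H a e h).2.2.2.2.2.2.1
  have r : ∀ x : D.L, (∀ i, (D.Φ i x).im = 0) →
      (fun i => D.Φ i x) = (fun i => (((D.Φ i x).re : ℝ) : ℂ)) ∧
      (fun i => (‖D.Φ i x‖ : ℂ)) = fun i => ((|(D.Φ i x).re| : ℝ) : ℂ) := fun x hx =>
    have r1 : (fun i => D.Φ i x) = fun i => (((D.Φ i x).re : ℝ) : ℂ) :=
      funext fun i => Complex.ext rfl (hx i)
    ⟨r1, funext fun i => by
      rw [congrFun r1 i, Complex.norm_real, Complex.ofReal_re, Real.norm_eq_abs]⟩
  have im : ∀ i, (D.Φ i lam').im = 0 := fun i =>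
    Complex.conj_eq_iff_im.1 (by rw [← phi_bar, hl])
  rw [← gram D frame h, (r _ im).1, (r _ fun i => (hs i).1).1] at g1
  rw [g2, maj_eq, (r _ im).2, (r _ fun i => (hs i).1).2] at hm
  have n0 : ¬ Ng (0 : Fin (n + 3)) := by
    rintro (h0 | h0)
    · exact zero_ne_one h0
    · change Sg.s 0 = -1 at h0
      rw [Sg.s0] at h0
      exact absurd h0 (by decide)
  have l0 : (D.Φ 2 lam').re ≠ 0 := fun e0 => by
    have h1 := h'.1 0 1
    rw [(map_eq_zero (D.Φ 2)).1 (Complex.ext e0 (im 2)), zero_mul, zero_mul, map_zero, Jm_apply,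
      Equiv.swap_apply_left, if_pos rfl, sg_zero] at h1
    exact zero_ne_one h1
  have t2 : 2 % (n + 3) = 2 := Nat.mod_eq_of_lt (by omega)
  obtain ⟨z, h3⟩ : ∃ z : ℂ, ∀ k, D.Φ 2 (e' k) = z * D.Φ 2 (e k) := by
    rcases l0.lt_or_gt with q | q
    · exact Orb0.prop_of D.Φ D.sp.gal e e' (D.du e) hd (j := 0) (Fin.ne_of_val_ne (by simp [t2]))
        (entry_zero _ _ _ _ _ (-1) hd g1 hm (by simp) (by linarith)
          (by linarith [(hs 0).2 n0]))
    · exact Orb0.prop_of D.Φ D.sp.gal e e' (D.du e) hd (j := 1) (Fin.ne_of_val_ne (by simp [t2]))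
        (entry_zero _ _ _ _ _ 1 hd g1 hm abs_one (by linarith)
          (by linarith [(D.Φ_neg 1).2 (Or.inl rfl)]))
  have h0' : D.Φ 2 (e 0) ≠ 0 := (map_ne_zero (D.Φ 2)).2 (ne_zero D h)
  refine ⟨e' 0 / e 0, funext fun k => (D.Φ 2).toRingHom.injective ?_⟩
  change D.Φ 2 _ = D.Φ 2 _
  rw [map_mul, map_div₀, h3, h3, mul_div_cancel_right₀ _ h0']

theorem scale {lam' u : D.L} {a a' : D.FI} {e : Fin (n + 3) → D.L} (h : D.Fr a e)
    (h' : Frame n c.K lam' a' fun k => u * e k) :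
    D.lam = lam' * (u * D.bar u) ∧ a' = FractionalIdeal.spanSingleton _ u * a := by
  obtain ⟨-, -, -, -, -, -, -, -, -, -, -, -, -, -, -, l0, -, -, H⟩ := frame n p c D
  have hx := (H _ _ h).2.2.1
  refine ⟨?_, FractionalIdeal.ext fun x => ?_⟩
  · rw [eq_comm, ← div_eq_one_iff_eq l0]
    refine mul_right_cancel₀ (ne_zero D h) ?_
    rw [one_mul, hx (_ * e 0)]
    conv_rhs => rw [hx (e 0)]
    refine Finset.sum_congr rfl fun i _ => ?_
    have e1 := h'.1 0 (Equiv.swap 0 1 i)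
    rw [← h.1 0 (Equiv.swap 0 1 i)] at e1
    have e2 : ∀ x : D.L, Algebra.trace c.K D.L (sg D.L i * x) =
        sg c.K i * Algebra.trace c.K D.L x := fun x => by
      rw [← map_sg (algebraMap c.K D.L), ← Algebra.smul_def, map_smul, smul_eq_mul]
    have e3 := congrArg (sg c.K i * ·) e1
    simp only [← e2] at e3
    congr 2
    convert e3 using 2 <;> simp only [Dat.du, Dat.bar, map_mul] <;> field_simp
  · rw [h'.2, FractionalIdeal.mem_singleton_mul]
    simp only [h.2, mul_left_comm _ u, ← Finset.mul_sum]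
    exact ⟨fun ⟨y, e⟩ => ⟨_, ⟨y, rfl⟩, e⟩, fun ⟨_, ⟨y, e⟩, e'⟩ => ⟨y, e ▸ e'⟩⟩

end RelL

variable [Sg]

open RelL OrbU in
theorem relL (hC : CgStmt) (hD : DiscLStmt) : RelLStmt := by
  classical
  intro n p _ c l hl
  have l0 : l ≠ 0 := fun e => (Fact.out : p.Prime).ne_one (by simpa [e] using hl)
  have hI := (hD n p c l hl).2.1
  refine ⟨fun D u e hu => maj_mul D hu e, fun D a e e' v w => two D hI,
    fun D lam' a a' e e' v w hb h h' hv hw hr => ?_,
    Nat.card (Matrix (Fin (n + 3)) (Fin (n + 3)) (𝓞 c.K ⧸ Ideal.span {(l : 𝓞 c.K)})),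
    fun D a => ?_⟩
  · have H := (frame n p c D).2.2.2.2.2.2.2.2.2.2.2.2.2.2.2.2.2.2
    obtain ⟨g, ⟨hg, z, hi, rfl⟩, hz⟩ := (RelL.rel_equiv c l).eqvGen_iff.1 (Quot.eq.1 hr)
    let δ : Matrix (Fin (n + 3)) (Fin (n + 3)) c.K := Matrix.of fun i k => ⟨z i k, (hi i k).1⟩
    have hγ : (1 + (l : c.K) • δ).map (algebraMap c.K ℂ) = 1 + (l : ℂ) • z := by
      ext i k
      simp [one_apply, apply_ite, δ]
    have hδ : ∀ i k, IsIntegral ℤ (δ i k) := fun i k => (mem_OK c _).1 (hi i k)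
    have h2 := (H a e h).2.2.2.2.2.2.2.2.2.1 _ ((uni_iff c _).2 (hγ ▸ hg)) fun i k => by
      rw [Matrix.add_apply, Matrix.smul_apply, smul_eq_mul, one_apply]
      refine IsIntegral.add ?_ (IsIntegral.mul (isIntegral_natCast l) (hδ i k))
      split_ifs
      exacts [isIntegral_one, isIntegral_zero]
    have hV := maj_mat D (1 + (l : c.K) • δ) e
    rw [hγ, ← hv, ← hz, hw] at hV
    obtain ⟨u, rfl⟩ := RelL.prop D hb h2 h' hV.symm
    exact ⟨u, (scale D h2 h').1, (scale D h2 h').2, (hC n p c l D l0).2.2.2.1 u _ _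
      ⟨δ, fun i k => ⟨1, Nat.coprime_one_left l, by simpa using hδ i k⟩, sum_one D δ e⟩⟩
  · by_cases h0 : ∃ e, D.Fr a e
    swap
    · exact ⟨∅, Nat.zero_le _, fun e v h _ => (h0 ⟨e, h⟩).elim⟩
    obtain ⟨e₀, h0⟩ := h0
    have H := (frame n p c D).2.2.2.2.2.2.2.2.2.2.2.2.2.2.2.2.2.2
    obtain ⟨v₀, -⟩ := (H _ _ h0).2.2.2.2.2.2.2.1
    have : Finite (𝓞 c.K ⧸ Ideal.span {(l : 𝓞 c.K)}) :=
      Ideal.finiteQuotientOfFreeOfNeBot _ (by simpa using l0)
    have := Fintype.ofFinite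
      (Matrix (Fin (n + 3)) (Fin (n + 3)) (𝓞 c.K ⧸ Ideal.span {(l : 𝓞 c.K)}))
    have key : ∀ r : Matrix (Fin (n + 3)) (Fin (n + 3)) (𝓞 c.K ⧸ Ideal.span {(l : 𝓞 c.K)}),
        ∃ x : SSl n c.K l, ∀ (e : Fin (n + 3) → D.L) (v : Cone n)
          (γ : Fin (n + 3) → Fin (n + 3) → 𝓞 c.K), D.Fr a e → v.1 = maj n c.K D.lam e →
          (∀ k, e k = ∑ i, algebraMap c.K D.L (γ k i) * e₀ i) →
          (∀ k i, Ideal.Quotient.mk _ (γ k i) = r k i) → Quot.mk _ v = x := fun r => by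
      by_contra! hn
      obtain ⟨e, v, γ, h1, h2, h3, h4, -⟩ := hn (Quot.mk _ v₀)
      obtain ⟨e', w, γ', h1', h2', h3', h4', h5⟩ := hn (Quot.mk _ v)
      refine h5 (two D hI h1 h1' (((hC n p c l D l0).2.2.2.2.1 a e e' h1).1
        ⟨1, Nat.coprime_one_left l, fun k => ?_⟩) h2 h2').symm
      choose y hy using fun i => Ideal.mem_span_singleton'.1
        (Ideal.Quotient.eq.1 ((h4' k i).trans (h4 k i).symm))
      refine ⟨_, (h0.2 _).2 ⟨y, rfl⟩, ?_⟩
      rw [h3, h3', Nat.cast_one, one_mul, ← Finset.sum_sub_distrib, Finset.mul_sum]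
      refine Finset.sum_congr rfl fun i _ => ?_
      have := congrArg (fun x : 𝓞 c.K => algebraMap c.K D.L x) (hy i)
      simp only [map_mul, map_sub, map_natCast] at this
      linear_combination -e₀ i * this
    choose F hF using key
    refine ⟨Finset.univ.image F, Finset.card_image_le.trans (by simp), fun e v h hv => ?_⟩
    choose γ hγ using fun k => (h0.2 _).1 ((H _ _ h).2.1 k)
    exact Finset.mem_image.2 ⟨Matrix.of fun k i => Ideal.Quotient.mk _ (γ k i), Finset.mem_univ _,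
      (hF _ e v γ h hv hγ fun _ _ => rfl).symm⟩

end Pool.Agent.Lib.MP_9177b7_ag.B.U.V
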