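import Pool.Agent.Lib.MP_9177b7_ag.V.St

/-! Level `l`: tubes and neighbourhoods of the cusps. -/

open NumberField Matrix Filter Topology

noncomputable section

namespace Pool.Agent.Lib.MP_9177b7_ag.B.U.V

namespace TubeL

theorem lift {X Y : Type} [TopologicalSpace X] [TopologicalSpace Y] [WeaklyLocallyCompactSpace X]
    {f : X → Y} (ho : IsOpenMap f) (hs : Function.Surjective f) {Q : Set Y} (hQ : IsCompact Q) :
    ∃ Q' : Set X, IsCompact Q' ∧ Q ⊆ f '' Q' := by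
  choose g hg using hs
  choose U hU hU' using fun x : X => exists_compact_mem_nhds x
  obtain ⟨t, -, ht⟩ := hQ.elim_nhds_subcover (fun y => f '' U (g y)) fun y _ => by
    have := ho.image_mem_nhds (hU' (g y))
    rwa [hg] at this
  refine ⟨⋃ y ∈ t, U (g y), t.isCompact_biUnion fun y _ => hU _, ?_⟩
  rwa [Set.image_iUnion₂]

end TubeL

variable [Sg]

theorem tubeL : TubeStmt → DiscLStmt → TubeLStmt := by
  intro hT hD n p _ c l hl
  obtain ⟨-, -, -, h4, ⟨s, hs⟩, -⟩ := hD n p c l hl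
  obtain ⟨t1, ⟨R, O, hO, t2⟩, t3⟩ := hT n p c
  refine ⟨fun I c₀ k R => ⟨QuotientGroup.isOpenMap_coe _ ?_, fun g => ⟨?_, fun h => ⟨g, h, rfl⟩⟩⟩,
    ⟨R, O, hO, fun I k x => ?_⟩, fun ε hε => ?_⟩
  · rw [show c.Wg I c₀ k R = QuotientGroup.mk ⁻¹' c.WW I c₀ k R from
      Set.ext fun g => ((t1 I c₀ k R).2 g).symm]
    exact (t1 I c₀ k R).1.preimage QuotientGroup.continuous_mk
  · rintro ⟨g', h, e⟩
    exact ((t1 I c₀ k R).2 g).1 ⟨g', h, QuotientGroup.eq.2 (h4 (QuotientGroup.eq.1 e))⟩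
  · obtain ⟨g, rfl⟩ := QuotientGroup.mk_surjective x
    obtain ⟨c₀, h⟩ := t2 I k (QuotientGroup.mk g)
    refine ⟨c₀, ?_⟩
    rintro _ ⟨h', hh, u, hu, rfl⟩
    exact ⟨(h', u) * g, ((t1 I c₀ k R).2 _).1 (h ⟨h', hh, u, hu, rfl⟩), rfl⟩
  · obtain ⟨Q, hQ, h⟩ := t3 ε hε
    obtain ⟨Q', hQ', hl'⟩ := TubeL.lift QuotientGroup.isOpenMap_coe QuotientGroup.mk_surjective hQ
    refine ⟨⋃ r ∈ s, (fun q : GG n p => QuotientGroup.mk (q * r)) '' Q',
      s.isCompact_biUnion fun r _ => hQ'.image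
        (QuotientGroup.continuous_mk.comp (continuous_mul_const r)), fun I x => ?_⟩
    obtain ⟨g, rfl⟩ := QuotientGroup.mk_surjective x
    refine (h I (QuotientGroup.mk g)).imp (fun hg => ?_) fun ⟨c₀, h0, h1⟩ =>
      ⟨c₀, h0, g, ((t1 I _ 2 ε).2 g).1 h1, rfl⟩
    obtain ⟨q, hq, e⟩ := hl' hg
    obtain ⟨r, hr, h1⟩ := hs _ (QuotientGroup.eq.1 e)
    refine Set.mem_iUnion₂.2 ⟨r, hr, q, hq, QuotientGroup.eq.2 ?_⟩
    rwa [_root_.mul_inv_rev, mul_assoc]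

end Pool.Agent.Lib.MP_9177b7_ag.B.U.V
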