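import Pool.Agent.Lib.MP_9177b7_ag.V.St
import Pool.Agent.Lib.MP_9177b7_ag.U.Typ

/-! Type norms of ideals prime to the level. -/

open NumberField IntermediateField
open scoped nonZeroDivisors Classical Pointwise

noncomputable section

namespace Pool.Agent.Lib.MP_9177b7_ag.B.U.V

namespace TypL

open Typ

theorem cop_prod {R ι : Type} [CommRing R] {l : ℕ} (s : Finset ι) (f : ι → Ideal R)
    (h : ∀ i ∈ s, Cop l (f i)) : Cop l (∏ i ∈ s, f i) := by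
  refine Finset.prod_induction f (Cop l) ?_ ⟨1, by simp, 0, by simp⟩ h
  rintro a b ⟨x, hx, u, rfl⟩ ⟨y, hy, v, rfl⟩
  exact ⟨_, Ideal.mul_mem_mul hx hy, u + v + l * u * v, by ring⟩

variable {K L M : Type} [Field K] [NumberField K] [Field L] [NumberField L] [Field M]
  [NumberField M] [Algebra K L] [Algebra K M] {l : ℕ}

omit [NumberField K] [NumberField M] in
theorem cop_smul (σ : M ≃ₐ[K] M) {B : Ideal (𝓞 M)} (h : Cop l B) : Cop l (σ • B) := by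
  obtain ⟨x, hx, u, rfl⟩ := h
  refine ⟨_, Ideal.smul_mem_pointwise_smul σ _ _ hx, σ • u, ?_⟩
  rw [smul_add, smul_one, smul_mul']
  congr 2
  exact map_natCast (MulSemiringAction.toRingHom _ (𝓞 M) σ) l

omit [NumberField L] in
theorem tn_top (T : Set (L →ₐ[K] M)) : TN T ⊤ ⊤ := fun φ => by
  rw [mp, Ideal.map_top, Pd, ← Ideal.one_eq_top]
  exact (Finset.prod_eq_one fun τ _ => smul_one τ).symm

omit [NumberField L] in
theorem tn_mul {T : Set (L →ₐ[K] M)} {c c' : Ideal (𝓞 L)} {B B' : Ideal (𝓞 M)} (h : TN T c B)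
    (h' : TN T c' B') : TN T (c * c') (B * B') := fun φ => by
  have e := h φ
  have e' := h' φ
  rw [mp] at e e' ⊢
  rw [Ideal.map_mul, e, e', Pd, Pd, Pd, ← Finset.prod_mul_distrib]
  exact Finset.prod_congr rfl fun τ _ => (smul_mul' τ B B').symm

section tower

variable [Algebra L M] [IsScalarTower K L M] [IsGalois K M]

theorem cop_cN (hn : NrmStmt) (φ : L →ₐ[K] M) {B : Ideal (𝓞 M)} (h : Cop l B) :
    Cop l (cN φ B) := by
  obtain ⟨x, hx, hu⟩ := cop_smul (trans φ).choose⁻¹ h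
  exact ⟨_, Ideal.intNorm_mem_spanNorm (𝓞 L) hx, hn L M l x hu⟩

theorem cl_prin (φ : L →ₐ[K] M) (x : 𝓞 M) (h : Ideal.span {x} ∈ (Ideal (𝓞 M))⁰) :
    cl φ ⟨_, h⟩ = 1 := by
  refine (ClassGroup.mk0_eq_one_iff _).2 ⟨Algebra.intNorm _ _ ((trans φ).choose⁻¹ • x), ?_⟩
  rw [cN, Ideal.submodule_span_eq, ← Ideal.relNorm_singleton, Ideal.pointwise_smul_def,
    Ideal.map_span, Set.image_singleton]
  rfl

theorem cl_eq (φ : L →ₐ[K] M) {B B' : (Ideal (𝓞 M))⁰}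
    (h : ClassGroup.mk0 B = ClassGroup.mk0 B') : cl φ B = cl φ B' := by
  obtain ⟨x, y, hx, hy, e⟩ := ClassGroup.mk0_eq_mk0_iff.1 h
  have hx' : Ideal.span {x} ∈ (Ideal (𝓞 M))⁰ := mem_nonZeroDivisors_of_ne_zero (by simpa using hx)
  have hy' : Ideal.span {y} ∈ (Ideal (𝓞 M))⁰ := mem_nonZeroDivisors_of_ne_zero (by simpa using hy)
  have e' : (⟨_, hx'⟩ : (Ideal (𝓞 M))⁰) * B = ⟨_, hy'⟩ * B' := Subtype.ext e
  simpa only [map_mul, cl_prin, one_mul] using congrArg (cl φ) e'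

theorem tn_card (hg : ∀ π : Equiv.Perm (L →ₐ[K] M), ∃ τ : M ≃ₐ[K] M, ∀ φ, π φ = τ • φ)
    {T T' : Finset (L →ₐ[K] M)} (h : T.card = T'.card) (B : Ideal (𝓞 M)) :
    ∃ τ : M ≃ₐ[K] M, TN (T : Set (L →ₐ[K] M)) (∏ ψ ∈ T', cN ψ B) (τ • B) := by
  obtain ⟨π, hπ⟩ := Equiv.Perm.exists_map_finset_eq T T' h
  obtain ⟨τ, hτ⟩ := hg π
  refine ⟨τ⁻¹, (tn_iff _ _ _).2 ?_⟩
  rw [← hπ, Finset.prod_map]
  exact Finset.prod_congr rfl fun ψ _ => by rw [← cN_eq, ← hτ]; rfl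

theorem tn_quo (hg : ∀ π : Equiv.Perm (L →ₐ[K] M), ∃ τ : M ≃ₐ[K] M, ∀ φ, π φ = τ • φ)
    {T : Finset (L →ₐ[K] M)} (h0 : 0 < T.card) (h1 : T.card < Fintype.card (L →ₐ[K] M))
    (φ ψ : L →ₐ[K] M) {P : Ideal (𝓞 M)} (hP : P ≠ ⊥) (hl : Cop l P) :
    ∃ (B B' : Ideal (𝓞 M)) (b b' : Ideal (𝓞 L)), B ≠ ⊥ ∧ B' ≠ ⊥ ∧ Cop l B ∧ Cop l B' ∧
      TN (T : Set (L →ₐ[K] M)) b B ∧ TN (T : Set (L →ₐ[K] M)) b' B' ∧
      cN φ P * b = cN ψ P * b' := by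
  have hs : ∀ τ : M ≃ₐ[K] M, τ • P ≠ ⊥ := fun τ =>
    nonZeroDivisors.ne_zero (smul_mem τ ⟨P, mem_nonZeroDivisors_of_ne_zero hP⟩)
  by_cases e : φ = ψ
  · obtain ⟨τ, hτ⟩ := tn_card hg (rfl : T.card = T.card) P
    exact ⟨_, _, _, _, hs τ, hs τ, cop_smul τ hl, cop_smul τ hl, hτ, hτ, by rw [e]⟩
  obtain ⟨U, hU, hc⟩ := Finset.exists_subset_card_eq (n := T.card - 1)
    (s := (Finset.univ.erase φ).erase ψ) (by
      rw [Finset.card_erase_of_mem (by simpa using Ne.symm e),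
        Finset.card_erase_of_mem (Finset.mem_univ _), Finset.card_univ]
      omega)
  have hφ : φ ∉ U := fun h => by simpa using hU h
  have hψ : ψ ∉ U := fun h => by simpa using hU h
  obtain ⟨τ, a1⟩ := tn_card hg (T := T) (T' := insert ψ U)
    (by rw [Finset.card_insert_of_notMem hψ]; omega) P
  obtain ⟨τ', a2⟩ := tn_card hg (T := T) (T' := insert φ U)
    (by rw [Finset.card_insert_of_notMem hφ]; omega) P
  refine ⟨_, _, _, _, hs τ, hs τ', cop_smul τ hl, cop_smul τ' hl, a1, a2, ?_⟩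
  rw [Finset.prod_insert hφ, Finset.prod_insert hψ, mul_left_comm]

end tower

theorem main [IsNormalClosure K L M] (hr : RayStmt) (hn : NrmStmt) (hl : l ≠ 0)
    (hg : ∀ π : Equiv.Perm (L →ₐ[K] M), ∃ τ : M ≃ₐ[K] M, ∀ φ, π φ = τ • φ)
    (T : Finset (L →ₐ[K] M)) (h0 : 0 < T.card) (h1 : T.card < Module.finrank K L)
    (hc : T.card.Coprime (Module.finrank K L)) :
    (∀ B b, TN (T : Set (L →ₐ[K] M)) b B → (B ≠ ⊥ → b ≠ ⊥) ∧ (Cop l B → Cop l b)) ∧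
    (∃ H : Subgroup (ClassGroup (𝓞 L)),
      H.index ≤ classNumber K * (Module.finrank K L).factorial ∧ ∀ x ∈ H,
      ∃ (B : Ideal (𝓞 M)) (b : (Ideal (𝓞 L))⁰), B ≠ ⊥ ∧ Cop l B ∧
        TN (T : Set (L →ₐ[K] M)) b.1 B ∧ ClassGroup.mk0 b = x) ∧
    ∀ (p : ℕ) [Fact p.Prime] (ι : Type) [Fintype ι] (j : K →+* ℚ_[p]) (ψ : ι → (L →+* ℚ_[p])),
      l.Coprime p → Function.Injective ψ → (∀ i x, ψ i (algebraMap K L x) = j x) →
      Fintype.card ι = Module.finrank K L → ∀ i k : ι,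
        ∃ (B B' : Ideal (𝓞 M)) (b b' : Ideal (𝓞 L)), B ≠ ⊥ ∧ B' ≠ ⊥ ∧ Cop l B ∧ Cop l B' ∧
          TN (T : Set (L →ₐ[K] M)) b B ∧ TN (T : Set (L →ₐ[K] M)) b' B' ∧
          Pp (ψ i) * b = Pp (ψ k) * b' := by
  obtain ⟨H, a1, a2, -⟩ := typ0 hg T h0 h1 hc
  have := galois (K := K) L (M := M)
  obtain ⟨φ, -⟩ := Finset.card_pos.1 h0
  let := (φ : L →+* M).toAlgebra
  have : IsScalarTower K L M := IsScalarTower.of_algebraMap_eq fun x => (φ.commutes x).symm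
  have hm : ∀ B : (Ideal (𝓞 M))⁰, ∏ ψ ∈ T, cN ψ B.1 ∈ (Ideal (𝓞 L))⁰ := fun B =>
    prod_mem fun ψ _ => Iso.norm_mem L M ⟨_, smul_mem _ B⟩
  refine ⟨fun B b h => ⟨fun hB => ?_, fun hB => ?_⟩, ⟨H, a2, fun x hx => ?_⟩, ?_⟩
  · rw [(tn_iff T b B).1 h]
    exact nonZeroDivisors.ne_zero (hm ⟨B, mem_nonZeroDivisors_of_ne_zero hB⟩)
  · rw [(tn_iff T b B).1 h]
    exact cop_prod _ _ fun ψ _ => cop_cN hn ψ hB
  · obtain ⟨c, B, hB, h, rfl⟩ := (a1 x).1 hx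
    obtain ⟨B', e, hB'⟩ := (hr M l hl).2.2.1
      (ClassGroup.mk0 ⟨B, mem_nonZeroDivisors_of_ne_zero hB⟩)
    refine ⟨B', ⟨_, hm B'⟩, nonZeroDivisors.ne_zero B'.2, hB', (tn_iff T _ _).2 rfl, ?_⟩
    rw [mk0_prod T B' _ rfl, mk0_prod T ⟨B, mem_nonZeroDivisors_of_ne_zero hB⟩ c
      ((tn_iff T c.1 B).1 h)]
    exact Finset.prod_congr rfl fun ψ _ => cl_eq ψ e
  · intro p _ ι _ j ψ b0 b1 b2 b3 i k
    obtain ⟨χ, hχ⟩ := exists_chi (M := M) j ψ b1 b2 b3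
    obtain ⟨φi, hi⟩ := hχ i
    obtain ⟨φk, hk⟩ := hχ k
    have e := ((pad M p).1 χ).2.2.1
    rw [← hi, ← hk, ← cN_Pp, ← cN_Pp]
    refine tn_quo hg h0 (by rwa [card_emb]) φi φk (fun h => ?_)
      (((hr M l hl).2.2.2 _).2 (by rw [e]; exact b0.symm))
    rw [h, Ideal.absNorm_bot] at e
    exact (Fact.out : p.Prime).ne_zero e.symm

end TypL

open Typ TypL in
theorem typL (hr : RayStmt) (hn : NrmStmt) : TypLStmt := by
  intro N K _ L _ _ _ lam l hN hg h2 hc hl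
  have := nc K L
  have := nf K L
  set T : Finset (L →ₐ[K] MM K L) := Finset.univ.filter fun φ => ((φ lam : MM K L) : ℂ).re < 0
  have hT : Nat.card {φ : L →ₐ[K] ℂ // (φ lam).re < 0} = T.card := by
    rw [← Fintype.card_subtype, ← Nat.card_eq_fintype_card]
    exact Nat.card_congr ((normalClosure.algHomEquiv K L ℂ).subtypeEquiv fun _ => Iff.rfl).symm
  have hle : T.card ≤ N := by
    rw [← hN, ← card_emb (M := MM K L)]
    exact Finset.card_le_univ T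
  rw [hT] at hc
  have h0 : 0 < T.card := Nat.pos_of_ne_zero fun h => by
    rw [h, Nat.coprime_zero_left] at hc
    omega
  have h1 : T.card < N := lt_of_le_of_ne hle fun h => by
    rw [h, Nat.coprime_self] at hc
    omega
  have key : ∀ B c, TypeNorm K lam B c ↔ TN (T : Set (L →ₐ[K] MM K L)) c B := fun B c =>
    forall_congr' fun φ => Eq.congr_right (Finset.prod_congr
      (Finset.ext fun τ => by simp [T, act_apply]) fun _ _ => rfl)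
  subst hN
  obtain ⟨a1, a2, a3⟩ := main hr hn hl (perm hg) T h0 h1 hc
  simp only [key]
  exact ⟨tn_top _, fun _ _ _ _ => tn_mul, a1, a2, fun p _ j ψ b0 b1 b2 =>
    a3 p _ j ψ b0 b1 b2 (Fintype.card_fin _)⟩

end Pool.Agent.Lib.MP_9177b7_ag.B.U.V
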