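import Pool.Agent.Lib.MP_9177b7_ag.U.All
import Pool.Agent.Lib.MP_9177b7_ag.V.Cg
import Pool.Agent.Lib.MP_9177b7_ag.V.Dens
import Pool.Agent.Lib.MP_9177b7_ag.V.DiscL
import Pool.Agent.Lib.MP_9177b7_ag.V.Fin
import Pool.Agent.Lib.MP_9177b7_ag.V.IsoL
import Pool.Agent.Lib.MP_9177b7_ag.V.Ker
import Pool.Agent.Lib.MP_9177b7_ag.V.MainL
import Pool.Agent.Lib.MP_9177b7_ag.V.MeasL
import Pool.Agent.Lib.MP_9177b7_ag.V.MoveL
import Pool.Agent.Lib.MP_9177b7_ag.V.NbrL
import Pool.Agent.Lib.MP_9177b7_ag.V.Part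
import Pool.Agent.Lib.MP_9177b7_ag.V.ProjL
import Pool.Agent.Lib.MP_9177b7_ag.V.RCyc
import Pool.Agent.Lib.MP_9177b7_ag.V.Ray
import Pool.Agent.Lib.MP_9177b7_ag.V.RelL
import Pool.Agent.Lib.MP_9177b7_ag.V.TubeL
import Pool.Agent.Lib.MP_9177b7_ag.V.TypL

/-!
All the steps together.
-/

namespace Pool.Agent.Lib.MP_9177b7_ag.B.U.V

variable [Sg]

theorem isoL_all : IsoLStmt :=
  isoL ray nrm (typL ray nrm) cg (ker ray rcyc nrm cg (nbrL cg transL))

theorem mainL_all : MainLStmt :=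
  have hD := disc pad
  have hP := densP eich gen hD
  have hL := lift pad hD frame
  have hπ := projL_stmt discL (densPL discL)
  have hT := tubeL (tube hD hP (mahler red hD)) discL
  mainL discL (densRL discL) (unimod eich gen (genU eich)) hπ hT
    (measL frame (amb frame) hL (move pad hD frame hL) cg (relL cg discL) isoL_all
      (moveL cg discL) hπ hT)
    count_all dyn_all

theorem finalL_all : FinalLStmt := finL (part ray (typL ray nrm) cg (relL cg discL)) mainL_all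

end Pool.Agent.Lib.MP_9177b7_ag.B.U.V
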