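import Pool.Agent.Lib.MP_9177b7_ag.U.Defs

/-!
Principal congruence level `l`: the quotients, level structures, and the orbits given by the
reciprocity law.
-/

open NumberField Matrix
open scoped nonZeroDivisors

noncomputable section

namespace Pool.Agent.Lib.MP_9177b7_ag.B.U.V

variable [Sg] (n : ℕ) (K : IntermediateField ℚ ℂ) (l : ℕ)

/-- `g` lies in the principal congruence subgroup `Γ(l)` of `U(J)(O_K)`. -/
def Gam (g : Matrix (Fin (n + 3)) (Fin (n + 3)) ℂ) : Prop :=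
  gᴴ * Jm n ℂ * g = Jm n ℂ ∧ ∃ z : Matrix (Fin (n + 3)) (Fin (n + 3)) ℂ,
    (∀ i j, z i j ∈ OK K) ∧ g = 1 + (l : ℂ) • z

/-- The quotient of the symmetric space by `Γ(l)`, with the quotient topology. -/
abbrev SSl : Type := Quot fun Q Q' : Cone n => ∃ g, Gam n K l g ∧ Q'.1 = gᴴ * Q.1 * g

/-- The group `Γ(l) ∩ SU(J)`: the kernel of the reduction of `SU(J)(O_K)` modulo `l`. -/
def G1l : Subgroup (SU n) :=
  ((SpecialLinearGroup.map (Ideal.Quotient.mk (Ideal.span {(l : OK K)}))).ker.map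
    (SpecialLinearGroup.map (OK K).subtype)).subgroupOf (SU n)

/-- The homogeneous space `SU(J) / (Γ(l) ∩ SU(J))`. -/
abbrev YYl : Type := SU n ⧸ G1l n K l

/-- The projection `g Γ ↦ [gᴴ g]`. -/
def projL (y : YYl n K l) : SSl n K l := Quot.mk _ ⟨y.out.1.1ᴴ * y.out.1.1, maj_mem n _⟩

variable [NumberField K] {L : Type} [Field L] [NumberField L] [IsCMField L] [Algebra K L]

omit [Sg] in
/-- `e' ≡ e` modulo `l a`, locally at the primes dividing `l`. -/
def Cong (a : FractionalIdeal (𝓞 L)⁰ L) (e e' : Fin (n + 3) → L) : Prop :=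
  ∃ t : ℕ, t.Coprime l ∧ ∀ k, ∃ y ∈ a, t * (e' k - e k) = l * y

/-- The orbit given by the reciprocity law: the fixed points of the torus in the frames `e' ≡ e` of
the lattices `c c̄⁻¹ a`, for `c` the type norm of a nonzero ideal prime to `l` of the normal
closure of `L / K` in `ℂ`. -/
def orbitL (lam : L) (a : FractionalIdeal (𝓞 L)⁰ L) (e : Fin (n + 3) → L) : Set (SSl n K l) :=
  {x | ∃ (B : Ideal (𝓞 (IntermediateField.normalClosure K L ℂ))) (c : Ideal (𝓞 L))
    (e' : Fin (n + 3) → L) (v : Cone n), B ≠ ⊥ ∧ (∃ β ∈ B, ∃ y, β = 1 + l * y) ∧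
    TypeNorm K lam B c ∧
    Frame n K lam (c * ((c.map (IsCMField.ringOfIntegersComplexConj L) : Ideal (𝓞 L)) :
      FractionalIdeal (𝓞 L)⁰ L)⁻¹ * a) e' ∧ Cong n l a e e' ∧
    v.1 = maj n K lam e' ∧ x = Quot.mk _ v}

end Pool.Agent.Lib.MP_9177b7_ag.B.U.V
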