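import Pool.Agent.Lib.MP_9177b7_ag.V.St
import Pool.Agent.Lib.MP_9177b7_ag.U.Frame

/-!
Orbits of level `l` are nonempty, and two orbits that meet are equal.
-/

open NumberField Matrix
open scoped nonZeroDivisors ComplexConjugate

noncomputable section

namespace Pool.Agent.Lib.MP_9177b7_ag.B.U.V

namespace PartA

theorem cop_mul {R : Type} [CommRing R] {l : ℕ} {b b' : Ideal R} (h : Cop l b) (h' : Cop l b') :
    Cop l (b * b') := by
  obtain ⟨_, hx, x, rfl⟩ := h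
  obtain ⟨_, hy, y, rfl⟩ := h'
  exact ⟨_, Ideal.mul_mem_mul hx hy, x + y + l * x * y, by ring⟩

theorem cop_top {R : Type} [CommRing R] (l : ℕ) : Cop l (⊤ : Ideal R) :=
  ⟨1, trivial, 0, by ring⟩

section scale

variable {n : ℕ} {K : IntermediateField ℚ ℂ} [NumberField K] {L : Type} [Field L] [NumberField L]
  [IsCMField L] [Algebra K L] {lam lam' u : L}

omit [NumberField K] in
theorem emb (h : lam = lam' * (u * IsCMField.complexConj L u)) (φ : L →ₐ[K] ℂ) :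
    φ lam = φ lam' * ((‖φ u‖ ^ 2 : ℝ) : ℂ) ∧ conj (φ u) * φ u = ((‖φ u‖ ^ 2 : ℝ) : ℂ) := by
  have e : φ (IsCMField.complexConj L u) = conj (φ u) :=
    IsCMField.complexEmbedding_complexConj L φ.toRingHom u
  have e' : conj (φ u) * φ u = ((‖φ u‖ ^ 2 : ℝ) : ℂ) := by
    rw [Complex.conj_mul', Complex.ofReal_pow]
  exact ⟨by rw [h, map_mul, map_mul, e, mul_comm (φ u), e'], e'⟩

theorem maj_sc (h : lam = lam' * (u * IsCMField.complexConj L u)) (e : Fin (n + 3) → L) :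
    maj n K lam' (fun k => u * e k) = maj n K lam e := by
  ext k r
  simp only [maj, of_apply, map_mul]
  refine Finset.sum_congr rfl fun φ _ => ?_
  obtain ⟨h1, h2⟩ := emb h φ
  rw [h1, norm_mul, Complex.norm_real, Real.norm_of_nonneg (sq_nonneg _), Complex.ofReal_mul]
  linear_combination (‖φ lam'‖ : ℂ) * (conj (φ (e k)) * φ (e r)) * h2

omit [NumberField K] in
theorem tn_sc (h : lam = lam' * (u * IsCMField.complexConj L u)) (hu : u ≠ 0)
    {M : IntermediateField K ℂ} [FiniteDimensional K M] {B : Ideal (𝓞 M)} {b : Ideal (𝓞 L)}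
    (hb : TypeNorm K lam B b) : TypeNorm K lam' B b := by
  intro φ
  rw [hb φ]
  refine Finset.prod_congr (Finset.filter_congr fun τ _ => ?_) fun _ _ => rfl
  let ψ : L →ₐ[K] ℂ := M.val.comp ((τ⁻¹ : M ≃ₐ[K] M).toAlgHom.comp φ)
  change (ψ lam).re < 0 ↔ (ψ lam').re < 0
  have h0 : 0 < ‖ψ u‖ ^ 2 := pow_pos (norm_pos_iff.2 ((map_ne_zero ψ).2 hu)) 2
  rw [(emb h ψ).1, Complex.re_mul_ofReal]
  exact ⟨fun e => neg_of_mul_neg_left e h0.le, fun e => mul_neg_of_neg_of_pos e h0⟩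

omit [NumberField K] [IsCMField L] in
theorem cong_sc {l : ℕ} (u : L) {a : FractionalIdeal (𝓞 L)⁰ L} {e e' : Fin (n + 3) → L}
    (h : Cong n l a e e') :
    Cong n l (FractionalIdeal.spanSingleton _ u * a) (fun k => u * e k) fun k => u * e' k := by
  obtain ⟨t, ht, h⟩ := h
  refine ⟨t, ht, fun k => ?_⟩
  obtain ⟨y, hy, e⟩ := h k
  exact ⟨u * y, FractionalIdeal.mem_singleton_mul.2 ⟨y, hy, rfl⟩, by linear_combination u * e⟩

variable [Sg]

omit [NumberField K] in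
theorem fr_sc (h : lam = lam' * (u * IsCMField.complexConj L u)) {a : FractionalIdeal (𝓞 L)⁰ L}
    {e : Fin (n + 3) → L} (he : Frame n K lam a e) :
    Frame n K lam' (FractionalIdeal.spanSingleton _ u * a) fun k => u * e k := by
  refine ⟨fun i j => ?_, fun x => ?_⟩
  · rw [← he.1 i j, h, map_mul (IsCMField.complexConj L)]
    congr 1
    ring
  · rw [FractionalIdeal.mem_singleton_mul]
    constructor
    · rintro ⟨y, hy, rfl⟩
      obtain ⟨c, rfl⟩ := (he.2 y).1 hy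
      exact ⟨c, by rw [Finset.mul_sum]; exact Finset.sum_congr rfl fun i _ => by ring⟩
    · rintro ⟨c, rfl⟩
      exact ⟨_, (he.2 _).2 ⟨c, rfl⟩, by
        rw [Finset.mul_sum]; exact Finset.sum_congr rfl fun i _ => by ring⟩

theorem sc_le (h : lam = lam' * (u * IsCMField.complexConj L u)) (hu : u ≠ 0) (l : ℕ)
    (a : FractionalIdeal (𝓞 L)⁰ L) (e : Fin (n + 3) → L) :
    orbitL n K l lam a e ⊆
      orbitL n K l lam' (FractionalIdeal.spanSingleton _ u * a) fun k => u * e k := by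
  rintro _ ⟨B, b, e', v, h1, h2, h3, h4, h5, h6, rfl⟩
  refine ⟨B, b, fun k => u * e' k, v, h1, h2, tn_sc h hu h3, ?_, cong_sc u h5,
    h6.trans (maj_sc h e').symm, rfl⟩
  rw [mul_left_comm]
  exact fr_sc h h4

omit [NumberField K] [Algebra K L] [Sg] in
theorem inv_sc (h : lam = lam' * (u * IsCMField.complexConj L u)) (hu : u ≠ 0) :
    lam' = lam * (u⁻¹ * IsCMField.complexConj L u⁻¹) := by
  have : IsCMField.complexConj L u ≠ 0 := (map_ne_zero _).2 hu
  rw [h, map_inv₀]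
  field_simp

omit [NumberField K] [Algebra K L] [Sg] [IsCMField L] in
theorem span_inv (hu : u ≠ 0) (a : FractionalIdeal (𝓞 L)⁰ L) :
    FractionalIdeal.spanSingleton _ u⁻¹ * (FractionalIdeal.spanSingleton _ u * a) = a := by
  rw [← mul_assoc, FractionalIdeal.spanSingleton_mul_spanSingleton, inv_mul_cancel₀ hu,
    FractionalIdeal.spanSingleton_one, one_mul]

theorem scale (h : lam = lam' * (u * IsCMField.complexConj L u)) (hu : u ≠ 0) (l : ℕ)
    (a : FractionalIdeal (𝓞 L)⁰ L) (e : Fin (n + 3) → L) :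
    orbitL n K l lam a e =
      orbitL n K l lam' (FractionalIdeal.spanSingleton _ u * a) fun k => u * e k := by
  refine (sc_le h hu l a e).antisymm ((sc_le (inv_sc h hu) (inv_ne_zero hu) l _ _).trans ?_)
  simp only [span_inv hu, inv_mul_cancel_left₀ hu]
  exact subset_rfl

end scale

variable [Sg] {n p : ℕ} [Fact p.Prime] {c : Ctx p} {l : ℕ} (D : Dat n c)

theorem shift (hR : RayStmt) (hT : TypLStmt) (hC : CgStmt) (hl : l ≠ 0)
    (hc : (nb n).Coprime (n + 3)) {a : D.FI} {e e₁ : Fin (n + 3) → D.L}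
    {B : Ideal (𝓞 (MM c.K D.L))} {b : Ideal (𝓞 D.L)} (hB : B ≠ ⊥) (hB' : Cop l B)
    (hb : TypeNorm c.K D.lam B b) (he : D.Fr a e)
    (he₁ : D.Fr (b * ((D.cI b : Ideal (𝓞 D.L)) : D.FI)⁻¹ * a) e₁) (hg : Cg l D e e₁) :
    orbitL n c.K l D.lam a e =
      orbitL n c.K l D.lam (b * ((D.cI b : Ideal (𝓞 D.L)) : D.FI)⁻¹ * a) e₁ := by
  obtain ⟨t1, t2, t3, -⟩ := hT (n + 3) c.K D.L D.lam l D.sp.dim D.sp.gal (by omega)
    (D.sp.sign ▸ hc) hl
  obtain ⟨-, c2, c3, -, c5, c6, -⟩ := hC n p c l D hl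
  apply Set.Subset.antisymm
  · rintro _ ⟨B₂, b₂, e₂, v, h1, h2, h3, h4, h5, h6, rfl⟩
    obtain ⟨h, hh⟩ := (hR D.L l hl).1
    have hb0 := (t3 B b hb).1 hB
    obtain ⟨z, hz, hz'⟩ := hh b hb0 ((t3 B b hb).2 hB')
    have hp : ∀ m : ℕ, Cop l (B ^ m) ∧ TypeNorm c.K D.lam (B ^ m) (b ^ m) := fun m => by
      induction m with
      | zero => simpa only [pow_zero, Ideal.one_eq_top] using ⟨cop_top l, t1⟩
      | succ m ih => rw [pow_succ, pow_succ]; exact ⟨cop_mul ih.1 hB', t2 _ _ _ _ ih.2 hb⟩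
    have z0 : z ≠ 0 := fun h0 => pow_ne_zero (h + 1) hb0 (by
      rw [hz', h0]; exact Ideal.span_singleton_eq_bot.2 rfl)
    let σ := IsCMField.ringOfIntegersComplexConj D.L
    have z1 : σ z ≠ 0 := (map_ne_zero_iff σ σ.injective).2 z0
    have z2 : One l (σ z) := by
      obtain ⟨y, rfl⟩ := hz
      exact ⟨σ y, by rw [map_add, map_one, map_mul, map_natCast]⟩
    have z3 : ((σ z : 𝓞 D.L) : D.L) = D.bar z := rfl
    have z4 : (z : D.L) ≠ 0 := RingOfIntegers.coe_ne_zero_iff.2 z0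
    have z5 : D.bar z ≠ 0 := (map_ne_zero _).2 z4
    have hu : D.lam = D.lam * ((z : D.L) / (σ z : 𝓞 D.L) *
        IsCMField.complexConj D.L ((z : D.L) / (σ z : 𝓞 D.L))) := by
      rw [z3, map_div₀, IsCMField.complexConj_apply_apply]
      field_simp
    have e1 : ((b : D.FI)) ^ (h + 1) = FractionalIdeal.spanSingleton _ (z : D.L) := by
      rw [← FractionalIdeal.coeIdeal_pow, hz', FractionalIdeal.coeIdeal_span_singleton]
    have e2 : ((D.cI b : Ideal (𝓞 D.L)) : D.FI) ^ (h + 1) =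
        FractionalIdeal.spanSingleton _ ((σ z : 𝓞 D.L) : D.L) := by
      rw [← FractionalIdeal.coeIdeal_pow, Dat.cI, ← Ideal.map_pow, hz', Ideal.map_span,
        Set.image_singleton, FractionalIdeal.coeIdeal_span_singleton]
    refine ⟨B₂ * B ^ h, b₂ * b ^ h, fun k => (z : D.L) / (σ z : 𝓞 D.L) * e₂ k, v,
      mul_ne_zero h1 (pow_ne_zero h hB), cop_mul h2 (hp h).1, t2 _ _ _ _ h3 (hp h).2, ?_,
      (c5 _ _ _ he₁).2 (c2 _ _ _ (c3 _ _ _ _ he he₁ hg) (c2 _ _ _ ((c5 _ _ _ he).1 h5)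
        (c6 _ _ z (σ z) h4 hz z2 z1))), h6.trans (maj_sc hu e₂).symm, rfl⟩
    convert fr_sc hu h4 using 1
    rw [div_eq_mul_inv, ← FractionalIdeal.spanSingleton_mul_spanSingleton,
      ← FractionalIdeal.spanSingleton_inv, ← e1, ← e2]
    simp only [Dat.cI, Ideal.map_mul, Ideal.map_pow, FractionalIdeal.coeIdeal_mul,
      FractionalIdeal.coeIdeal_pow, mul_inv, pow_succ]
    ring
  · rintro _ ⟨B₂, b₂, e₂, v, h1, h2, h3, h4, h5, h6, rfl⟩
    refine ⟨B₂ * B, b₂ * b, e₂, v, mul_ne_zero h1 hB, cop_mul h2 hB', t2 _ _ _ _ h3 hb, ?_,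
      (c5 _ _ _ he).2 (c2 _ _ _ hg ((c5 _ _ _ he₁).1 h5)), h6, rfl⟩
    convert h4 using 1
    simp only [Dat.cI, Ideal.map_mul, FractionalIdeal.coeIdeal_mul, mul_inv]
    ring

end PartA

variable [Sg]

open PartA in
theorem part (hR : RayStmt) (hT : TypLStmt) (hC : CgStmt) (hE : RelLStmt) : PartStmt := by
  intro n p _ c l D e hl hc he
  have l0 : l ≠ 0 := by
    rintro rfl
    exact (Fact.out : p.Prime).one_lt.ne' ((Nat.coprime_zero_left p).1 hl)
  obtain ⟨-, -, -, -, -, -, -, -, -, -, -, -, -, -, -, f0, -, -, H⟩ := frame n p c D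
  refine ⟨?_, fun lam' a' e' sp he' hx => ?_⟩
  · obtain ⟨v, hv⟩ := (H _ _ he).2.2.2.2.2.2.2.1
    refine ⟨_, ⊤, ⊤, e, v, top_ne_bot, cop_top l, (hT (n + 3) c.K D.L D.lam l D.sp.dim D.sp.gal
      (by omega) (D.sp.sign ▸ hc) l0).1, by simpa [Ideal.map_top] using he,
      ⟨1, Nat.coprime_one_left l, fun k => ⟨0, FractionalIdeal.zero_mem _, by simp⟩⟩, hv, rfl⟩
  · obtain ⟨_, ⟨B, b, e₁, v, h1, h2, h3, h4, h5, h6, rfl⟩,
      B', b', e₁', w, k1, k2, k3, k4, k5, k6, k7⟩ := hx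
    obtain ⟨u, hu, ha, hg⟩ := (hE n p c l hl).2.2.1 D lam' _ _ e₁ e₁' v w sp.real h4 k4 h6 k6 k7
    have u0 : u ≠ 0 := by
      rintro rfl
      exact f0 (by rw [hu, zero_mul, mul_zero])
    have hu' := inv_sc hu u0
    obtain ⟨-, c2, -, c4, c5, -⟩ := hC n p c l D l0
    have f1 := fr_sc hu' k4
    have f2 := fr_sc hu' he'
    have g1 := c4 u⁻¹ _ _ hg
    simp only [inv_mul_cancel_left₀ u0] at g1
    have f3 := f1
    rw [ha, span_inv u0] at f3
    rw [scale hu' (inv_ne_zero u0) l a' e',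
      shift D hR hT hC l0 hc h1 h2 h3 he f3 (c2 _ _ _ ((c5 _ _ _ he).1 h5) g1),
      shift D hR hT hC l0 hc k1 k2 (tn_sc hu' (inv_ne_zero u0) k3) f2 (mul_left_comm _ _ a' ▸ f1)
        ((c5 _ _ _ f2).1 (cong_sc u⁻¹ k5)), mul_left_comm, ha, span_inv u0]

end Pool.Agent.Lib.MP_9177b7_ag.B.U.V
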