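import Pool.Agent.Lib.MP_9177b7_ag.V.Defs
import Pool.Agent.Lib.MP_9177b7_ag.U.St

/-!
Level `l`: definitions and statements.
-/

open NumberField Matrix MeasureTheory Filter Topology
open scoped nonZeroDivisors ComplexConjugate ENNReal BoundedContinuousFunction

noncomputable section

namespace Pool.Agent.Lib.MP_9177b7_ag.B.U.V

/-! ### Rays -/

/-- `x ≡ 1` modulo `l`. -/
def One {R : Type} [CommRing R] (l : ℕ) (x : R) : Prop := ∃ y, x = 1 + l * y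

/-- The ideal is prime to `l`. -/
def Cop {R : Type} [CommRing R] (l : ℕ) (b : Ideal R) : Prop := ∃ β ∈ b, One l β

/-- The ideals lie in the same ray class modulo `l`. -/
def RayEq {R : Type} [CommRing R] (l : ℕ) (b b' : Ideal R) : Prop :=
  ∃ x y : R, One l x ∧ One l y ∧ x ≠ 0 ∧ y ≠ 0 ∧ Ideal.span {x} * b = Ideal.span {y} * b'

/-- Finiteness of the ray class group, in three forms. -/
def RayStmt : Prop :=
  ∀ (M : Type) [Field M] [NumberField M] (l : ℕ), l ≠ 0 →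
    (∃ h : ℕ, ∀ b : Ideal (𝓞 M), b ≠ ⊥ → Cop l b →
      ∃ z, One l z ∧ b ^ (h + 1) = Ideal.span {z}) ∧
    (∃ (Γ : Type) (_ : Finite Γ) (ι : Ideal (𝓞 M) → Γ), ∀ b b' : Ideal (𝓞 M), b ≠ ⊥ → b' ≠ ⊥ →
      Cop l b → Cop l b' → ι b = ι b' → RayEq l b b') ∧
    (∀ x : ClassGroup (𝓞 M), ∃ b : (Ideal (𝓞 M))⁰, ClassGroup.mk0 b = x ∧ Cop l b.1) ∧
    (∀ b : Ideal (𝓞 M), Cop l b ↔ (Ideal.absNorm b).Coprime l)

/-- Every ray class contains an ideal with cyclic quotient, prime to a given integer. -/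
def RCycStmt : Prop :=
  ∀ (M : Type) [Field M] [NumberField M] (l f : ℕ) (b₀ : Ideal (𝓞 M)), l ≠ 0 → f ≠ 0 → b₀ ≠ ⊥ →
    Cop l b₀ → ∃ (α : 𝓞 M) (b : Ideal (𝓞 M)), One l α ∧ b ≠ ⊥ ∧ Ideal.span {α} = b₀ * b ∧
      (Ideal.absNorm b).Coprime f ∧ Cyc b

/-- Norms preserve the congruence. -/
def NrmStmt : Prop :=
  ∀ (K L : Type) [Field K] [NumberField K] [Field L] [NumberField L] [Algebra K L] (l : ℕ)
    (x : 𝓞 L), One l x → One l (Algebra.intNorm (𝓞 K) (𝓞 L) x)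

/-- Type norms of ideals prime to `l`. -/
def TypLStmt : Prop :=
  ∀ (N : ℕ) (K : IntermediateField ℚ ℂ) [NumberField K] (L : Type) [Field L] [NumberField L]
    [Algebra K L] (lam : L) (l : ℕ), Module.finrank K L = N →
    (∀ π : Equiv.Perm (L →ₐ[K] ℂ), ∃ σ : ℂ ≃ₐ[K] ℂ, ∀ ψ x, π ψ x = σ (ψ x)) → 2 ≤ N →
    (Nat.card {φ : L →ₐ[K] ℂ // (φ lam).re < 0}).Coprime N → l ≠ 0 →
    TypeNorm K lam (⊤ : Ideal (𝓞 (MM K L))) ⊤ ∧
    (∀ (B B' : Ideal (𝓞 (MM K L))) (b b' : Ideal (𝓞 L)), TypeNorm K lam B b →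
      TypeNorm K lam B' b' → TypeNorm K lam (B * B') (b * b')) ∧
    (∀ (B : Ideal (𝓞 (MM K L))) (b : Ideal (𝓞 L)), TypeNorm K lam B b →
      (B ≠ ⊥ → b ≠ ⊥) ∧ (Cop l B → Cop l b)) ∧
    (∃ H : Subgroup (ClassGroup (𝓞 L)), H.index ≤ classNumber K * N.factorial ∧ ∀ x ∈ H,
      ∃ (B : Ideal (𝓞 (MM K L))) (b : (Ideal (𝓞 L))⁰), B ≠ ⊥ ∧ Cop l B ∧ TypeNorm K lam B b.1 ∧
        ClassGroup.mk0 b = x) ∧
    ∀ (p : ℕ) [Fact p.Prime] (j : K →+* ℚ_[p]) (ψ : Fin N → (L →+* ℚ_[p])), l.Coprime p →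
      Function.Injective ψ → (∀ i x, ψ i (algebraMap K L x) = j x) → ∀ i k : Fin N,
        ∃ (B B' : Ideal (𝓞 (MM K L))) (b b' : Ideal (𝓞 L)), B ≠ ⊥ ∧ B' ≠ ⊥ ∧ Cop l B ∧ Cop l B' ∧
          TypeNorm K lam B b ∧ TypeNorm K lam B' b' ∧ Pp (ψ i) * b = Pp (ψ k) * b'

/-! ### The homogeneous spaces -/

section defs

variable {p : ℕ} [Fact p.Prime] (c : Ctx p)

/-- The elements of `K` that are integral at the primes dividing `l`. -/
def Rl (l : ℕ) : Subring c.K where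
  carrier := {x | ∃ t : ℕ, t.Coprime l ∧ IsIntegral ℤ ((t : c.K) * x)}
  one_mem' := ⟨1, Nat.coprime_one_left l, by simpa using isIntegral_one⟩
  zero_mem' := ⟨1, Nat.coprime_one_left l, by simpa using isIntegral_zero⟩
  mul_mem' := by
    rintro x y ⟨s, hs, h⟩ ⟨t, ht, h'⟩
    refine ⟨s * t, Nat.Coprime.mul_left hs ht, ?_⟩
    rw [show ((s * t : ℕ) : c.K) * (x * y) = s * x * (t * y) by push_cast; ring]
    exact h.mul h'
  add_mem' := by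
    rintro x y ⟨s, hs, h⟩ ⟨t, ht, h'⟩
    have hn : ∀ m : ℕ, IsIntegral ℤ (m : c.K) := fun m => by
      simpa using isIntegral_algebraMap (R := ℤ) (A := c.K) (x := (m : ℤ))
    refine ⟨s * t, Nat.Coprime.mul_left hs ht, ?_⟩
    rw [show ((s * t : ℕ) : c.K) * (x + y) = t * (s * x) + s * (t * y) by push_cast; ring]
    exact ((hn t).mul h).add ((hn s).mul h')
  neg_mem' := by
    rintro x ⟨t, ht, h⟩
    exact ⟨t, ht, by convert h.neg using 1; ring⟩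

/-- The roots of unity of `K` congruent to one. -/
def Tl (l : ℕ) : Subgroup (Units.torsion c.K) :=
  ((Units.map (Ideal.Quotient.mk (Ideal.span {(l : 𝓞 c.K)})).toMonoidHom).comp
    (Units.torsion c.K).subtype).ker

variable [Sg] (n l : ℕ)

/-- The congruence subgroup of the `p`-arithmetic group. -/
def GpL : Subgroup (GG n p) :=
  ((SpecialLinearGroup.map (Ideal.Quotient.mk (Ideal.span {(l : c.RK)}))).ker.map
    ((SpecialLinearGroup.map (c.j.comp c.RK.subtype)).prod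
      (SpecialLinearGroup.map ((algebraMap c.K ℂ).comp c.RK.subtype)))).comap
        ((MonoidHom.id (HP n p)).prodMap (SU n).subtype)

/-- The `p`-arithmetic quotient of level `l`. -/
abbrev XL : Type := GG n p ⧸ GpL c n l

/-- The quotient as an abstract space. -/
def spL [PolishSpace (XL c n l)] : Sp n p where
  C := SU n
  X := XL c n l
  opn x := by
    obtain ⟨g, rfl⟩ := QuotientGroup.mk_surjective x
    exact QuotientGroup.isOpenMap_coe.comp (isOpenMap_mul_right g)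

variable {n}

/-- The image of `Wg` in the quotient. -/
def WL (I : Finset (Fin (n + 3))) (c₀ : ℚ_[p]) (k : ℕ) (R : ℝ) : Set (XL c n l) :=
  QuotientGroup.mk '' c.Wg I c₀ k R

variable {c} (D : Dat n c)

/-- The transition matrix from `e` to `e'` is congruent to one modulo `l`. -/
def Cg (e e' : Fin (n + 3) → D.L) : Prop :=
  ∃ δ : Matrix (Fin (n + 3)) (Fin (n + 3)) c.K, (∀ i k, δ i k ∈ Rl c l) ∧
    ∀ k, e' k = e k + l * ∑ i, algebraMap c.K D.L (δ i k) * e i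

/-- `b` is the type norm of an ideal prime to `l` and `e'` is a frame of its twist congruent to
`e`. -/
def Adm (e : Fin (n + 3) → D.L) (b : Ideal (𝓞 D.L)) (e' : Fin (n + 3) → D.L) : Prop :=
  (∃ B : Ideal (𝓞 (MM c.K D.L)), B ≠ ⊥ ∧ Cop l B ∧ TypeNorm c.K D.lam B b) ∧
    D.Fr (D.tw b) e' ∧ Cg l D e e'

end defs

variable [Sg]

/-- Discreteness, finite index and the integral points. -/
def DiscLStmt : Prop :=
  ∀ (n p : ℕ) [Fact p.Prime] (c : Ctx p) (l : ℕ), l.Coprime p →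
    (∀ x ∈ Rl c l, (l : c.K) * x ∈ c.RK → x ∈ c.RK) ∧
    (∀ x ∈ Rl c l, IsIntegral ℤ ((l : c.K) * x) → IsIntegral ℤ x) ∧
    (∀ g : GG n p, g ∈ GpL c n l ↔ ∃ δ : Matrix (Fin (n + 3)) (Fin (n + 3)) c.K,
      (∀ i j, δ i j ∈ c.RK) ∧ g.1.1 = (1 + (l : c.K) • δ).map c.j ∧
        g.2.1.1 = (1 + (l : c.K) • δ).map (algebraMap c.K ℂ)) ∧
    GpL c n l ≤ c.Gp n ∧
    (∃ s : Finset (GG n p), ∀ g ∈ c.Gp n, ∃ r ∈ s, r⁻¹ * g ∈ GpL c n l) ∧
    (∀ g : SU n, g ∈ G1l n c.K l ↔ Gam n c.K l g.1.1) ∧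
    (∀ g ∈ GpL c n l, Intg g.1 → g.2 ∈ G1l n c.K l) ∧
    DiscreteTopology (GpL c n l) ∧ DiscreteTopology (G1l n c.K l)

/-- Strong approximation at `p`. -/
def DensPLStmt : Prop :=
  ∀ (n p : ℕ) [Fact p.Prime] (c : Ctx p) (l : ℕ), l.Coprime p → ∀ h : HP n p,
    ∃ γ ∈ GpL c n l, Intg (h * γ.1)

/-- Density at the real place. -/
def DensRLStmt : Prop :=
  ∀ (n p : ℕ) [Fact p.Prime] (c : Ctx p) (l : ℕ), l.Coprime p →
    Dense {g : GG n p | ∃ h : HP n p, ∃ γ ∈ GpL c n l, g = (h, 1) * γ}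

/-- The projections. -/
def ProjLStmt : Prop :=
  ∀ (n p : ℕ) [Fact p.Prime] (c : Ctx p) (l : ℕ), l.Coprime p →
    (∃ π : XL c n l → YYl n c.K l, Continuous π ∧
      (∀ g : GG n p, Intg g.1 → π (QuotientGroup.mk g) = QuotientGroup.mk g.2) ∧
      ∀ (g : SU n) (x : XL c n l), π (((1, g) : GG n p) • x) = g • π x) ∧
    Continuous (projL n c.K l) ∧
    ∀ (g : SU n) (v : Cone n), v.1 = g.1.1ᴴ * g.1.1 →
      projL n c.K l (QuotientGroup.mk g) = Quot.mk _ v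

/-- Tubes and neighbourhoods of the cusps are covered by the sets `WL`. -/
def TubeLStmt : Prop :=
  ∀ (n p : ℕ) [Fact p.Prime] (c : Ctx p) (l : ℕ), l.Coprime p →
    (∀ (I : Finset (Fin (n + 3))) c₀ k R, IsOpen (WL c l I c₀ k R) ∧
      ∀ g : GG n p, QuotientGroup.mk g ∈ WL c l I c₀ k R ↔ g ∈ c.Wg I c₀ k R) ∧
    (∃ R : ℝ, ∃ O ∈ 𝓝 (1 : SU n), ∀ (I : Finset (Fin (n + 3))) (k : ℕ) (x : XL c n l),
      ∃ c₀ : ℚ_[p], {y | ∃ h ∈ KI p I k, ∃ u ∈ O, y = ((h, u) : GG n p) • x} ⊆ WL c l I c₀ k R) ∧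
    ∀ ε : ℝ, 0 < ε → ∃ Q : Set (XL c n l), IsCompact Q ∧ ∀ (I : Finset (Fin (n + 3)))
      (x : XL c n l), x ∈ Q ∨ ∃ c₀ ∈ Finset.range (p ^ 2), x ∈ WL c l I (c₀ : ℚ_[p]) 2 ε

/-! ### Level structures -/

/-- The congruence of frames. -/
def CgStmt : Prop :=
  ∀ (n p : ℕ) [Fact p.Prime] (c : Ctx p) (l : ℕ) (D : Dat n c), l ≠ 0 →
    (∀ e, Cg l D e e) ∧ (∀ e e' e'', Cg l D e e' → Cg l D e' e'' → Cg l D e e'') ∧
    (∀ a a' e e', D.Fr a e → D.Fr a' e' → Cg l D e e' → Cg l D e' e) ∧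
    (∀ (u : D.L) e e', Cg l D e e' → Cg l D (fun k => u * e k) fun k => u * e' k) ∧
    (∀ a e e', D.Fr a e → (Cong n l a e e' ↔ Cg l D e e')) ∧
    (∀ a e (x y : 𝓞 D.L), D.Fr a e → One l x → One l y → y ≠ 0 →
      Cg l D e fun k => (x : D.L) / y * e k) ∧
    (∀ ζ : Units.torsion c.K, ζ ∈ Tl c l ↔ One l (ζ.1 : 𝓞 c.K)) ∧
    ∀ e, ∀ ζ ∈ Tl c l, Cg l D e (D.rot e ζ)

/-- Equality of points. -/
def RelLStmt : Prop :=
  ∀ (n p : ℕ) [Fact p.Prime] (c : Ctx p) (l : ℕ), l.Coprime p →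
    (∀ (D : Dat n c) (u : D.L) (e : Fin (n + 3) → D.L), u * D.bar u = 1 →
      maj n c.K D.lam (fun k => u * e k) = maj n c.K D.lam e) ∧
    (∀ (D : Dat n c) (a : D.FI) (e e' : Fin (n + 3) → D.L) (v w : Cone n), D.Fr a e → D.Fr a e' →
      Cg l D e e' → v.1 = maj n c.K D.lam e → w.1 = maj n c.K D.lam e' →
      (Quot.mk _ v : SSl n c.K l) = Quot.mk _ w) ∧
    (∀ (D : Dat n c) (lam' : D.L) (a a' : D.FI) (e e' : Fin (n + 3) → D.L) (v w : Cone n),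
      D.bar lam' = lam' → D.Fr a e → Frame n c.K lam' a' e' → v.1 = maj n c.K D.lam e →
      w.1 = maj n c.K lam' e' → (Quot.mk _ v : SSl n c.K l) = Quot.mk _ w →
      ∃ u : D.L, D.lam = lam' * (u * D.bar u) ∧ a' = FractionalIdeal.spanSingleton _ u * a ∧
        Cg l D (fun k => u * e k) e') ∧
    ∃ C : ℕ, ∀ (D : Dat n c) (a : D.FI), ∃ s : Finset (SSl n c.K l), s.card ≤ C ∧
      ∀ (e : Fin (n + 3) → D.L) (v : Cone n), D.Fr a e → v.1 = maj n c.K D.lam e →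
        Quot.mk _ v ∈ s

/-- The congruence subgroup acts transitively on hyperplanes modulo a split ideal. -/
def TransLStmt : Prop :=
  ∀ (n p : ℕ) [Fact p.Prime] (c : Ctx p) (l : ℕ) (m : Ideal (𝓞 c.K)) (z : Fin (n + 3) → 𝓞 c.K),
    Cyc m → m ⊔ m.map c.cjO = ⊤ → m ⊔ Ideal.span {2} = ⊤ → m ⊔ Ideal.span {(l : 𝓞 c.K)} = ⊤ →
    ∃ γ δ : Matrix (Fin (n + 3)) (Fin (n + 3)) (𝓞 c.K), c.Uni (γ.map (algebraMap _ c.K)) ∧
      γ = 1 + (l : 𝓞 c.K) • δ ∧ ∀ k, k ≠ 0 → ∑ i, z i * γ i k ∈ m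

/-- Neighbouring lattices with level structure. -/
def NbrLStmt : Prop :=
  ∀ (n p : ℕ) [Fact p.Prime] (c : Ctx p) (l : ℕ) (D : Dat n c) (a : D.FI) (e : Fin (n + 3) → D.L)
    (b : Ideal (𝓞 D.L)) (y : 𝓞 c.K), l ≠ 0 → D.Fr a e → b ≠ ⊥ → Cyc b →
    (Ideal.absNorm b).Coprime (c.m0 * l) →
    b.comap (algebraMap (𝓞 c.K) (𝓞 D.L)) = Ideal.span {y} → One l y →
    ∃ e', D.Fr (b * ((D.cI b : Ideal (𝓞 D.L)) : D.FI)⁻¹ * a) e' ∧ Cg l D e e'

/-- Twists by ideals whose norm lies in the principal ray class. -/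
def KerStmt : Prop :=
  ∀ (n p : ℕ) [Fact p.Prime] (c : Ctx p) (l : ℕ) (D : Dat n c) (a : D.FI) (e : Fin (n + 3) → D.L)
    (b : Ideal (𝓞 D.L)), l ≠ 0 → D.Fr a e → b ≠ ⊥ → Cop l b →
    RayEq l (Ideal.relNorm (𝓞 c.K) b) ⊤ →
    ∃ e', D.Fr (b * ((D.cI b : Ideal (𝓞 D.L)) : D.FI)⁻¹ * a) e' ∧ Cg l D e e'

/-- There are many admissible classes, and they are stable under the primes above `p`. -/
def IsoLStmt : Prop :=
  ∀ (n p : ℕ) [Fact p.Prime] (c : Ctx p) (l : ℕ), l.Coprime p → (nb n).Coprime (n + 3) →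
    ∃ C : ℕ, ∀ (D : Dat n c) (e : Fin (n + 3) → D.L), D.Fr D.a e →
      classNumber D.L ≤ C * Nat.card {x : ClassGroup (𝓞 D.L) // ∃ (b : (Ideal (𝓞 D.L))⁰)
        (e' : Fin (n + 3) → D.L), Adm l D e b.1 e' ∧ ClassGroup.mk0 b = x} ∧
      (∀ b e', Adm l D e b e' → b ≠ ⊥) ∧
      ∀ (i k : Fin (n + 3)) b e', Adm l D e b e' → ∃ b₁ e₁, Adm l D e b₁ e₁ ∧ ∃ u : D.L,
        u * D.bar u = 1 ∧ D.tw b₁ =
          FractionalIdeal.spanSingleton _ u * D.quo k i * (D.cF (D.quo k i))⁻¹ * D.tw b ∧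
        Cg l D e fun r => u * e r

/-- Moving a frame by a quotient of two primes above `p`. -/
def MoveLStmt : Prop :=
  ∀ (n p : ℕ) [Fact p.Prime] (c : Ctx p) (l : ℕ) (D : Dat n c) (i r : Fin (n + 3)) (a : D.FI)
    (e e' : Fin (n + 3) → D.L) (u : D.L) (k : Fin (n + 3) → ℤ) (hk : ∑ r, k r = 0), l.Coprime p →
    i ≠ r → k = Pi.single i 1 - Pi.single r 1 → u * D.bar u = 1 → D.Fr a e →
    D.Fr (FractionalIdeal.spanSingleton _ u * D.quo r i * (D.cF (D.quo r i))⁻¹ * a) e' →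
    Cg l D e' (fun s => u * e s) →
    ∃ η ∈ Tl c l, ∀ ζ ∈ Tl c l, ∀ g g' : GG n p,
      D.IsLift (D.rot e ζ) g → D.IsLift (D.rot e' (ζ * η)) g' →
      ∃ m ∈ M0 n p, ∃ γ ∈ GpL c n l, (dgp p k hk, 1) * g = m * g' * γ

/-- The measure attached to a datum. -/
def MeasLStmt : Prop :=
  ∀ (n p : ℕ) [Fact p.Prime] (c : Ctx p) (l : ℕ) [PolishSpace (XL c n l)]
    (π : XL c n l → YYl n c.K l), l.Coprime p → (nb n).Coprime (n + 3) → Continuous π →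
    (∀ g : GG n p, Intg g.1 → π (QuotientGroup.mk g) = QuotientGroup.mk g.2) →
    ∃ C : ℝ, 0 < C ∧ ∀ (D : Dat n c) (S : D.Sys) (e : Fin (n + 3) → D.L), D.H = ⊤ → D.Fr D.a e →
      ∃ ν : Measure (XL c n l), IsProbabilityMeasure ν ∧ (spL c n l).AInv ν ∧
        (orbitL n c.K l D.lam D.a e).Finite ∧
        (∀ f : SSl n c.K l →ᵇ ℝ,
          mean (orbitL n c.K l D.lam D.a e) f = ∫ x, f (projL n c.K l (π x)) ∂ν) ∧
        ∀ I c₀ k R, ν (WL c l I c₀ k R) ≤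
          ENNReal.ofReal (C * D.pr fun x => D.Ev (D.tw (S.b x)) I c₀ k R)

/-- The theorem for bundled data. -/
def MainLStmt : Prop :=
  ∀ (n p : ℕ) [Fact p.Prime] (c : Ctx p) (l : ℕ) (D : ℕ → Dat n c)
    (e : ∀ m, Fin (n + 3) → (D m).L), l.Coprime p → (nb n).Coprime (n + 3) →
    (∀ m, (D m).H = ⊤) → (∀ m, (D m).Fr (D m).a (e m)) →
    Tendsto (fun m => |(discr (D m).L : ℝ)|) atTop atTop →
    (∀ m, (orbitL n c.K l (D m).lam (D m).a (e m)).Finite) ∧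
    ∃ μ : @Measure (YYl n c.K l) (borel _),
      (∀ ν : @Measure (YYl n c.K l) (borel _), (ν Set.univ = 1 ∧
        ∀ g : SU n, @Measure.map _ _ (borel _) (borel _) (g • ·) ν = ν) ↔ ν = μ) ∧
      ∀ f : SSl n c.K l →ᵇ ℝ, Tendsto
        (fun m => mean (orbitL n c.K l (D m).lam (D m).a (e m)) f) atTop
        (𝓝 (∫ y, f (projL n c.K l y) ∂μ))

/-- Orbits are nonempty, and two orbits that meet are equal. -/
def PartStmt : Prop :=
  ∀ (n p : ℕ) [Fact p.Prime] (c : Ctx p) (l : ℕ) (D : Dat n c) (e : Fin (n + 3) → D.L),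
    l.Coprime p → (nb n).Coprime (n + 3) → D.Fr D.a e →
    (orbitL n c.K l D.lam D.a e).Nonempty ∧
    ∀ (lam' : D.L) (a' : D.FI) (e' : Fin (n + 3) → D.L), Special n c.K p lam' a' →
      Frame n c.K lam' a' e' →
      (orbitL n c.K l D.lam D.a e ∩ orbitL n c.K l lam' a' e').Nonempty →
      orbitL n c.K l D.lam D.a e = orbitL n c.K l lam' a' e'

/-- The theorem. -/
def FinalLStmt : Prop :=
  ∀ (n p l : ℕ) [Fact p.Prime] (K : IntermediateField ℚ ℂ) [NumberField K],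
    (nb n).Coprime (n + 3) → l.Coprime p → Module.finrank ℚ K = 2 → (∃ z ∈ K, z.im ≠ 0) →
    ∀ (L : ℕ → Type) [∀ m, Field (L m)] [∀ m, NumberField (L m)] [∀ m, IsCMField (L m)]
      [∀ m, Algebra K (L m)] (ι : ℕ → Type) [∀ m, Finite (ι m)] [∀ m, Nonempty (ι m)]
      (lam : ∀ m, ι m → L m) (a : ∀ m, ι m → FractionalIdeal (𝓞 (L m))⁰ (L m))
      (e : ∀ m, ι m → Fin (n + 3) → L m), (∀ m i, Special n K p (lam m i) (a m i)) →
      (∀ m i, Frame n K (lam m i) (a m i) (e m i)) →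
      Tendsto (fun m => (discr (L m)).natAbs) atTop atTop →
      (∀ m, (⋃ i, orbitL n K l (lam m i) (a m i) (e m i)).Finite) ∧
      ∃ μ : @Measure (YYl n K l) (borel _),
        (∀ ν : @Measure (YYl n K l) (borel _), (ν Set.univ = 1 ∧
          ∀ g : SU n, @Measure.map _ _ (borel _) (borel _) (g • ·) ν = ν) ↔ ν = μ) ∧
        ∀ f : SSl n K l →ᵇ ℝ, Tendsto
          (fun m => mean (⋃ i, orbitL n K l (lam m i) (a m i) (e m i)) f) atTop
          (𝓝 (∫ y, f (projL n K l y) ∂μ))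

end Pool.Agent.Lib.MP_9177b7_ag.B.U.V
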